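import Mathlib

/-!
Definitions used in the statements about verbal width (MP_bcef47_al).
-/

namespace Pool.Agent.VW

/-! ### widths -/

/-- `g` is a product of at most `m` elements of `W`. -/
def Len {G : Type*} [Group G] (W : Set G) (m : ℕ) (g : G) : Prop :=
  ∃ l : List G, l.length ≤ m ∧ (∀ x ∈ l, x ∈ W) ∧ l.prod = g

/-- Every symmetric conjugation-invariant subset `W` of `G` has finite width: there is `m` such
that every element of the subgroup generated by `W` is a product of at most `m` elements of `W`. -/
def FiniteWidths (G : Type) [Group G] : Prop :=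
  ∀ W : Set G, (∀ x ∈ W, x⁻¹ ∈ W) → (∀ x ∈ W, ∀ g : G, g * x * g⁻¹ ∈ W) →
    ∃ m : ℕ, ∀ g ∈ Subgroup.closure W, Len W m g

/-- Every verbal subgroup has finite width: this is the conclusion of the frozen statement S02899
for the group `G`. -/
def VerballyElliptic (G : Type) [Group G] : Prop :=
  ∀ V : Set (FreeGroup ℕ), ∃ m : ℕ, ∀ g ∈ Subgroup.closure
      {h : G | ∃ w ∈ V, ∃ f : ℕ → G, FreeGroup.lift f w = h},
    ∃ l : List G, l.length ≤ m ∧
      (∀ x ∈ l, (∃ w ∈ V, ∃ f : ℕ → G, FreeGroup.lift f w = x) ∨
                (∃ w ∈ V, ∃ f : ℕ → G, FreeGroup.lift f w = x⁻¹)) ∧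
      l.prod = g

/-! ### Grigorchuk's groups, acting on finite words -/

/-- the rooted automorphism `a`: it changes the first letter of a finite binary word -/
def aFun : List Bool → List Bool
  | [] => []
  | x :: w => (!x) :: w

theorem aFun_invol : Function.Involutive aFun := by
  intro w
  cases w with
  | nil => rfl
  | cons x w => simp [aFun]

/-- `a` as a permutation of the set of finite binary words -/
def aPerm : Equiv.Perm (List Bool) := aFun_invol.toPerm

/-- the directed automorphism with symbol `s`: it fixes the empty word and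
`s_ω(0w) = 0w` if `ω₀ = s`, `s_ω(0w) = 0a(w)` otherwise, `s_ω(1w) = 1 s_{ω'}(w)`, where `ω'` is the
shift of `ω`. -/
def dFun (s : Fin 3) : (ℕ → Fin 3) → List Bool → List Bool
  | _, [] => []
  | ω, false :: w => false :: (if ω 0 = s then w else aFun w)
  | ω, true :: w => true :: dFun s (fun k => ω (k + 1)) w

theorem dFun_invol (s : Fin 3) : ∀ (ω : ℕ → Fin 3) (w : List Bool), dFun s ω (dFun s ω w) = w
  | _, [] => rfl
  | ω, false :: w => by
      simp only [dFun]
      split_ifs
      · rfl
      · rw [aFun_invol w]
  | ω, true :: w => by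
      simp only [dFun]
      rw [dFun_invol s _ w]

/-- the directed generator as a permutation -/
def dPerm (s : Fin 3) (ω : ℕ → Fin 3) : Equiv.Perm (List Bool) :=
  Function.Involutive.toPerm (dFun s ω) (dFun_invol s ω)

/-- Grigorchuk's group `G_ω` -/
def Grigorchuk (ω : ℕ → Fin 3) : Subgroup (Equiv.Perm (List Bool)) :=
  Subgroup.closure {aPerm, dPerm 0 ω, dPerm 1 ω, dPerm 2 ω}

/-! ### Grigorchuk's groups, acting on infinite words -/

/-- the rooted automorphism `a` on rays: it changes the first letter of an infinite binary word -/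
def aRay (ξ : ℕ → Bool) : ℕ → Bool := fun n => if n = 0 then !(ξ n) else ξ n

theorem aRay_invol : Function.Involutive aRay := by
  intro ξ
  funext n
  unfold aRay
  split_ifs <;> simp

/-- letter `n` of the image of the ray `ξ` under the directed automorphism with symbol `s`:
`d_ω(0η) = 0η` if `ω₀ = s`, `d_ω(0η) = 0a(η)` otherwise, `d_ω(1η) = 1 d_{ω'}(η)` (`ω'` the shift) -/
def dLetter (s : Fin 3) : ℕ → (ℕ → Fin 3) → (ℕ → Bool) → Bool
  | 0, _, ξ => ξ 0
  | n + 1, ω, ξ =>
      if ξ 0 = false then (if ω 0 = s then ξ (n + 1) else aRay (fun k => ξ (k + 1)) n)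
      else dLetter s n (fun k => ω (k + 1)) (fun k => ξ (k + 1))

/-- the directed automorphism with symbol `s` on rays -/
def dRay (s : Fin 3) (ω : ℕ → Fin 3) (ξ : ℕ → Bool) : ℕ → Bool := fun n => dLetter s n ω ξ

theorem dRay_invol (s : Fin 3) (ω : ℕ → Fin 3) : Function.Involutive (dRay s ω) := by
  intro ξ
  funext n
  induction n generalizing ω ξ with
  | zero => rfl
  | succ n ih =>
    have h0 : dRay s ω ξ 0 = ξ 0 := rfl
    change (if dRay s ω ξ 0 = false then
        (if ω 0 = s then dRay s ω ξ (n + 1) else aRay (fun k => dRay s ω ξ (k + 1)) n)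
      else dRay s (fun k => ω (k + 1)) (fun k => dRay s ω ξ (k + 1)) n) = ξ (n + 1)
    rw [h0]
    by_cases h : ξ 0 = false
    · rw [if_pos h]
      have h1 : ∀ k, dRay s ω ξ (k + 1) =
          if ω 0 = s then ξ (k + 1) else aRay (fun k => ξ (k + 1)) k := fun k => if_pos h
      by_cases h2 : ω 0 = s
      · rw [if_pos h2, h1, if_pos h2]
      · rw [if_neg h2]
        have h3 : (fun k => dRay s ω ξ (k + 1)) = aRay (fun k => ξ (k + 1)) := by
          funext k
          rw [h1, if_neg h2]
        rw [h3, aRay_invol]
    · rw [if_neg h]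
      have h3 : (fun k => dRay s ω ξ (k + 1))
          = dRay s (fun k => ω (k + 1)) (fun k => ξ (k + 1)) := by
        funext k
        exact if_neg h
      rw [h3, ih]

/-- `a` as a permutation of the set of rays -/
def aRayPerm : Equiv.Perm (ℕ → Bool) := aRay_invol.toPerm

/-- the directed generators as permutations of the set of rays -/
def dRayPerm (s : Fin 3) (ω : ℕ → Fin 3) : Equiv.Perm (ℕ → Bool) := (dRay_invol s ω).toPerm

/-- Grigorchuk's group `G_ω` acting on the boundary of the binary tree -/
def GrigorchukRays (ω : ℕ → Fin 3) : Subgroup (Equiv.Perm (ℕ → Bool)) :=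
  Subgroup.closure {aRayPerm, dRayPerm 0 ω, dRayPerm 1 ω, dRayPerm 2 ω}

/-- the orbit of the ray `ξ` under Grigorchuk's group `G_ω` -/
def OrbitRay (ω : ℕ → Fin 3) (ξ : ℕ → Bool) : Type := MulAction.orbit (GrigorchukRays ω) ξ

@[reducible]
def orbitRayAction (ω : ℕ → Fin 3) (ξ : ℕ → Bool) : MulAction (GrigorchukRays ω) (OrbitRay ω ξ) :=
  MulAction.instElemOrbit (a := ξ)

instance (ω : ℕ → Fin 3) (ξ : ℕ → Bool) : MulAction (GrigorchukRays ω) (OrbitRay ω ξ) :=
  orbitRayAction ω ξ

/-! ### permutational wreath products -/

/-- the restricted direct power of `A`: the functions `X → A` with finite support -/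
def FinFun (A X : Type) [Group A] : Subgroup (X → A) where
  carrier := {f | {x | f x ≠ 1}.Finite}
  one_mem' := by simp
  mul_mem' := fun {f g} hf hg => by
    refine (hf.union hg).subset fun x hx => ?_
    by_contra hcon
    simp only [Set.mem_union, Set.mem_ofPred_eq, not_or, not_not] at hcon
    exact hx (by simp [hcon.1, hcon.2])
  inv_mem' := fun {f} hf => by simpa using hf

theorem finFun_preimage {A X : Type} [Group A] (f : FinFun A X) (e : Equiv.Perm X) :
    {x | f.1 (e x) ≠ 1}.Finite := by
  have h : {x | f.1 (e x) ≠ 1} = e.symm '' {x | f.1 x ≠ 1} := by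
    ext x
    simp
  rw [h]
  exact Set.Finite.image _ f.2

/-- the translate `g f` of a finitely supported function `f` on the `G`-set `X`:
`(g f)(x) = f (g⁻¹ x)` -/
def shiftFun {A X G : Type} [Group A] [Group G] [MulAction G X] (g : G) (f : FinFun A X) :
    FinFun A X :=
  ⟨fun x => f.1 (g⁻¹ • x), finFun_preimage f (MulAction.toPerm g⁻¹)⟩

theorem shiftFun_mul {A X G : Type} [Group A] [Group G] [MulAction G X] (g h : G)
    (f : FinFun A X) : shiftFun (g * h) f = shiftFun g (shiftFun h f) := by
  ext x
  simp [shiftFun, mul_smul]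

theorem shiftFun_one {A X G : Type} [Group A] [Group G] [MulAction G X] (f : FinFun A X) :
    shiftFun (1 : G) f = f := by
  ext x
  simp [shiftFun]

theorem shiftFun_left {A X G : Type} [Group A] [Group G] [MulAction G X] (g : G) :
    Function.LeftInverse (shiftFun g⁻¹) (shiftFun g : FinFun A X → FinFun A X) := fun f => by
  rw [← shiftFun_mul, inv_mul_cancel, shiftFun_one]

theorem shiftFun_right {A X G : Type} [Group A] [Group G] [MulAction G X] (g : G) :
    Function.RightInverse (shiftFun g⁻¹) (shiftFun g : FinFun A X → FinFun A X) := fun f => by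
  rw [← shiftFun_mul, mul_inv_cancel, shiftFun_one]

theorem shiftFun_map_mul {A X G : Type} [Group A] [Group G] [MulAction G X] (g : G)
    (f f' : FinFun A X) : shiftFun g (f * f') = shiftFun g f * shiftFun g f' := rfl

/-- translation by `g` as an automorphism of `FinFun A X` -/
def shiftEquiv {A X G : Type} [Group A] [Group G] [MulAction G X] (g : G) :
    MulAut (FinFun A X) :=
  MulEquiv.mk ⟨shiftFun g, shiftFun g⁻¹, shiftFun_left g, shiftFun_right g⟩ (shiftFun_map_mul g)

theorem shiftEquiv_one {A X G : Type} [Group A] [Group G] [MulAction G X] :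
    (shiftEquiv (1 : G) : MulAut (FinFun A X)) = 1 := MulEquiv.ext fun f => shiftFun_one f

theorem shiftEquiv_mul {A X G : Type} [Group A] [Group G] [MulAction G X] (g h : G) :
    (shiftEquiv (g * h) : MulAut (FinFun A X)) = shiftEquiv g * shiftEquiv h :=
  MulEquiv.ext fun f => shiftFun_mul g h f

/-- `G` acts on the finitely supported functions on the `G`-set `X` by `(g f)(x) = f (g⁻¹ x)` -/
def shiftAut (A X G : Type) [Group A] [Group G] [MulAction G X] : G →* MulAut (FinFun A X) where
  toFun := shiftEquiv
  map_one' := shiftEquiv_one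
  map_mul' := shiftEquiv_mul

/-- the restricted permutational wreath product `A ≀_X G` -/
abbrev PermWreath (A X G : Type) [Group A] [Group G] [MulAction G X] : Type :=
  FinFun A X ⋊[shiftAut A X G] G

/-- the restricted permutational wreath product `A ≀_X G` (as an opaque type) -/
def WreathProd (A X G : Type) [Group A] [Group G] [MulAction G X] : Type := PermWreath A X G

instance (A X G : Type) [Group A] [Group G] [MulAction G X] : Group (WreathProd A X G) :=
  SemidirectProduct.instGroup (φ := shiftAut A X G)

/-! ### self-similar groups -/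

/-- A self-similar action of a group `G` over the alphabet `X`, given by the permutation of the
first letter `act g` and the sections `sec g x ∈ G`: on words, `g(xw) = g(x) g|ₓ(w)`. -/
structure SelfSimilar (G X : Type) [Group G] where
  /-- action on the alphabet -/
  act : G →* Equiv.Perm X
  /-- sections -/
  sec : G → X → G
  /-- sections of a product -/
  sec_mul : ∀ (g h : G) (x : X), sec (g * h) x = sec g (act h x) * sec h x

namespace SelfSimilar

variable {G X : Type} [Group G] (A : SelfSimilar G X)

/-- action on finite words -/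
def actW : G → List X → List X
  | _, [] => []
  | g, x :: w => A.act g x :: actW (A.sec g x) w

/-- sections at finite words -/
def secW : G → List X → G
  | g, [] => g
  | g, x :: w => secW (A.sec g x) w

end SelfSimilar

end Pool.Agent.VW
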