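import Pool.Agent.VW.Close

/-! The general theorem: every conjugation-invariant symmetric set has finite width. -/

namespace Pool.Agent.VW

set_option linter.unusedSectionVars false

open Subgroup hiding lowerCentralSeries
open scoped commutatorElement

/-- a uniform bound on a finite family of elements of the closure -/
theorem uniform_len {G : Type} [Group G] {W : Set G} (hs : ∀ x ∈ W, x⁻¹ ∈ W) {ι : Type} [Finite ι]
    (f : ι → G) (hf : ∀ i, f i ∈ Subgroup.closure W) : ∃ m, ∀ i, Len W m (f i) := by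
  classical
  have := Fintype.ofFinite ι
  choose c hc using fun i => Len.exists_of_mem_closure hs (hf i)
  exact ⟨Finset.univ.sup c, fun i => (hc i).mono (Finset.le_sup (Finset.mem_univ i))⟩

theorem len_of_finite {G : Type} [Group G] [Finite G] {W : Set G} (hs : ∀ x ∈ W, x⁻¹ ∈ W) :
    ∃ m : ℕ, ∀ g ∈ Subgroup.closure W, Len W m g := by
  obtain ⟨m, hm⟩ := uniform_len hs (fun x : Subgroup.closure W => (x : G)) (fun x => x.2)
  exact ⟨m, fun g hg => hm ⟨g, hg⟩⟩

/-- passing from a finite-index subgroup to the whole -/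
theorem len_of_finiteIndex {G : Type} [Group G] {W : Set G} (hs : ∀ x ∈ W, x⁻¹ ∈ W)
    (H' : Subgroup G) [H'.FiniteIndex] (m' : ℕ) (hm' : ∀ g ∈ H', Len W m' g) :
    ∃ m : ℕ, ∀ g ∈ Subgroup.closure W, Len W m g := by
  classical
  have hfin : Finite (G ⧸ H') := Subgroup.finite_quotient_of_finiteIndex
  let f : G ⧸ H' → G := fun c =>
    if h : ∃ g ∈ Subgroup.closure W, (g : G ⧸ H') = c then h.choose else 1
  have hf : ∀ c, f c ∈ Subgroup.closure W := by
    intro c
    by_cases h : ∃ g ∈ Subgroup.closure W, (g : G ⧸ H') = c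
    · simp only [f, dif_pos h]
      exact h.choose_spec.1
    · simp only [f, dif_neg h]
      exact (Subgroup.closure W).one_mem
  obtain ⟨m, hm⟩ := uniform_len hs f hf
  refine ⟨m + m', fun g hg => ?_⟩
  have h : ∃ g' ∈ Subgroup.closure W, (g' : G ⧸ H') = (g : G ⧸ H') := ⟨g, hg, rfl⟩
  have h1 : ((f g : G) : G ⧸ H') = (g : G ⧸ H') := by
    simp only [f, dif_pos h]
    exact h.choose_spec.2
  have h2 : (f g)⁻¹ * g ∈ H' := QuotientGroup.eq.1 h1
  have h3 := (hm g).mul (hm' _ h2)
  rwa [show f g * ((f g)⁻¹ * g) = g by group] at h3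

/-- a finitely generated subgroup generated by a symmetric set is generated by a finite list of
elements of that set -/
theorem exists_list {G : Type} [Group G] {W : Set G} (hs : ∀ x ∈ W, x⁻¹ ∈ W)
    (hfg : (Subgroup.closure W).FG) : ∃ xs : List G, (∀ x ∈ xs, x ∈ W) ∧
      Subgroup.closure {x | x ∈ xs} = Subgroup.closure W := by
  obtain ⟨S, hS⟩ := hfg
  have h1 : ∀ s ∈ S, ∃ l : List G, (∀ x ∈ l, x ∈ W) ∧ l.prod = s := by
    intro s hs'
    have : s ∈ Subgroup.closure W := by
      rw [← hS]; exact Subgroup.subset_closure hs'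
    obtain ⟨m, l, -, h2, h3⟩ := Len.exists_of_mem_closure hs this
    exact ⟨l, h2, h3⟩
  choose! l hl using h1
  refine ⟨(S.toList.map l).flatten, ?_, ?_⟩
  · intro x hx
    obtain ⟨l', hl', hx'⟩ := List.mem_flatten.1 hx
    obtain ⟨s, hs', rfl⟩ := List.mem_map.1 hl'
    exact (hl s (Finset.mem_toList.1 hs')).1 x hx'
  · apply le_antisymm
    · rw [Subgroup.closure_le]
      intro x hx
      obtain ⟨l', hl', hx'⟩ := List.mem_flatten.1 hx
      obtain ⟨s, hs', rfl⟩ := List.mem_map.1 hl'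
      exact Subgroup.subset_closure ((hl s (Finset.mem_toList.1 hs')).1 x hx')
    · rw [← hS, Subgroup.closure_le]
      intro s hs'
      rw [← (hl s hs').2]
      apply Subgroup.list_prod_mem
      intro x hx
      apply Subgroup.subset_closure
      exact List.mem_flatten.2 ⟨l s, List.mem_map.2 ⟨s, Finset.mem_toList.2 hs', rfl⟩, hx⟩

theorem closure_normal {G : Type} [Group G] {W : Set G}
    (hc : ∀ x ∈ W, ∀ g : G, g * x * g⁻¹ ∈ W) : (Subgroup.closure W).Normal := by
  constructor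
  intro x hx g
  induction hx using Subgroup.closure_induction with
  | mem x hx => exact Subgroup.subset_closure (hc x hx g)
  | one => simp
  | mul a b _ _ ha hb =>
    have : g * (a * b) * g⁻¹ = (g * a * g⁻¹) * (g * b * g⁻¹) := by group
    rw [this]; exact Subgroup.mul_mem _ ha hb
  | inv a _ ha =>
    have : g * a⁻¹ * g⁻¹ = (g * a * g⁻¹)⁻¹ := by group
    rw [this]; exact Subgroup.inv_mem _ ha

namespace Tower

variable {p : ℕ} {F : Type} [Group F] {N : Subgroup F} [N.Normal] (T : Tower p F N)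

theorem contr_list (xs : List F) :
    ∃ b, ∀ n, b ≤ n → ∀ x ∈ xs, ∀ y, (T.Ψ n x).sec y ∈ T.nuc := by
  induction xs with
  | nil => exact ⟨0, by simp⟩
  | cons x xs ih =>
    obtain ⟨b, hb⟩ := ih
    obtain ⟨b', hb'⟩ := T.contr x
    refine ⟨max b b', fun n hn z hz y => ?_⟩
    rcases List.mem_cons.1 hz with rfl | hz
    · exact hb' n (le_trans (le_max_right _ _) hn) y
    · exact hb n (le_trans (le_max_left _ _) hn) z hz y

include T in
theorem bounded_comm [Fact p.Prime] {W : Set (F ⧸ N)} (hs : ∀ x ∈ W, x⁻¹ ∈ W)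
    (hc : ∀ x ∈ W, ∀ g, g * x * g⁻¹ ∈ W) {h : F ⧸ N} (hh : h ∈ W) (h1 : h ≠ 1)
    (xs : List F) (hxW : ∀ x ∈ xs, (x : F ⧸ N) ∈ W)
    (hxs : (Subgroup.closure {x | x ∈ xs}).map (QuotientGroup.mk' N) = Subgroup.closure W) :
    ∃ m : ℕ, ∀ g ∈ ⁅Subgroup.closure W, Subgroup.closure W⁆, Len W m g := by
  classical
  have hDf : Finite (F ⧸ T.D) := Subgroup.finite_quotient_of_finiteIndex
  let t : F → F := fun f => Quotient.out (f : F ⧸ T.D)
  have ht : ∀ f, (t f)⁻¹ * f ∈ T.D := fun f => QuotientGroup.eq.1 (Quotient.out_eq _)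
  let U₀ : Set F := {1} ∪ T.nuc ∪ Set.range (Quotient.out : F ⧸ T.D → F)
  have hU₀ : U₀.Finite := ((Set.finite_singleton _).union T.nuc_finite).union (Set.finite_range _)
  let U : Set F := U₀ ∪ (fun x => x⁻¹) '' U₀
  have hU : U.Finite := hU₀.union (hU₀.image _)
  have hUs : ∀ x ∈ U, x⁻¹ ∈ U := by
    rintro x (hx | ⟨y, hy, rfl⟩)
    · exact Or.inr ⟨x, hx, rfl⟩
    · left; simpa using hy
  have htU : ∀ f, t f ∈ U := fun f => Or.inl (Or.inr ⟨_, rfl⟩)
  have hnU : ∀ f ∈ T.nuc, f ∈ U := fun f hf => Or.inl (Or.inl (Or.inr hf))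
  -- the constant
  let E : Set F := {u | u ∈ T.D ∧ Len U (4 * xs.length + 1) u}
  have hE : E.Finite := (Len.finite hU (4 * xs.length + 1)).subset fun u hu => hu.2
  have hEc : ∀ u ∈ E, ∃ c, ∀ n ∈ T.I, CL (T.KA n) c (u : F ⧸ T.M n) := by
    intro u hu
    have := hu.1
    unfold D at this
    obtain ⟨a, ha, r, hr, rfl⟩ := Subgroup.mem_sup_of_normal_right.1 this
    obtain ⟨c, hc'⟩ := CL.exists_of_mem ha
    refine ⟨c, fun n hn => ?_⟩
    have h2 := hc'.map (QuotientGroup.mk' (T.M n))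
    have h3 : ((a * r : F) : F ⧸ T.M n) = (a : F ⧸ T.M n) := by
      rw [QuotientGroup.mk_mul, (QuotientGroup.eq_one_iff r).2 (T.R_le n hn hr), mul_one]
    rw [h3]; exact h2
  choose! c hcE using hEc
  let c₀ : ℕ := hE.toFinset.sup c
  have hc₀ : ∀ n ∈ T.I, ∀ u ∈ T.D, Len U (4 * xs.length + 1) u → CL (T.KA n) c₀ (u : F ⧸ T.M n) := by
    intro n hn u hu hl
    have huE : u ∈ E := ⟨hu, hl⟩
    exact (hcE u huE n hn).mono (Finset.le_sup (f := c) (hE.mem_toFinset.2 huE))
  obtain ⟨n₁, hn₁⟩ := T.displace hc hh h1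
  have := Fintype.ofFinite (T.Y n₁)
  refine ⟨2 * xs.length + 4 * Fintype.card (T.Y n₁) * c₀, fun g hg => ?_⟩
  obtain ⟨k, hk, rfl⟩ : ∃ k ∈ ⁅Subgroup.closure {x | x ∈ xs}, Subgroup.closure {x | x ∈ xs}⁆,
      (k : F ⧸ N) = g := by
    have h2 : (⁅Subgroup.closure {x | x ∈ xs}, Subgroup.closure {x | x ∈ xs}⁆).map
        (QuotientGroup.mk' N) = ⁅Subgroup.closure W, Subgroup.closure W⁆ := by
      rw [Subgroup.map_commutator, hxs]
    rw [← h2] at hg
    exact hg
  -- a level where everything is contracted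
  obtain ⟨a, ha⟩ := T.contr k
  have hb := T.contr_list xs
  obtain ⟨b, hb⟩ := hb
  obtain ⟨n, hn, hnI⟩ := T.I_inf (max n₁ (max a b))
  obtain ⟨π, hd⟩ := hn₁ n (le_trans (le_max_left _ _) hn)
  have hna : a ≤ n := le_trans (le_trans (le_max_left _ _) (le_max_right _ _)) hn
  have hnb : b ≤ n := le_trans (le_trans (le_max_right _ _) (le_max_right _ _)) hn
  exact T.level_bound hnI hUs t ht htU hs hc xs hxW π hd c₀ (hc₀ n hnI) k hk
    (fun x hx y => hnU _ (hb n hnb x hx y)) (fun y => hnU _ (ha n hna y))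

include T in
theorem bounded [Fact p.Prime] [Group.FG F] : FiniteWidths (F ⧸ N) := by
  classical
  intro W hs hc
  by_cases hW : ∀ h ∈ W, h = 1
  · refine ⟨0, fun g hg => ?_⟩
    have : Subgroup.closure W ≤ ⊥ := by
      rw [Subgroup.closure_le]
      intro x hx
      exact hW x hx
    have : g = 1 := by simpa using this hg
    rw [this]; exact Len.one 0
  push Not at hW
  obtain ⟨h, hh, h1⟩ := hW
  have hfi := T.closure_finiteIndex hs hc hh h1
  have hGfg : Group.FG (F ⧸ N) := inferInstance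
  have hHfg : Group.FG (Subgroup.closure W) := Subgroup.fg_of_index_ne_zero _
  obtain ⟨xsG, hx1, hx2⟩ := exists_list hs ((Group.fg_iff_subgroup_fg _).1 hHfg)
  have hHn := closure_normal hc
  by_cases hab : ⁅Subgroup.closure W, Subgroup.closure W⁆ = ⊥
  · have : Finite (F ⧸ N) := by
      refine T.finite_of_abelian hc hh h1 fun x hx y hy => ?_
      have : ⁅x, y⁆ ∈ ⁅Subgroup.closure W, Subgroup.closure W⁆ :=
        Subgroup.commutator_mem_commutator hx hy
      rw [hab, Subgroup.mem_bot] at this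
      exact commutatorElement_eq_one_iff_mul_comm.1 this
    exact len_of_finite hs
  · set H' := ⁅Subgroup.closure W, Subgroup.closure W⁆ with hH'
    have hH'n : H'.Normal := inferInstance
    obtain ⟨x, hx, hx1'⟩ : ∃ x ∈ H', x ≠ 1 := by
      by_contra hcon
      push Not at hcon
      exact hab ((Subgroup.eq_bot_iff_forall _).2 hcon)
    have hfi' : H'.FiniteIndex := by
      have := T.closure_finiteIndex (W := (H' : Set (F ⧸ N))) (fun x hx => H'.inv_mem hx)
        (fun x hx g => hH'n.conj_mem x hx g) hx hx1'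
      rwa [Subgroup.closure_eq] at this
    -- lift the generators
    let xs : List F := xsG.map Quotient.out
    have hxs1 : ∀ x ∈ xs, (x : F ⧸ N) ∈ W := by
      intro x hx
      obtain ⟨y, hy, rfl⟩ := List.mem_map.1 hx
      have : ((Quotient.out y : F) : F ⧸ N) = y := Quotient.out_eq _
      rw [this]; exact hx1 y hy
    have hxs2 : (Subgroup.closure {x | x ∈ xs}).map (QuotientGroup.mk' N) = Subgroup.closure W := by
      rw [← hx2, MonoidHom.map_closure]
      congr 1
      ext y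
      constructor
      · rintro ⟨x, hx, rfl⟩
        obtain ⟨z, hz, rfl⟩ := List.mem_map.1 hx
        have : (QuotientGroup.mk' N) (Quotient.out z) = z := Quotient.out_eq _
        rw [this]; exact hz
      · intro hy
        exact ⟨Quotient.out y, List.mem_map.2 ⟨y, hy, rfl⟩, Quotient.out_eq _⟩
    obtain ⟨m', hm'⟩ := T.bounded_comm hs hc hh h1 xs hxs1 hxs2
    exact len_of_finiteIndex hs H' m' hm'

end Tower

theorem FiniteWidths.verballyElliptic {G : Type} [Group G] (hG : FiniteWidths G) :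
    VerballyElliptic G := by
  intro V
  let W : Set G := {x | (∃ w ∈ V, ∃ f : ℕ → G, FreeGroup.lift f w = x) ∨
    (∃ w ∈ V, ∃ f : ℕ → G, FreeGroup.lift f w = x⁻¹)}
  have hs : ∀ x ∈ W, x⁻¹ ∈ W := by
    rintro x (h | h)
    · right; simpa using h
    · left; exact h
  have hconj : ∀ (f : ℕ → G) (w : FreeGroup ℕ) (g : G),
      FreeGroup.lift (fun i => g * f i * g⁻¹) w = g * FreeGroup.lift f w * g⁻¹ := by
    intro f w g
    have : FreeGroup.lift (fun i => g * f i * g⁻¹)
        = (MulAut.conj g).toMonoidHom.comp (FreeGroup.lift f) := by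
      ext i; simp
    rw [this]; simp
  have hc : ∀ x ∈ W, ∀ g : G, g * x * g⁻¹ ∈ W := by
    rintro x (⟨w, hw, f, rfl⟩ | ⟨w, hw, f, hf⟩) g
    · exact Or.inl ⟨w, hw, fun i => g * f i * g⁻¹, hconj f w g⟩
    · refine Or.inr ⟨w, hw, fun i => g * f i * g⁻¹, ?_⟩
      rw [hconj, hf]; group
  obtain ⟨m, hm⟩ := hG W hs hc
  refine ⟨m, fun g hg => ?_⟩
  have hg' : g ∈ Subgroup.closure W := by
    refine Subgroup.closure_mono ?_ hg
    intro x hx
    exact Or.inl hx
  exact hm g hg'

theorem FiniteWidths.of_equiv {G H : Type} [Group G] [Group H] (e : G ≃* H)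
    (hG : FiniteWidths G) : FiniteWidths H := by
  intro W hs hc
  obtain ⟨m, hm⟩ := hG (e ⁻¹' W) (fun x hx => by
    have := hs _ hx
    rwa [← map_inv] at this) (fun x hx g => by
    have := hc _ hx (e g)
    rwa [← map_inv, ← map_mul, ← map_mul] at this)
  refine ⟨m, fun g hg => ?_⟩
  have h1 : e.symm g ∈ Subgroup.closure (e ⁻¹' W) := by
    have h2 : Subgroup.closure (e ⁻¹' W) = (Subgroup.closure W).comap e.toMonoidHom := by
      have h3 := MonoidHom.map_closure e.symm.toMonoidHom W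
      have h4 : (e.symm.toMonoidHom : H → G) '' W = e ⁻¹' W := by
        ext x
        constructor
        · rintro ⟨y, hy, rfl⟩
          simpa using hy
        · intro hx
          exact ⟨e x, hx, by simp⟩
      rw [h4] at h3
      rw [← h3]
      ext x
      constructor
      · rintro ⟨y, hy, rfl⟩
        simpa using hy
      · intro hx
        exact ⟨e x, hx, by simp⟩
    rw [h2]
    simpa using hg
  obtain ⟨l, h2, h3, h4⟩ := hm _ h1
  refine ⟨l.map e, by simpa using h2, ?_, ?_⟩
  · intro x hx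
    obtain ⟨y, hy, rfl⟩ := List.mem_map.1 hx
    exact h3 y hy
  · rw [← map_list_prod, h4]; simp

end Pool.Agent.VW
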