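import Pool.Agent.VW.Bounded

/-! Finite widths pass to groups containing the given one as a subgroup of finite index. -/

namespace Pool.Agent.VW

theorem Len.trans {G : Type*} [Group G] {W W' : Set G} {k : ℕ} (h : ∀ x ∈ W', Len W k x) {m : ℕ}
    {g : G} (hg : Len W' m g) : Len W (m * k) g := by
  obtain ⟨l, h1, h2, rfl⟩ := hg
  have : ∀ l : List G, (∀ x ∈ l, x ∈ W') → Len W (l.length * k) l.prod := by
    intro l
    induction l with
    | nil => intro _; simpa using Len.one 0
    | cons a l ih =>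
      intro hl
      have h3 := h a (hl a (by simp))
      have h4 := ih fun x hx => hl x (by simp [hx])
      have := h3.mul h4
      simpa [Nat.add_mul, add_comm] using this
  exact (this l h2).mono (Nat.mul_le_mul_right k h1)

/-- If a subgroup of finite index has finite widths then so has the group. -/
theorem FiniteWidths.of_finiteIndex {G : Type} [Group G] (H : Subgroup G) [H.FiniteIndex]
    (hH : FiniteWidths H) : FiniteWidths G := by
  classical
  intro W hs hc
  have hfin : Finite (G ⧸ H) := Subgroup.finite_quotient_of_finiteIndex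
  let q : G ⧸ H → G := fun c =>
    if h : ∃ g ∈ Subgroup.closure W, (g : G ⧸ H) = c then h.choose else 1
  have hq : ∀ c, q c ∈ Subgroup.closure W := by
    intro c
    by_cases h : ∃ g ∈ Subgroup.closure W, (g : G ⧸ H) = c
    · simp only [q, dif_pos h]
      exact h.choose_spec.1
    · simp only [q, dif_neg h]
      exact (Subgroup.closure W).one_mem
  obtain ⟨c, hcq⟩ := uniform_len hs q hq
  have hqH : ∀ g ∈ Subgroup.closure W, g * q ((g⁻¹ : G) : G ⧸ H) ∈ H := by
    intro g hg
    have h : ∃ g' ∈ Subgroup.closure W, (g' : G ⧸ H) = ((g⁻¹ : G) : G ⧸ H) :=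
      ⟨g⁻¹, Subgroup.inv_mem _ hg, rfl⟩
    have h1 : ((q ((g⁻¹ : G) : G ⧸ H) : G) : G ⧸ H) = ((g⁻¹ : G) : G ⧸ H) := by
      simp only [q, dif_pos h]
      exact h.choose_spec.2
    have h2 := QuotientGroup.eq.1 h1.symm
    simpa using h2
  let W' : Set H := {x | Len W (c + 1 + c) (x : G)}
  have hs' : ∀ x ∈ W', x⁻¹ ∈ W' := fun x hx => Len.inv hs hx
  have hc' : ∀ x ∈ W', ∀ g : H, g * x * g⁻¹ ∈ W' := fun x hx g => Len.conj hc hx g
  obtain ⟨m, hm⟩ := hH W' hs' hc'
  have key : ∀ g ∈ Subgroup.closure W, ∃ h ∈ Subgroup.closure W',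
      g * q ((g⁻¹ : G) : G ⧸ H) = (h : G) := by
    have step : ∀ x ∈ Subgroup.closure W, ∀ y, y ∈ W →
        (∃ h ∈ Subgroup.closure W', x * q ((x⁻¹ : G) : G ⧸ H) = (h : G)) →
        ∃ h ∈ Subgroup.closure W', x * y * q (((x * y)⁻¹ : G) : G ⧸ H) = (h : G) := by
      rintro x hx y hy ⟨h, hh, he⟩
      have hxy : x * y ∈ Subgroup.closure W :=
        Subgroup.mul_mem _ hx (Subgroup.subset_closure hy)
      have h1 := hqH _ hx
      have h2 := hqH _ hxy
      have h3 : (q ((x⁻¹ : G) : G ⧸ H))⁻¹ * y * q (((x * y)⁻¹ : G) : G ⧸ H) ∈ H := by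
        have := H.mul_mem (H.inv_mem h1) h2
        convert this using 1
        group
      refine ⟨h * ⟨_, h3⟩, Subgroup.mul_mem _ hh (Subgroup.subset_closure ?_), ?_⟩
      · exact (((hcq _).inv hs).mul (Len.of_mem hy)).mul (hcq _)
      · rw [Subgroup.coe_mul, ← he]
        group
    intro g hg
    induction hg using Subgroup.closure_induction_right with
    | one =>
      have h1 := hqH 1 (Subgroup.one_mem _)
      refine ⟨⟨_, h1⟩, Subgroup.subset_closure ?_, rfl⟩
      change Len W (c + 1 + c) (1 * q _)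
      rw [one_mul]
      exact (hcq _).mono (by omega)
    | mul_right x hx y hy ih => exact step x hx y hy ih
    | mul_inv_cancel x hx y hy ih => exact step x hx y⁻¹ (hs y hy) ih
  refine ⟨m * (c + 1 + c) + c, fun g hg => ?_⟩
  obtain ⟨h, hh, he⟩ := key g hg
  have h1 := hm h hh
  have h2 : Len (H.subtype '' W') m (h : G) := by
    obtain ⟨l, h3, h4, h5⟩ := h1
    refine ⟨l.map H.subtype, by simpa using h3, ?_, ?_⟩
    · intro x hx
      obtain ⟨y, hy, rfl⟩ := List.mem_map.1 hx
      exact ⟨y, h4 y hy, rfl⟩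
    · rw [← map_list_prod, h5]; rfl
  have h3 : Len W (m * (c + 1 + c)) (h : G) := by
    refine Len.trans ?_ h2
    rintro x ⟨y, hy, rfl⟩
    exact hy
  have h4 := h3.mul ((hcq ((g⁻¹ : G) : G ⧸ H)).inv hs)
  rw [← he] at h4
  simpa using h4

end Pool.Agent.VW
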