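import Pool.Agent.VW.Over

/-! Verbal width in split extensions by abelian groups. -/

namespace Pool.Agent.VW

open SemidirectProduct

/-- the values of the words of `V` and their inverses -/
def Vals (V : Set (FreeGroup ℕ)) (G : Type) [Group G] : Set G :=
  {x | (∃ w ∈ V, ∃ f : ℕ → G, FreeGroup.lift f w = x) ∨
    (∃ w ∈ V, ∃ f : ℕ → G, FreeGroup.lift f w = x⁻¹)}

namespace Vals

variable {V : Set (FreeGroup ℕ)} {G H : Type} [Group G] [Group H]

theorem inv_mem : ∀ x ∈ Vals V G, x⁻¹ ∈ Vals V G := by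
  rintro x (h | h)
  · right; simpa using h
  · left; exact h

theorem lift_comp (φ : G →* H) (f : ℕ → G) (w : FreeGroup ℕ) :
    FreeGroup.lift (fun i => φ (f i)) w = φ (FreeGroup.lift f w) := by
  have : FreeGroup.lift (fun i => φ (f i)) = φ.comp (FreeGroup.lift f) := by
    ext i; simp
  rw [this]; rfl

theorem map (φ : G →* H) {x : G} (hx : x ∈ Vals V G) : φ x ∈ Vals V H := by
  rcases hx with ⟨w, hw, f, rfl⟩ | ⟨w, hw, f, hf⟩
  · exact Or.inl ⟨w, hw, fun i => φ (f i), lift_comp φ f w⟩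
  · exact Or.inr ⟨w, hw, fun i => φ (f i), by rw [lift_comp, hf, map_inv]⟩

theorem lift (φ : G →* H) (hφ : Function.Surjective φ) {y : H} (hy : y ∈ Vals V H) :
    ∃ x ∈ Vals V G, φ x = y := by
  have key : ∀ (w : FreeGroup ℕ) (f : ℕ → H), ∃ f' : ℕ → G,
      φ (FreeGroup.lift f' w) = FreeGroup.lift f w := by
    intro w f
    choose f' hf' using fun i => hφ (f i)
    refine ⟨f', ?_⟩
    rw [← lift_comp]
    simp only [hf']
  rcases hy with ⟨w, hw, f, rfl⟩ | ⟨w, hw, f, hf⟩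
  · obtain ⟨f', hf'⟩ := key w f
    exact ⟨_, Or.inl ⟨w, hw, f', rfl⟩, hf'⟩
  · obtain ⟨f', hf'⟩ := key w f
    exact ⟨(FreeGroup.lift f' w)⁻¹, Or.inr ⟨w, hw, f', by simp⟩, by rw [map_inv, hf', hf, inv_inv]⟩

theorem conj_mem : ∀ x ∈ Vals V G, ∀ g : G, g * x * g⁻¹ ∈ Vals V G := fun x hx g => by
  have := map (MulAut.conj g).toMonoidHom hx
  simpa using this

theorem value_mem {w : FreeGroup ℕ} (hw : w ∈ V) (f : ℕ → G) : FreeGroup.lift f w ∈ Vals V G :=
  Or.inl ⟨w, hw, f, rfl⟩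

end Vals

theorem Len.map_hom {G H : Type*} [Group G] [Group H] {W : Set G} {W' : Set H} (φ : G →* H)
    (h : ∀ x ∈ W, φ x ∈ W') {m : ℕ} {g : G} (hg : Len W m g) : Len W' m (φ g) := by
  obtain ⟨l, h1, h2, rfl⟩ := hg
  refine ⟨l.map φ, by simpa using h1, ?_, by rw [map_list_prod]⟩
  intro x hx
  obtain ⟨y, hy, rfl⟩ := List.mem_map.1 hx
  exact h y (h2 y hy)

theorem Len.lift_hom {G H : Type*} [Group G] [Group H] {W : Set G} {W' : Set H} (φ : G →* H)
    (h : ∀ y ∈ W', ∃ x ∈ W, φ x = y) {m : ℕ} {g : H} (hg : Len W' m g) :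
    ∃ g', Len W m g' ∧ φ g' = g := by
  obtain ⟨l, h1, h2, rfl⟩ := hg
  choose! c hc1 hc2 using h
  refine ⟨(l.map c).prod, ⟨l.map c, by simpa using h1, ?_, rfl⟩, ?_⟩
  · intro x hx
    obtain ⟨y, hy, rfl⟩ := List.mem_map.1 hx
    exact hc1 y (h2 y hy)
  · rw [map_list_prod, List.map_map]
    congr 1
    calc List.map (φ ∘ c) l = List.map id l := List.map_congr_left fun y hy => hc2 y (h2 y hy)
      _ = l := List.map_id l

theorem verballyElliptic_of {G : Type} [Group G]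
    (h : ∀ V : Set (FreeGroup ℕ), ∃ m : ℕ, ∀ g ∈ Subgroup.closure (Vals V G), Len (Vals V G) m g) :
    VerballyElliptic G := by
  intro V
  obtain ⟨m, hm⟩ := h V
  refine ⟨m, fun g hg => hm g ?_⟩
  refine Subgroup.closure_mono ?_ hg
  intro x hx
  exact Or.inl hx

theorem VerballyElliptic.vals {G : Type} [Group G] (h : VerballyElliptic G)
    (V : Set (FreeGroup ℕ)) :
    ∃ m : ℕ, ∀ g ∈ Subgroup.closure (Vals V G), Len (Vals V G) m g := by
  obtain ⟨m, hm⟩ := h V
  refine ⟨m, fun g hg => hm g ?_⟩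
  refine (Subgroup.closure_le _).2 ?_ hg
  rintro x (hx | hx)
  · exact Subgroup.subset_closure hx
  · exact (Subgroup.inv_mem_iff _).1 (Subgroup.subset_closure hx)

section Split

variable {M G : Type} [CommGroup M] [Group G] (φ : G →* MulAut M) (V : Set (FreeGroup ℕ))

/-- a subgroup of `M` with elements of bounded length -/
def Bd (H : Subgroup M) : Prop := ∃ m : ℕ, ∀ u ∈ H, Len (Vals V (M ⋊[φ] G)) m (inl u)

variable {φ V}

theorem Bd.sup {H₁ H₂ : Subgroup M} (h₁ : Bd φ V H₁) (h₂ : Bd φ V H₂) : Bd φ V (H₁ ⊔ H₂) := by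
  obtain ⟨m₁, h₁⟩ := h₁
  obtain ⟨m₂, h₂⟩ := h₂
  refine ⟨m₁ + m₂, fun u hu => ?_⟩
  obtain ⟨x, hx, y, hy, rfl⟩ := Subgroup.mem_sup.1 hu
  rw [map_mul]
  exact (h₁ x hx).mul (h₂ y hy)

theorem Bd.mono {H₁ H₂ : Subgroup M} (h : H₁ ≤ H₂) (h₂ : Bd φ V H₂) : Bd φ V H₁ := by
  obtain ⟨m, hm⟩ := h₂
  exact ⟨m, fun u hu => hm u (h hu)⟩

theorem Bd.bot : Bd φ V (⊥ : Subgroup M) :=
  ⟨0, fun u hu => by rw [Subgroup.mem_bot] at hu; rw [hu, map_one]; exact Len.one 0⟩

theorem Bd.list {ι : Type} (l : List ι) (H : ι → Subgroup M) (h : ∀ i ∈ l, Bd φ V (H i)) :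
    Bd φ V (l.foldr (fun i K => H i ⊔ K) ⊥) := by
  induction l with
  | nil => exact Bd.bot
  | cons a l ih =>
    exact (h a (by simp)).sup (ih fun i hi => h i (by simp [hi]))

theorem le_foldr {ι : Type} (l : List ι) (H : ι → Subgroup M) (i : ι) (hi : i ∈ l) :
    H i ≤ l.foldr (fun i K => H i ⊔ K) ⊥ := by
  induction l with
  | nil => simp at hi
  | cons a l ih =>
    rcases List.mem_cons.1 hi with rfl | hi
    · exact le_sup_left
    · exact le_trans (ih hi) le_sup_right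

variable (φ V)

/-- `m ↦ m (h m)⁻¹` -/
def Tm (h : G) : M →* M where
  toFun m := m * (φ h m)⁻¹
  map_one' := by simp
  map_mul' a b := by
    rw [map_mul, mul_inv]
    exact mul_mul_mul_comm _ _ _ _

/-- the subgroup `[M, N]`, `N` the verbal subgroup of `G` -/
def MN : Subgroup M := ⨆ h : Subgroup.closure (Vals V G), (Tm φ (h : G)).range

theorem bd_Tm {mG : ℕ} (hG : ∀ g ∈ Subgroup.closure (Vals V G), Len (Vals V G) mG g) (h : G)
    (hh : h ∈ Subgroup.closure (Vals V G)) : Bd φ V (Tm φ h).range := by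
  refine ⟨mG + mG, ?_⟩
  rintro _ ⟨m, rfl⟩
  have h1 : Len (Vals V (M ⋊[φ] G)) mG (inr h) :=
    (hG h hh).map_hom inr fun x hx => Vals.map inr hx
  have h2 := (h1.conj Vals.conj_mem (inl m)).mul (h1.inv Vals.inv_mem)
  have h3 : (inl m * inr h * (inl m)⁻¹ * (inr h)⁻¹ : M ⋊[φ] G) = inl (Tm φ h m) := by
    change _ = inl (m * (φ h m)⁻¹)
    rw [map_mul, map_inv, inl_aut, map_inv (inr : G →* M ⋊[φ] G)]
    group
  rwa [h3] at h2

theorem bd_MN {mG : ℕ} (hG : ∀ g ∈ Subgroup.closure (Vals V G), Len (Vals V G) mG g)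
    (hfg : (Subgroup.closure (Vals V G)).FG) : Bd φ V (MN φ V) := by
  obtain ⟨hs, hhs⟩ := hfg
  have hmem : ∀ h ∈ hs, h ∈ Subgroup.closure (Vals V G) := fun h hh => by
    rw [← hhs]; exact Subgroup.subset_closure hh
  refine Bd.mono ?_ (Bd.list hs.toList (fun h => (Tm φ h).range)
    fun h hh => bd_Tm φ V hG h (hmem h (Finset.mem_toList.1 hh)))
  set J := hs.toList.foldr (fun h K => (Tm φ h).range ⊔ K) ⊥ with hJ
  let S : Subgroup G :=
    { carrier := {h | ∀ m, m * (φ h m)⁻¹ ∈ J}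
      one_mem' := fun m => by simp
      mul_mem' := fun {g h} hg hh m => by
        have := J.mul_mem (hh m) (hg (φ h m))
        rw [map_mul, MulAut.mul_apply]
        convert this using 1
        group
      inv_mem' := fun {h} hh m => by
        have := J.inv_mem (hh (φ h⁻¹ m))
        have h2 : φ h (φ h⁻¹ m) = m := by
          rw [← MulAut.mul_apply, ← map_mul, mul_inv_cancel, map_one, MulAut.one_apply]
        rw [h2] at this
        convert this using 1
        rw [mul_inv, inv_inv, mul_comm] }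
  have hS : Subgroup.closure (Vals V G) ≤ S := by
    rw [← hhs, Subgroup.closure_le]
    intro h hh m
    exact le_foldr hs.toList (fun h => (Tm φ h).range) h (Finset.mem_toList.2 hh) ⟨m, rfl⟩
  refine iSup_le fun h => ?_
  rintro _ ⟨m, rfl⟩
  exact hS h.2 m

/-- the coordinate in `M` of a value of a word -/
def DD (w : FreeGroup ℕ) (g : ℕ → G) (m : ℕ → M) : M :=
  (FreeGroup.lift (fun i => (⟨m i, g i⟩ : M ⋊[φ] G)) w).left

theorem right_val (w : FreeGroup ℕ) (g : ℕ → G) (m : ℕ → M) :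
    (FreeGroup.lift (fun i => (⟨m i, g i⟩ : M ⋊[φ] G)) w).right = FreeGroup.lift g w :=
  (Vals.lift_comp (rightHom (φ := φ)) (fun i => (⟨m i, g i⟩ : M ⋊[φ] G)) w).symm

theorem DD_mul (w : FreeGroup ℕ) (g : ℕ → G) (m m' : ℕ → M) :
    DD φ w g (fun i => m i * m' i) = DD φ w g m * DD φ w g m' := by
  induction w using FreeGroup.induction_on with
  | C1 => simp [DD]
  | of i => simp [DD]
  | inv_of i _ =>
    simp only [DD, map_inv, FreeGroup.lift_apply_of]
    simp only [inv_left]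
    rw [mul_inv, map_mul]
  | mul x y hx hy =>
    unfold DD at hx hy ⊢
    simp only [map_mul, mul_left] at hx hy ⊢
    rw [hx, hy, right_val, right_val, right_val, map_mul]
    exact mul_mul_mul_comm _ _ _ _

/-- the coordinate is a homomorphism -/
def DDhom (w : FreeGroup ℕ) (g : ℕ → G) : (ℕ → M) →* M where
  toFun := DD φ w g
  map_one' := by
    have := DD_mul φ w g 1 1
    have h1 : (fun i => (1 : ℕ → M) i * (1 : ℕ → M) i) = 1 := by ext i; simp
    rw [h1] at this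
    exact mul_eq_left.1 this.symm
  map_mul' m m' := DD_mul φ w g m m'

theorem bd_DD (w : FreeGroup ℕ) (hw : w ∈ V) (g : ℕ → G) : Bd φ V (DDhom φ w g).range := by
  refine ⟨1 + 1, ?_⟩
  rintro _ ⟨m, rfl⟩
  have h1 : Len (Vals V (M ⋊[φ] G)) 1 (FreeGroup.lift (fun i => (⟨m i, g i⟩ : M ⋊[φ] G)) w) :=
    Len.of_mem (Vals.value_mem hw _)
  have h2 : Len (Vals V (M ⋊[φ] G)) 1 (inr (FreeGroup.lift g w))⁻¹ :=
    (Len.of_mem (Vals.map inr (Vals.value_mem hw g))).inv Vals.inv_mem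
  have h3 := h1.mul h2
  have h4 : FreeGroup.lift (fun i => (⟨m i, g i⟩ : M ⋊[φ] G)) w * (inr (FreeGroup.lift g w))⁻¹
      = inl (DDhom φ w g m) := by
    rw [mul_inv_eq_iff_eq_mul]
    ext
    · change DD φ w g m = _
      simp [DDhom]
    · rw [right_val]; simp
  rwa [h4] at h3

theorem DD_conj (w : FreeGroup ℕ) (g : ℕ → G) (m : ℕ → M) (a : G) :
    φ a (DD φ w g m) = DD φ w (fun i => a * g i * a⁻¹) (fun i => φ a (m i)) := by
  have h1 := Vals.lift_comp (MulAut.conj (inr a : M ⋊[φ] G)).toMonoidHom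
    (fun i => (⟨m i, g i⟩ : M ⋊[φ] G)) w
  have h2 : (fun i => (MulAut.conj (inr a : M ⋊[φ] G)).toMonoidHom (⟨m i, g i⟩ : M ⋊[φ] G))
      = fun i => (⟨φ a (m i), a * g i * a⁻¹⟩ : M ⋊[φ] G) := by
    funext i
    ext <;> simp
  rw [h2] at h1
  unfold DD
  rw [h1]
  simp

/-- all coordinates -/
def DS : Set M := {d | ∃ w ∈ V, ∃ (g : ℕ → G) (m : ℕ → M), DD φ w g m = d}

theorem DS_inv : ∀ x ∈ DS φ V, x⁻¹ ∈ DS φ V := by
  rintro _ ⟨w, hw, g, m, rfl⟩
  exact ⟨w, hw, g, m⁻¹, (map_inv (DDhom φ w g) m)⟩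

theorem DS_aut (a : G) : ∀ x ∈ DS φ V, φ a x ∈ DS φ V := by
  rintro _ ⟨w, hw, g, m, rfl⟩
  exact ⟨w, hw, _, _, (DD_conj φ w g m a).symm⟩

theorem cl_aut (a : G) (x : M) (hx : x ∈ Subgroup.closure (DS φ V)) :
    φ a x ∈ Subgroup.closure (DS φ V) := by
  induction hx using Subgroup.closure_induction with
  | mem x hx => exact Subgroup.subset_closure (DS_aut φ V a x hx)
  | one => rw [map_one]; exact Subgroup.one_mem _
  | mul x y _ _ hx hy => rw [map_mul]; exact Subgroup.mul_mem _ hx hy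
  | inv x _ hx => rw [map_inv]; exact Subgroup.inv_mem _ hx

theorem closure_vals_split (e : M ⋊[φ] G) (he : e ∈ Subgroup.closure (Vals V (M ⋊[φ] G))) :
    e.left ∈ Subgroup.closure (DS φ V) ∧ e.right ∈ Subgroup.closure (Vals V G) := by
  let Λ : Subgroup (M ⋊[φ] G) :=
    { carrier := {e | e.left ∈ Subgroup.closure (DS φ V) ∧ e.right ∈ Subgroup.closure (Vals V G)}
      one_mem' := ⟨Subgroup.one_mem _, Subgroup.one_mem _⟩
      mul_mem' := fun {a b} ha hb => ⟨Subgroup.mul_mem _ ha.1 (cl_aut φ V _ _ hb.1),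
        Subgroup.mul_mem _ ha.2 hb.2⟩
      inv_mem' := fun {a} ha => ⟨cl_aut φ V _ _ (Subgroup.inv_mem _ ha.1),
        Subgroup.inv_mem _ ha.2⟩ }
  have h0 : ∀ w ∈ V, ∀ f : ℕ → M ⋊[φ] G, FreeGroup.lift f w ∈ Λ := by
    intro w hw f
    constructor
    · exact Subgroup.subset_closure ⟨w, hw, fun i => (f i).right, fun i => (f i).left, rfl⟩
    · have := right_val φ w (fun i => (f i).right) (fun i => (f i).left)
      change (FreeGroup.lift f w).right = _ at this
      rw [this]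
      exact Subgroup.subset_closure (Vals.value_mem hw _)
  have h1 : Subgroup.closure (Vals V (M ⋊[φ] G)) ≤ Λ := by
    rw [Subgroup.closure_le]
    rintro x (⟨w, hw, f, rfl⟩ | ⟨w, hw, f, hf⟩)
    · exact h0 w hw f
    · have := h0 w hw f
      rw [hf] at this
      exact (Subgroup.inv_mem_iff _).1 this
  exact h1 he

end Split

/-- subgroups of finitely generated commutative groups are finitely generated -/
theorem fg_of_comm {Q : Type} [CommGroup Q] (hQ : Group.FG Q) (H : Subgroup Q) : H.FG := by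
  have h1 : AddGroup.FG (Additive Q) := inferInstance
  have h2 : Module.Finite ℤ (Additive Q) := Module.Finite.iff_addGroup_fg.2 h1
  have h3 : IsNoetherian ℤ (Additive Q) := inferInstance
  have h4 : (AddSubgroup.toIntSubmodule H.toAddSubgroup).FG := IsNoetherian.noetherian _
  have h5 : H.toAddSubgroup.FG := by
    rw [Submodule.fg_iff_addSubgroup_fg] at h4
    simpa using h4
  exact (Subgroup.fg_iff_add_fg _).2 h5

/-- **Split extensions by abelian groups.** -/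
theorem split_abelian {M G : Type} [CommGroup M] [Group G] (φ : G →* MulAut M)
    (V : Set (FreeGroup ℕ)) {mG : ℕ}
    (hG : ∀ g ∈ Subgroup.closure (Vals V G), Len (Vals V G) mG g)
    (hfg : (Subgroup.closure (Vals V G)).FG) (hM : Group.FG (M ⧸ MN φ V)) :
    ∃ m, ∀ e ∈ Subgroup.closure (Vals V (M ⋊[φ] G)), Len (Vals V (M ⋊[φ] G)) m e := by
  classical
  obtain ⟨xs, hx1, hx2⟩ := exists_list (W := (QuotientGroup.mk' (MN φ V)) '' DS φ V)
    (by
      rintro _ ⟨x, hx, rfl⟩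
      exact ⟨x⁻¹, DS_inv φ V x hx, map_inv _ _⟩) (fg_of_comm hM _)
  -- choose preimages
  have hx1' : ∀ x ∈ xs, ∃ w ∈ V, ∃ (g : ℕ → G) (m : ℕ → M), ((DD φ w g m : M) : M ⧸ MN φ V) = x := by
    intro x hx
    obtain ⟨_, ⟨w, hw, g, m, rfl⟩, rfl⟩ := hx1 x hx
    exact ⟨w, hw, g, m, rfl⟩
  choose! w hw g m hm using hx1'
  let J : Subgroup M := xs.foldr (fun x K => (DDhom φ (w x) (g x)).range ⊔ K) ⊥
  have hJ : Bd φ V J := Bd.list xs (fun x => (DDhom φ (w x) (g x)).range)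
    fun x hx => bd_DD φ V (w x) (hw x hx) (g x)
  have hL : Subgroup.closure (DS φ V) ≤ J ⊔ MN φ V := by
    intro u hu
    have h1 : (QuotientGroup.mk' (MN φ V)) u ∈
        Subgroup.closure ((QuotientGroup.mk' (MN φ V)) '' DS φ V) := by
      rw [← MonoidHom.map_closure]
      exact ⟨u, hu, rfl⟩
    rw [← hx2] at h1
    have h2 : Subgroup.closure {x | x ∈ xs} ≤ J.map (QuotientGroup.mk' (MN φ V)) := by
      rw [Subgroup.closure_le]
      intro x hx
      refine ⟨DD φ (w x) (g x) (m x), ?_, hm x hx⟩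
      exact le_foldr xs (fun x => (DDhom φ (w x) (g x)).range) x hx ⟨m x, rfl⟩
    obtain ⟨j, hj, hju⟩ := h2 h1
    have h3 : j⁻¹ * u ∈ MN φ V := QuotientGroup.eq.1 hju
    have : u = j * (j⁻¹ * u) := by group
    rw [this]
    exact Subgroup.mul_mem_sup hj h3
  obtain ⟨mL, hmL⟩ := Bd.mono hL (hJ.sup (bd_MN φ V hG hfg))
  refine ⟨mL + mG, fun e he => ?_⟩
  obtain ⟨h1, h2⟩ := closure_vals_split φ V e he
  rw [← inl_left_mul_inr_right e]
  exact (hmL _ h1).mul ((hG _ h2).map_hom inr fun x hx => Vals.map inr hx)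

end Pool.Agent.VW
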