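import Pool.Agent.VW.Tower

/-! The approximation step: elements of the commutator subgroup of `H`. -/

namespace Pool.Agent.VW

set_option linter.unusedSectionVars false

open Subgroup hiding lowerCentralSeries
open scoped commutatorElement

/-- all sections have length at most `m` -/
def AllLen {A Y : Type} [Group A] (U : Set A) (m : ℕ) (g : Wr A Y) : Prop := ∀ y, Len U m (g.sec y)

namespace AllLen

variable {A Y : Type} [Group A] {U : Set A}

theorem one (m : ℕ) : AllLen U m (1 : Wr A Y) := fun _ => Len.one m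

theorem mul {m n : ℕ} {g h : Wr A Y} (hg : AllLen U m g) (hh : AllLen U n h) :
    AllLen U (m + n) (g * h) := fun _ => (hg _).mul (hh _)

theorem inv (hs : ∀ x ∈ U, x⁻¹ ∈ U) {m : ℕ} {g : Wr A Y} (hg : AllLen U m g) :
    AllLen U m g⁻¹ := fun _ => (hg _).inv hs

end AllLen

namespace Tower

variable {p : ℕ} {F : Type} [Group F] {N : Subgroup F} [N.Normal] (T : Tower p F N)

/-- adjusting one element -/
theorem adjust_one {n : ℕ} (hn : n ∈ T.I) (t : F → F) (ht : ∀ f, (t f)⁻¹ * f ∈ T.D) (y : F) :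
    ∃ (y₀ : F), Wr.map (QuotientGroup.mk' (T.M n)) (⟨(T.Ψ n y).perm, fun v => t ((T.Ψ n y).sec v)⟩ : Wr F (T.Y n))
      = Wr.map (QuotientGroup.mk' (T.M n)) (T.Ψ n y₀) := by
  have h1 : ∀ v, ∃ a ∈ ⁅T.K, T.K⁆, ∃ r ∈ T.R,
      (t ((T.Ψ n y).sec v))⁻¹ * (T.Ψ n y).sec v = a * r := by
    intro v
    have := ht ((T.Ψ n y).sec v)
    unfold D at this
    obtain ⟨a, ha, r, hr, h⟩ := Subgroup.mem_sup_of_normal_right.1 this
    exact ⟨a, ha, r, hr, h.symm⟩
  choose a ha r hr har using h1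
  have hK : ⁅T.K, T.K⁆ ≤ T.K := Subgroup.commutator_le_right T.K T.K
  obtain ⟨e, he1, he2⟩ := T.branch n hn (fun v => (a v)⁻¹)
    (fun v => T.K.inv_mem (hK (ha v)))
  refine ⟨y * e, ?_⟩
  apply Wr.ext
  · simp [he1]
  · funext v
    have hrM : r v ∈ T.M n := T.R_le n hn (hr v)
    have h3 : (((T.Ψ n e).sec v : F) : F ⧸ T.M n) = (((a v)⁻¹ : F) : F ⧸ T.M n) :=
      (QuotientGroup.eq.2 (he2 v)).symm
    simp only [Wr.map_sec, map_mul, Wr.mul_sec, Wr.map_perm, he1, Equiv.Perm.one_apply]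
    have h4 : (QuotientGroup.mk' (T.M n)) ((T.Ψ n e).sec v) = ((QuotientGroup.mk' (T.M n)) (a v))⁻¹ := h3
    rw [h4]
    have h5 : (T.Ψ n y).sec v = t ((T.Ψ n y).sec v) * (a v * r v) := by
      rw [← har v]; group
    have h6 : (QuotientGroup.mk' (T.M n)) (r v) = 1 := (QuotientGroup.eq_one_iff _).2 hrM
    conv_rhs => rw [h5]
    rw [map_mul, map_mul, h6]
    group

/-- adjusting a product of commutators -/
theorem adjust {n : ℕ} (hn : n ∈ T.I) {U : Set F} (hUs : ∀ x ∈ U, x⁻¹ ∈ U) (t : F → F)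
    (ht : ∀ f, (t f)⁻¹ * f ∈ T.D) (htU : ∀ f, t f ∈ U) {W : Set (F ⧸ N)}
    (hs : ∀ x ∈ W, x⁻¹ ∈ W) (hc : ∀ x ∈ W, ∀ g, g * x * g⁻¹ ∈ W) :
    ∀ (xs : List F) (k : F), PC xs k → (∀ x ∈ xs, (x : F ⧸ N) ∈ W) →
      (∀ x ∈ xs, ∀ y, (T.Ψ n x).sec y ∈ U) →
      ∃ (u : Wr F (T.Y n)) (k₀ : F),
        Wr.map (QuotientGroup.mk' T.D) u = Wr.map (QuotientGroup.mk' T.D) (T.Ψ n k) ∧
        Wr.map (QuotientGroup.mk' (T.M n)) u = Wr.map (QuotientGroup.mk' (T.M n)) (T.Ψ n k₀) ∧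
        AllLen U (4 * xs.length) u ∧ Len W (2 * xs.length) (k₀ : F ⧸ N)
  | [], k, hk, _, _ => by
      simp only [PC] at hk
      exact ⟨1, 1, by simp [hk], by simp, AllLen.one _, by simpa using Len.one _⟩
  | x :: xs, k, hk, hW, hx => by
      obtain ⟨y, k', rfl, hk'⟩ := hk
      obtain ⟨u₁, k₁, h1, h2, h3, h4⟩ := adjust hn hUs t ht htU hs hc xs k' hk'
        (fun z hz => hW z (by simp [hz])) (fun z hz => hx z (by simp [hz]))
      obtain ⟨y₀, hy₀⟩ := T.adjust_one hn t ht y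
      set ŷ : Wr F (T.Y n) := ⟨(T.Ψ n y).perm, fun v => t ((T.Ψ n y).sec v)⟩ with hŷ
      have hyD : Wr.map (QuotientGroup.mk' T.D) ŷ = Wr.map (QuotientGroup.mk' T.D) (T.Ψ n y) := by
        apply Wr.ext
        · rfl
        · funext v
          exact QuotientGroup.eq.2 (ht _)
      have hŷU : AllLen U 1 ŷ := fun v => Len.of_mem (htU _)
      have hxU : AllLen U 1 (T.Ψ n x) := fun v => Len.of_mem (hx x (by simp) v)
      refine ⟨⁅ŷ, T.Ψ n x⁆ * u₁, ⁅y₀, x⁆ * k₁, ?_, ?_, ?_, ?_⟩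
      · rw [map_mul, map_commutatorElement, hyD, h1, map_mul, map_mul, map_commutatorElement,
          map_commutatorElement]
      · rw [map_mul, map_commutatorElement, hy₀, h2, map_mul, map_mul, map_commutatorElement,
          map_commutatorElement]
      · have h5 : AllLen U (1 + 1 + 1 + 1) ⁅ŷ, T.Ψ n x⁆ := by
          rw [commutatorElement_def]
          exact ((hŷU.mul hxU).mul (hŷU.inv hUs)).mul (hxU.inv hUs)
        have := h5.mul h3
        intro v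
        exact (this v).mono (by simp only [List.length_cons]; omega)
      · have h5 : Len W 2 ((⁅y₀, x⁆ : F) : F ⧸ N) := by
          have : ((⁅y₀, x⁆ : F) : F ⧸ N) = ⁅(y₀ : F ⧸ N), (x : F ⧸ N)⁆ := by
            simp [commutatorElement_def]
          rw [this]
          exact Len.comm hs hc _ (hW x (by simp))
        have h6 : (((⁅y₀, x⁆ * k₁ : F)) : F ⧸ N) = ((⁅y₀, x⁆ : F) : F ⧸ N) * (k₁ : F ⧸ N) := rfl
        rw [h6]
        exact (h5.mul h4).mono (by simp only [List.length_cons]; omega)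

/-- the closure step -/
theorem approx [Fact p.Prime] (n : ℕ) (xs : List F) (k : F)
    (hk : k ∈ ⁅Subgroup.closure {x | x ∈ xs}, Subgroup.closure {x | x ∈ xs}⁆) :
    ∃ k₀, PC xs k₀ ∧ Wr.map (QuotientGroup.mk' T.D) (T.Ψ n (k₀⁻¹ * k)) = 1 := by
  set H := Subgroup.closure {x | x ∈ xs} with hH
  let φ : F →* Wr (F ⧸ T.D) (T.Y n) := (Wr.map (QuotientGroup.mk' T.D)).comp (T.Ψ n)
  have hfin : Finite (F ⧸ T.D) := Subgroup.finite_quotient_of_finiteIndex
  have hker : φ.ker.FiniteIndex := Subgroup.finiteIndex_ker φ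
  let A : Subgroup H := φ.ker.subgroupOf H
  have hA : A.Normal := inferInstance
  have hAf : A.FiniteIndex := Subgroup.instFiniteIndex_subgroupOf _ _
  have hQf : Finite (H ⧸ A) := Subgroup.finite_quotient_of_finiteIndex
  have hpow : ∀ f : F, ∃ k : ℕ, f ^ p ^ k ∈ φ.ker := by
    -- exponent of the finite quotient
    have hpD : IsPGroup p (F ⧸ T.D) := by
      intro x
      induction x using QuotientGroup.induction_on with
      | H f =>
        obtain ⟨k, hk⟩ := T.D_p f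
        exact ⟨k, (QuotientGroup.eq_one_iff _).2 hk⟩
    obtain ⟨l, hl⟩ := hpD.exists_card_eq
    intro f
    obtain ⟨k, hk⟩ := T.act_p n f
    refine ⟨k + l, ?_⟩
    have h1 : (T.Ψ n (f ^ p ^ k)).perm = 1 := by rw [map_pow, Wr.pow_perm, hk]
    rw [pow_add, pow_mul]
    set g := f ^ p ^ k with hg
    change φ (g ^ p ^ l) = 1
    rw [map_pow]
    have h2 : (φ g).perm = 1 := h1
    apply Wr.ext
    · rw [Wr.pow_perm, h2, one_pow]; rfl
    · funext y
      rw [Wr.pow_sec_of_perm _ h2, ← hl]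
      exact pow_card_eq_one'
  have hPG : IsPGroup p (H ⧸ A) := by
    intro x
    induction x using QuotientGroup.induction_on with
    | H f =>
      obtain ⟨k, hk⟩ := hpow (f : F)
      refine ⟨k, ?_⟩
      have : f ^ p ^ k ∈ A := by
        rw [Subgroup.mem_subgroupOf]; simpa using hk
      exact (QuotientGroup.eq_one_iff _).2 this
  have hnil : Group.IsNilpotent (H ⧸ A) := hPG.isNilpotent
  let xsP : List H := xs.attach.map fun x => ⟨x.1, Subgroup.subset_closure x.2⟩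
  have hmap : xsP.map H.subtype = xs := by
    simp only [xsP, List.map_map]
    conv_rhs => rw [← List.attach_map_subtype_val xs]
    rfl
  have hgen : Subgroup.closure {x | x ∈ xsP} = ⊤ := by
    have e : {x : H | x ∈ xsP} = ((↑) : H → F) ⁻¹' {x | x ∈ xs} := by
      ext x
      constructor
      · intro hx
        have : H.subtype x ∈ xsP.map H.subtype := List.mem_map_of_mem hx
        rw [hmap] at this
        exact this
      · intro hx
        have hx' : (x : F) ∈ xsP.map H.subtype := by rw [hmap]; exact hx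
        obtain ⟨z, hz, hzx⟩ := List.mem_map.1 hx'
        have : z = x := Subtype.ext hzx
        rw [← this]; exact hz
    rw [e]
    exact Subgroup.closure_closure_coe_preimage
  obtain ⟨kP, hkP, hkk⟩ : ∃ kP ∈ ⁅(⊤ : Subgroup H), (⊤ : Subgroup H)⁆, H.subtype kP = k := by
    have : (⁅(⊤ : Subgroup H), (⊤ : Subgroup H)⁆).map H.subtype = ⁅H, H⁆ := by
      rw [Subgroup.map_commutator, ← MonoidHom.range_eq_map, Subgroup.range_subtype]
    rw [← this] at hk
    exact hk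
  obtain ⟨k₀, h1, h2⟩ := nilp_PC_mod A xsP hgen kP hkP
  refine ⟨H.subtype k₀, ?_, ?_⟩
  · have := h1.map H.subtype
    rwa [hmap] at this
  · rw [Subgroup.mem_subgroupOf] at h2
    rw [← hkk]
    exact h2

/-- bound at one good level -/
theorem level_bound [Fact p.Prime] {n : ℕ} (hn : n ∈ T.I) {U : Set F} (hUs : ∀ x ∈ U, x⁻¹ ∈ U)
    (t : F → F) (ht : ∀ f, (t f)⁻¹ * f ∈ T.D) (htU : ∀ f, t f ∈ U) {W : Set (F ⧸ N)}
    (hs : ∀ x ∈ W, x⁻¹ ∈ W) (hc : ∀ x ∈ W, ∀ g, g * x * g⁻¹ ∈ W)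
    (xs : List F) (hW : ∀ x ∈ xs, (x : F ⧸ N) ∈ W)
    {Z : Type} [Fintype Z] [DecidableEq Z] (π : T.Y n → Z)
    (hd : ∀ z : Z, ∃ h ∈ W, ∀ y, π y = z → π ((T.Θ n h).perm y) ≠ z)
    (c₀ : ℕ) (hc₀ : ∀ u ∈ T.D, Len U (4 * xs.length + 1) u → CL (T.KA n) c₀ (u : F ⧸ T.M n))
    (k : F) (hk : k ∈ ⁅Subgroup.closure {x | x ∈ xs}, Subgroup.closure {x | x ∈ xs}⁆)
    (hx : ∀ x ∈ xs, ∀ y, (T.Ψ n x).sec y ∈ U) (hkU : ∀ y, (T.Ψ n k).sec y ∈ U) :
    Len W (2 * xs.length + 4 * Fintype.card Z * c₀) (k : F ⧸ N) := by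
  obtain ⟨k₁, hk₁, hk₁'⟩ := T.approx n xs k hk
  obtain ⟨u, k₀, h1, h2, h3, h4⟩ := T.adjust hn hUs t ht htU hs hc xs k₁ hk₁ hW hx
  set v : Wr F (T.Y n) := u⁻¹ * T.Ψ n k with hv
  have hvD : Wr.map (QuotientGroup.mk' T.D) v = 1 := by
    rw [hv, map_mul, map_inv, h1, ← hk₁', map_mul, map_inv, map_mul, map_inv]
  have hvM : Wr.map (QuotientGroup.mk' (T.M n)) v = Wr.map (QuotientGroup.mk' (T.M n)) (T.Ψ n (k₀⁻¹ * k)) := by
    rw [hv, map_mul, map_inv, h2, map_mul, map_inv, map_mul, map_inv]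
  have hvU : AllLen U (4 * xs.length + 1) v :=
    (h3.inv hUs).mul (fun y => Len.of_mem (hkU y))
  have hvp : v.perm = 1 := congrArg Wr.perm hvD
  have hvs : ∀ y, v.sec y ∈ T.D := fun y =>
    (QuotientGroup.eq_one_iff _).1 (congrFun (congrArg Wr.sec hvD) y)
  have hΘ : T.Θ n ((k₀⁻¹ * k : F) : F ⧸ N) = base (fun y => ((v.sec y : F) : F ⧸ T.M n)) := by
    rw [T.Θ_mk, ← hvM]
    apply Wr.ext
    · exact hvp
    · rfl
  have h5 := CL_len (T.Θ n) (T.Θ_inj n) (T.KA n) (T.hb hn) π hs hc hd c₀ _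
    (fun y => hc₀ _ (hvs y) (hvU y)) _ hΘ
  have h6 : (k : F ⧸ N) = (k₀ : F ⧸ N) * ((k₀⁻¹ * k : F) : F ⧸ N) := by
    rw [← QuotientGroup.mk_mul]; group
  rw [h6]
  exact h4.mul h5

end Tower

end Pool.Agent.VW
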