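import Mathlib

/-! Permutational wreath products `Wr A Y = A^Y ⋊ Perm Y`, written with sections. -/

namespace Pool.Agent.VW

/-- An element of the permutational wreath product of `A` with the symmetric group of `Y`:
a permutation of `Y` together with a section in `A` at every point of `Y`. -/
@[ext]
structure Wr (A : Type*) (Y : Type*) where
  /-- the permutation -/
  perm : Equiv.Perm Y
  /-- the sections -/
  sec : Y → A

namespace Wr

variable {A B : Type*} {Y : Type*} [Group A] [Group B]

instance : Mul (Wr A Y) := ⟨fun g h => ⟨g.perm * h.perm, fun y => g.sec (h.perm y) * h.sec y⟩⟩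
instance : One (Wr A Y) := ⟨⟨1, fun _ => 1⟩⟩
instance : Inv (Wr A Y) := ⟨fun g => ⟨g.perm⁻¹, fun y => (g.sec (g.perm⁻¹ y))⁻¹⟩⟩

@[simp] theorem mul_perm (g h : Wr A Y) : (g * h).perm = g.perm * h.perm := rfl
@[simp] theorem mul_sec (g h : Wr A Y) (y : Y) :
    (g * h).sec y = g.sec (h.perm y) * h.sec y := rfl
@[simp] theorem one_perm : (1 : Wr A Y).perm = 1 := rfl
@[simp] theorem one_sec (y : Y) : (1 : Wr A Y).sec y = 1 := rfl
@[simp] theorem inv_perm (g : Wr A Y) : g⁻¹.perm = g.perm⁻¹ := rfl
@[simp] theorem inv_sec (g : Wr A Y) (y : Y) : g⁻¹.sec y = (g.sec (g.perm⁻¹ y))⁻¹ := rfl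

instance : Group (Wr A Y) where
  mul_assoc a b c := by
    apply Wr.ext
    · simp [mul_assoc]
    · funext y; simp [mul_assoc]
  one_mul a := by
    apply Wr.ext
    · simp
    · funext y; simp
  mul_one a := by
    apply Wr.ext
    · simp
    · funext y; simp
  inv_mul_cancel a := by
    apply Wr.ext
    · simp
    · funext y; simp

/-- The projection to the permutation. -/
def permHom : Wr A Y →* Equiv.Perm Y where
  toFun g := g.perm
  map_one' := rfl
  map_mul' _ _ := rfl

@[simp] theorem permHom_apply (g : Wr A Y) : permHom g = g.perm := rfl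

@[simp] theorem pow_perm (g : Wr A Y) (n : ℕ) : (g ^ n).perm = g.perm ^ n := by
  have := map_pow (permHom : Wr A Y →* _) g n
  simpa using this

/-- Functoriality in the coefficient group. -/
def map (φ : A →* B) : Wr A Y →* Wr B Y where
  toFun g := ⟨g.perm, fun y => φ (g.sec y)⟩
  map_one' := by
    apply Wr.ext
    · rfl
    · funext y; simp
  map_mul' g h := by
    apply Wr.ext
    · rfl
    · funext y; simp

@[simp] theorem map_perm (φ : A →* B) (g : Wr A Y) : (map φ g).perm = g.perm := rfl
@[simp] theorem map_sec (φ : A →* B) (g : Wr A Y) (y : Y) : (map φ g).sec y = φ (g.sec y) := rfl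

instance [Finite A] [Finite Y] : Finite (Wr A Y) := by
  classical
  have : Function.Injective (fun g : Wr A Y => (g.perm, g.sec)) := by
    intro g h hgh
    simp only [Prod.mk.injEq] at hgh
    exact Wr.ext hgh.1 hgh.2
  exact Finite.of_injective _ this

/-- powers of an element with trivial permutation -/
theorem pow_sec_of_perm (g : Wr A Y) (hg : g.perm = 1) (n : ℕ) (y : Y) :
    (g ^ n).sec y = g.sec y ^ n := by
  induction n with
  | zero => simp
  | succ n ih => rw [pow_succ, mul_sec, hg, pow_succ, Equiv.Perm.one_apply, ih]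

end Wr

end Pool.Agent.VW
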