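import Pool.Agent.VW.Defs
import Pool.Agent.VW.Wr

/-! Word lengths and the displacement argument at one level. -/

namespace Pool.Agent.VW

open Subgroup
open scoped commutatorElement

namespace Len

variable {G : Type*} [Group G] {W : Set G}

theorem one (m : ℕ) : Len W m 1 := ⟨[], by simp, by simp, by simp⟩

theorem mono {m n : ℕ} (h : m ≤ n) {g : G} (hg : Len W m g) : Len W n g := by
  obtain ⟨l, h1, h2, h3⟩ := hg
  exact ⟨l, h1.trans h, h2, h3⟩

theorem of_mem {g : G} (hg : g ∈ W) : Len W 1 g := ⟨[g], by simp, by simpa using hg, by simp⟩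

theorem mul {m n : ℕ} {g h : G} (hg : Len W m g) (hh : Len W n h) : Len W (m + n) (g * h) := by
  obtain ⟨l, h1, h2, h3⟩ := hg
  obtain ⟨l', h1', h2', h3'⟩ := hh
  refine ⟨l ++ l', by simp; omega, ?_, by simp [h3, h3']⟩
  intro x hx
  rcases List.mem_append.1 hx with h | h
  · exact h2 x h
  · exact h2' x h

theorem inv (hs : ∀ x ∈ W, x⁻¹ ∈ W) {m : ℕ} {g : G} (hg : Len W m g) : Len W m g⁻¹ := by
  obtain ⟨l, h1, h2, h3⟩ := hg
  refine ⟨(l.map fun x => x⁻¹).reverse, by simpa using h1, ?_, ?_⟩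
  · intro x hx
    simp only [List.mem_reverse, List.mem_map] at hx
    obtain ⟨y, hy, rfl⟩ := hx
    exact hs y (h2 y hy)
  · rw [← h3, List.prod_inv_reverse]

theorem conj (hc : ∀ x ∈ W, ∀ g : G, g * x * g⁻¹ ∈ W) {m : ℕ} {g : G} (hg : Len W m g) (a : G) :
    Len W m (a * g * a⁻¹) := by
  obtain ⟨l, h1, h2, h3⟩ := hg
  refine ⟨l.map (MulAut.conj a), by simpa using h1, ?_, ?_⟩
  · intro x hx
    simp only [List.mem_map] at hx
    obtain ⟨y, hy, rfl⟩ := hx
    simpa using hc y (h2 y hy) a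
  · rw [← map_list_prod, h3]; simp

theorem mem_closure {m : ℕ} {g : G} (hg : Len W m g) : g ∈ Subgroup.closure W := by
  obtain ⟨l, -, h2, rfl⟩ := hg
  exact Subgroup.list_prod_mem _ fun x hx => Subgroup.subset_closure (h2 x hx)

theorem exists_of_mem_closure (hs : ∀ x ∈ W, x⁻¹ ∈ W) {g : G} (hg : g ∈ Subgroup.closure W) :
    ∃ m, Len W m g := by
  induction hg using Subgroup.closure_induction with
  | mem x hx => exact ⟨1, of_mem hx⟩
  | one => exact ⟨0, one 0⟩
  | mul a b _ _ ha hb =>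
    obtain ⟨m, hm⟩ := ha
    obtain ⟨n, hn⟩ := hb
    exact ⟨m + n, hm.mul hn⟩
  | inv a _ ha =>
    obtain ⟨m, hm⟩ := ha
    exact ⟨m, hm.inv hs⟩

theorem finite (hW : W.Finite) (m : ℕ) : {g | Len W m g}.Finite := by
  induction m with
  | zero =>
    refine (Set.finite_singleton (1 : G)).subset ?_
    rintro g ⟨l, h1, -, rfl⟩
    have : l = [] := List.length_eq_zero_iff.1 (by omega)
    simp [this]
  | succ m ih =>
    have : {g | Len W (m + 1) g} ⊆ (Set.image2 (fun a b => a * b) (insert 1 W) {g | Len W m g}) := by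
      rintro g ⟨l, h1, h2, rfl⟩
      cases l with
      | nil => exact ⟨1, by simp, 1, one m, by simp⟩
      | cons x l =>
        refine ⟨x, Or.inr (h2 x (by simp)), l.prod, ⟨l, by simpa using h1, ?_, rfl⟩, by simp⟩
        exact fun y hy => h2 y (by simp [hy])
    exact (Set.Finite.image2 _ (hW.insert 1) ih).subset this

theorem comm (hs : ∀ x ∈ W, x⁻¹ ∈ W) (hc : ∀ x ∈ W, ∀ g : G, g * x * g⁻¹ ∈ W) (a : G) {b : G}
    (hb : b ∈ W) : Len W 2 ⁅a, b⁆ := by
  have : ⁅a, b⁆ = (a * b * a⁻¹) * b⁻¹ := by rw [commutatorElement_def]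
  rw [this]
  exact (of_mem (hc b hb a)).mul (of_mem (hs b hb))

end Len

/-- `u` is a product of exactly `c` commutators of elements of `K`. -/
def CL {A : Type*} [Group A] (K : Subgroup A) : ℕ → A → Prop
  | 0, u => u = 1
  | c + 1, u => ∃ (u' : A) (a : A) (b : A), a ∈ K ∧ b ∈ K ∧ CL K c u' ∧ u = u' * ⁅a, b⁆

namespace CL

variable {A : Type*} [Group A] {K : Subgroup A}

theorem succ {c : ℕ} {u : A} (h : CL K c u) : CL K (c + 1) u :=
  ⟨u, 1, 1, K.one_mem, K.one_mem, h, by simp⟩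

theorem mono {c d : ℕ} (hcd : c ≤ d) {u : A} (h : CL K c u) : CL K d u := by
  induction hcd with
  | refl => exact h
  | step _ ih => exact ih.succ

theorem mul {c : ℕ} {u : A} (h : CL K c u) : ∀ {d : ℕ} {v : A}, CL K d v → CL K (c + d) (u * v)
  | 0, v, hv => by
      simp only [CL] at hv
      simpa [hv] using h
  | d + 1, v, hv => by
      obtain ⟨v', a, b, ha, hb, hv', rfl⟩ := hv
      exact ⟨u * v', a, b, ha, hb, mul h hv', by group⟩

theorem exists_of_mem {u : A} (hu : u ∈ ⁅K, K⁆) : ∃ c, CL K c u := by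
  have h : ∀ x ∈ {x : A | ∃ a ∈ K, ∃ b ∈ K, ⁅a, b⁆ = x}, x⁻¹ ∈ {x : A | ∃ a ∈ K, ∃ b ∈ K, ⁅a, b⁆ = x} := by
    rintro _ ⟨a, ha, b, hb, rfl⟩
    exact ⟨b, hb, a, ha, (commutatorElement_inv a b).symm⟩
  rw [Subgroup.commutator_def] at hu
  obtain ⟨m, l, -, hl, rfl⟩ := Len.exists_of_mem_closure h hu
  clear hu
  induction l with
  | nil => exact ⟨0, rfl⟩
  | cons x l ih =>
    obtain ⟨c, hc⟩ := ih (fun y hy => hl y (by simp [hy]))
    obtain ⟨a, ha, b, hb, rfl⟩ := hl x (by simp)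
    have h1 : CL K 1 ⁅a, b⁆ := ⟨1, a, b, ha, hb, rfl, by simp⟩
    exact ⟨1 + c, by simpa using h1.mul hc⟩

theorem map {B : Type*} [Group B] (φ : A →* B) : ∀ {c : ℕ} {u : A}, CL K c u →
    CL (K.map φ) c (φ u)
  | 0, u, h => by
      simp only [CL] at h ⊢
      simp [h]
  | c + 1, u, h => by
      obtain ⟨u', a, b, ha, hb, hu', rfl⟩ := h
      exact ⟨φ u', φ a, φ b, Subgroup.mem_map_of_mem φ ha, Subgroup.mem_map_of_mem φ hb,
        map φ hu', by simp [map_commutatorElement]⟩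

end CL

/-- The element of the base group with given sections. -/
def base {A Y : Type*} (κ : Y → A) : Wr A Y := ⟨1, κ⟩

section base

set_option linter.unusedSectionVars false

variable {A Y : Type*} [Group A]

@[simp] theorem base_perm (κ : Y → A) : (base κ).perm = 1 := rfl
@[simp] theorem base_sec (κ : Y → A) : (base κ).sec = κ := rfl

theorem base_mul (κ μ : Y → A) : base κ * base μ = base (fun y => κ y * μ y) := by
  apply Wr.ext
  · simp
  · funext y; simp

theorem base_inv (κ : Y → A) : (base κ)⁻¹ = base (fun y => (κ y)⁻¹) := by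
  apply Wr.ext
  · simp
  · funext y; simp

theorem base_comm (κ μ : Y → A) : ⁅base κ, base μ⁆ = base (fun y => ⁅κ y, μ y⁆) := by
  simp only [commutatorElement_def, base_inv, base_mul]

theorem conj_base (g : Wr A Y) (κ : Y → A) :
    g * base κ * g⁻¹ = base (fun y => g.sec (g.perm⁻¹ y) * κ (g.perm⁻¹ y) * (g.sec (g.perm⁻¹ y))⁻¹) := by
  apply Wr.ext
  · simp
  · funext y; simp

theorem eq_base (g : Wr A Y) (hg : g.perm = 1) : g = base g.sec := by
  apply Wr.ext
  · simp [hg]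
  · simp

end base

section disp

variable {G A Y Z : Type} [Group G] [Group A] (Θ : G →* Wr A Y) (hΘ : Function.Injective Θ)
  (K : Subgroup A) (hb : ∀ κ : Y → A, (∀ y, κ y ∈ K) → ∃ g, Θ g = base κ)
  (π : Y → Z)

/-- The conjugate of a base element supported on one block by a displacing element has
trivial sections on that block. -/
theorem displaced {κ : Y → A} {z : Z} (hκ : ∀ y, π y ≠ z → κ y = 1) {h : Wr A Y}
    (hh : ∀ y, π y = z → π (h.perm y) ≠ z) :
    ∃ γ : Y → A, h * base κ * h⁻¹ = base γ ∧ ∀ y, π y = z → γ y = 1 := by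
  refine ⟨_, conj_base h κ, ?_⟩
  intro y hy
  have h1 : π (h.perm⁻¹ y) ≠ z := by
    intro h2
    have h3 := hh _ h2
    have h4 : h.perm (h.perm⁻¹ y) = y := by simp
    rw [h4] at h3
    exact h3 hy
  change h.sec (h.perm⁻¹ y) * κ (h.perm⁻¹ y) * (h.sec (h.perm⁻¹ y))⁻¹ = 1
  rw [hκ _ h1]
  group

include hΘ hb in
theorem comm_single {W : Set G} (hs : ∀ x ∈ W, x⁻¹ ∈ W) (hc : ∀ x ∈ W, ∀ g : G, g * x * g⁻¹ ∈ W)
    {z : Z} {h : G} (hW : h ∈ W) (hh : ∀ y, π y = z → π ((Θ h).perm y) ≠ z)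
    {α β : Y → A} (hα : ∀ y, α y ∈ K) (hα1 : ∀ y, π y ≠ z → α y = 1)
    (_hβ : ∀ y, β y ∈ K) (hβ1 : ∀ y, π y ≠ z → β y = 1) {a b : G} (ha : Θ a = base α)
    (hb' : Θ b = base β) : Len W 4 ⁅a, b⁆ := by
  obtain ⟨γ, hγ, hγ1⟩ := displaced (κ := fun y => (α y)⁻¹) π (fun y hy => by simp [hα1 y hy]) hh
  set C : G := h * a⁻¹ * h⁻¹ with hC
  have hΘC : Θ C = base γ := by
    rw [hC]; simp only [map_mul, map_inv, ha, base_inv, hγ]
  have hCb : C * b = b * C := by
    apply hΘ
    have e1 : Θ (C * b) = Θ C * Θ b := map_mul Θ C b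
    have e2 : Θ (b * C) = Θ b * Θ C := map_mul Θ b C
    rw [e1, e2, hΘC, hb', base_mul, base_mul]
    congr 1
    funext y
    by_cases hy : π y = z
    · simp [hγ1 y hy]
    · simp [hβ1 y hy]
  set U : G := a * C with hU
  have hUb : ⁅a, b⁆ = U * (b * U⁻¹ * b⁻¹) := by
    have : U * b * U⁻¹ = a * b * a⁻¹ := by
      rw [hU]
      calc a * C * b * (a * C)⁻¹ = a * (C * b) * C⁻¹ * a⁻¹ := by group
        _ = a * (b * C) * C⁻¹ * a⁻¹ := by rw [hCb]
        _ = a * b * a⁻¹ := by group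
    calc ⁅a, b⁆ = a * b * a⁻¹ * b⁻¹ := commutatorElement_def a b
      _ = U * b * U⁻¹ * b⁻¹ := by rw [this]
      _ = U * (b * U⁻¹ * b⁻¹) := by group
  have hUW : Len W 2 U := by
    have : U = ⁅a, h⁆ := by rw [hU, hC, commutatorElement_def]; group
    rw [this]; exact Len.comm hs hc a hW
  rw [hUb]
  exact hUW.mul ((hUW.inv hs).conj hc b)

include hΘ hb in
theorem comm_all [Fintype Z] [DecidableEq Z] {W : Set G} (hs : ∀ x ∈ W, x⁻¹ ∈ W)
    (hc : ∀ x ∈ W, ∀ g : G, g * x * g⁻¹ ∈ W)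
    (hd : ∀ z : Z, ∃ h ∈ W, ∀ y, π y = z → π ((Θ h).perm y) ≠ z)
    {α β : Y → A} (hα : ∀ y, α y ∈ K) (hβ : ∀ y, β y ∈ K) {g : G}
    (hg : Θ g = base (fun y => ⁅α y, β y⁆)) : Len W (4 * Fintype.card Z) g := by
  have key : ∀ s : Finset Z, ∀ g : G,
      Θ g = base (fun y => if π y ∈ s then ⁅α y, β y⁆ else 1) → Len W (4 * s.card) g := by
    intro s
    induction s using Finset.induction_on with
    | empty =>
      intro g hg
      have : g = 1 := by
        apply hΘ; rw [hg, map_one]; simp; rfl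
      rw [this]; exact Len.one _
    | insert z s hz ih =>
      intro g hg
      have h1 : ∀ y, (if π y ∈ s then ⁅α y, β y⁆ else 1) ∈ K := by
        intro y
        split_ifs
        · rw [commutatorElement_def]
          exact K.mul_mem (K.mul_mem (K.mul_mem (hα y) (hβ y)) (K.inv_mem (hα y))) (K.inv_mem (hβ y))
        · exact K.one_mem
      obtain ⟨g₀, hg₀⟩ := hb _ h1
      have h2 : ∀ y, (if π y = z then α y else 1) ∈ K := by
        intro y; split_ifs
        · exact hα y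
        · exact K.one_mem
      have h3 : ∀ y, (if π y = z then β y else 1) ∈ K := by
        intro y; split_ifs
        · exact hβ y
        · exact K.one_mem
      obtain ⟨a, ha⟩ := hb _ h2
      obtain ⟨b, hb'⟩ := hb _ h3
      obtain ⟨h, hW, hh⟩ := hd z
      have h4 := comm_single Θ hΘ K hb π hs hc hW hh h2 (fun y hy => by simp [hy]) h3
        (fun y hy => by simp [hy]) ha hb'
      have : g = g₀ * ⁅a, b⁆ := by
        apply hΘ
        rw [map_mul, map_commutatorElement, ha, hb', hg₀, base_comm, base_mul, hg]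
        congr 1
        funext y
        by_cases hy : π y = z
        · have : π y ∉ s := by rw [hy]; exact hz
          simp [hy, hz]
        · simp [hy]
      rw [this, Finset.card_insert_of_notMem hz, mul_add, mul_one]
      exact (ih g₀ hg₀).mul h4
  have := key Finset.univ g (by rw [hg]; simp)
  simpa using this

include hΘ hb in
theorem CL_len [Fintype Z] [DecidableEq Z] {W : Set G} (hs : ∀ x ∈ W, x⁻¹ ∈ W)
    (hc : ∀ x ∈ W, ∀ g : G, g * x * g⁻¹ ∈ W)
    (hd : ∀ z : Z, ∃ h ∈ W, ∀ y, π y = z → π ((Θ h).perm y) ≠ z) :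
    ∀ (c : ℕ) (κ : Y → A), (∀ y, CL K c (κ y)) → ∀ g : G, Θ g = base κ →
      Len W (4 * Fintype.card Z * c) g := by
  intro c
  induction c with
  | zero =>
    intro κ hκ g hg
    have : g = 1 := by
      apply hΘ
      rw [hg, map_one]
      have : κ = fun _ => 1 := funext fun y => hκ y
      rw [this]; rfl
    rw [this]; exact Len.one _
  | succ c ih =>
    intro κ hκ g hg
    choose κ' α β hα hβ hκ' he using hκ
    have hmem : ∀ (c : ℕ) (u : A), CL K c u → u ∈ K := by
      intro c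
      induction c with
      | zero => intro u hu; simp only [CL] at hu; rw [hu]; exact K.one_mem
      | succ c ih =>
        rintro u ⟨u', a, b, ha, hb, hu', rfl⟩
        refine K.mul_mem (ih u' hu') ?_
        rw [commutatorElement_def]
        exact K.mul_mem (K.mul_mem (K.mul_mem ha hb) (K.inv_mem ha)) (K.inv_mem hb)
    obtain ⟨g₀, hg₀⟩ := hb κ' (fun y => hmem c _ (hκ' y))
    have h5 : ∀ y, ⁅α y, β y⁆ ∈ K := by
      intro y
      rw [commutatorElement_def]
      exact K.mul_mem (K.mul_mem (K.mul_mem (hα y) (hβ y)) (K.inv_mem (hα y))) (K.inv_mem (hβ y))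
    obtain ⟨g₁, hg₁⟩ := hb _ h5
    have : g = g₀ * g₁ := by
      apply hΘ
      rw [map_mul, hg₀, hg₁, base_mul, hg]
      congr 1
      funext y
      exact he y
    rw [this, mul_add, mul_one]
    exact (ih κ' hκ' g₀ hg₀).mul (comm_all Θ hΘ K hb π hs hc hd hα hβ hg₁)

end disp

end Pool.Agent.VW
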