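import Pool.Agent.VW.Iter

/-! The universal recursion for the Grigorchuk groups `G_ω`. -/

namespace Pool.Agent.VW

set_option linter.unusedSectionVars false

open Subgroup hiding lowerCentralSeries
open scoped commutatorElement
open Monoid.Coprod (inl inr)

abbrev C2 := Multiplicative (ZMod 2)
abbrev V4 := Multiplicative (ZMod 2 × ZMod 2)
/-- the free product `C₂ * V₄` -/
abbrev GF := Monoid.Coprod C2 V4

def t2 : C2 := Multiplicative.ofAdd 1

theorem c2_cases (c : C2) : c = 1 ∨ c = t2 := by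
  revert c; decide

theorem t2_mul : t2 * t2 = 1 := by decide
theorem t2_ne : t2 ≠ 1 := by decide

/-- the letter killed by the symbol `s` -/
def xv : Fin 3 → V4
  | 0 => Multiplicative.ofAdd (1, 0)
  | 1 => Multiplicative.ofAdd (0, 1)
  | 2 => Multiplicative.ofAdd (1, 1)

/-- the homomorphism `V₄ → C₂` attached to the symbol `s` -/
def lam : Fin 3 → V4 →* C2
  | 0 => AddMonoidHom.toMultiplicative (AddMonoidHom.snd (ZMod 2) (ZMod 2))
  | 1 => AddMonoidHom.toMultiplicative (AddMonoidHom.fst (ZMod 2) (ZMod 2))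
  | 2 => AddMonoidHom.toMultiplicative
      (AddMonoidHom.fst (ZMod 2) (ZMod 2) + AddMonoidHom.snd (ZMod 2) (ZMod 2))

theorem lam_xv (s s' : Fin 3) : lam s (xv s') = 1 ↔ s = s' := by
  revert s s'; decide

theorem v_cases (j i : Fin 3) (hij : i ≠ j) (v : V4) :
    v = 1 ∨ v = xv j ∨ v = xv i ∨ v = xv j * xv i := by
  revert v hij i j; decide

theorem lam_exists_ne (s : Fin 3) : ∃ v, lam s v ≠ 1 := by
  revert s; decide

theorem v_sq (v : V4) : v * v = 1 := by
  revert v; decide

/-- homomorphism from `C₂` given by an involution -/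
def c2hom {H : Type} [Group H] (h : H) (hh : h * h = 1) : C2 →* H where
  toFun c := if c = 1 then 1 else h
  map_one' := by simp
  map_mul' c d := by
    rcases c2_cases c with rfl | rfl <;> rcases c2_cases d with rfl | rfl <;>
      simp [t2_mul, t2_ne, hh]

theorem c2hom_t2 {H : Type} [Group H] (h : H) (hh : h * h = 1) : c2hom h hh t2 = h := by
  simp [c2hom, t2_ne]

/-- the letter `a` -/
def ga : GF := inl t2
/-- the letters of `V₄` -/
def gb (v : V4) : GF := inr v

theorem ga_sq : ga * ga = 1 := by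
  unfold ga; rw [← map_mul, t2_mul, map_one]

theorem gb_mul (v w : V4) : gb v * gb w = gb (v * w) := by
  unfold gb; rw [map_mul]

theorem gb_sq (v : V4) : gb v * gb v = 1 := by
  rw [gb_mul, v_sq]; unfold gb; rw [map_one]

theorem gb_one : gb 1 = 1 := by unfold gb; rw [map_one]

theorem gb_comm (v w : V4) : gb v * gb w = gb w * gb v := by
  rw [gb_mul, gb_mul, mul_comm]

theorem ga_inv : ga⁻¹ = ga := inv_eq_of_mul_eq_one_right ga_sq
theorem gb_inv (v : V4) : (gb v)⁻¹ = gb v := inv_eq_of_mul_eq_one_right (gb_sq v)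

/-- the swap -/
def sw : Wr GF Bool := ⟨Equiv.boolNot, fun _ => 1⟩

theorem sw_sq : sw * sw = 1 := by
  apply Wr.ext
  · ext b; simp [sw]
  · funext b; simp [sw]

/-- image of a letter of `V₄` -/
def vhom (s : Fin 3) : V4 →* Wr GF Bool where
  toFun v := ⟨1, fun b => if b then gb v else inl (lam s v)⟩
  map_one' := by
    apply Wr.ext
    · rfl
    · funext b; cases b <;> simp [gb_one]
  map_mul' v w := by
    apply Wr.ext
    · rfl
    · funext b; cases b
      · simp
      · simp [gb_mul]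

/-- The wreath recursion of the symbol `s`: `a ↦ σ`, `v ↦ (λ_s(v), v)`. -/
def psi (s : Fin 3) : GF →* Wr GF Bool := Monoid.Coprod.lift (c2hom sw sw_sq) (vhom s)

theorem psi_a (s : Fin 3) : psi s ga = sw := by
  unfold psi ga; rw [Monoid.Coprod.lift_apply_inl, c2hom_t2]

theorem psi_b (s : Fin 3) (v : V4) : psi s (gb v) = vhom s v := by
  unfold psi gb; rw [Monoid.Coprod.lift_apply_inr]

@[simp] theorem psi_a_perm (s : Fin 3) (b : Bool) : (psi s ga).perm b = !b := by
  rw [psi_a]; rfl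
@[simp] theorem psi_a_sec (s : Fin 3) (b : Bool) : (psi s ga).sec b = 1 := by
  rw [psi_a]; rfl
@[simp] theorem psi_b_perm (s : Fin 3) (v : V4) : (psi s (gb v)).perm = 1 := by
  rw [psi_b]; rfl
@[simp] theorem psi_b_sec_true (s : Fin 3) (v : V4) : (psi s (gb v)).sec true = gb v := by
  rw [psi_b]; rfl
@[simp] theorem psi_b_sec_false (s : Fin 3) (v : V4) : (psi s (gb v)).sec false = inl (lam s v) := by
  rw [psi_b]; rfl

theorem psi_b_sec_false_of_one {s : Fin 3} {v : V4} (h : lam s v = 1) :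
    (psi s (gb v)).sec false = 1 := by
  rw [psi_b_sec_false, h, map_one]

theorem psi_b_sec_false_of_ne {s : Fin 3} {v : V4} (h : lam s v ≠ 1) :
    (psi s (gb v)).sec false = ga := by
  rw [psi_b_sec_false]
  rcases c2_cases (lam s v) with h' | h'
  · exact absurd h' h
  · rw [h']; rfl

/-- the nucleus -/
def nucl : Set GF := {ga} ∪ Set.range gb

theorem nucl_finite : nucl.Finite := (Set.finite_singleton _).union (Set.finite_range _)

theorem one_mem_nucl : (1 : GF) ∈ nucl := Or.inr ⟨1, gb_one⟩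

theorem ga_mem_nucl : ga ∈ nucl := Or.inl rfl
theorem gb_mem_nucl (v : V4) : gb v ∈ nucl := Or.inr ⟨v, rfl⟩

theorem inl_mem_nucl (c : C2) : (inl c : GF) ∈ nucl := by
  rcases c2_cases c with rfl | rfl
  · rw [map_one]; exact one_mem_nucl
  · exact ga_mem_nucl

theorem nucl_inv : ∀ f ∈ nucl, f⁻¹ ∈ nucl := by
  rintro f (rfl | ⟨v, rfl⟩)
  · rw [ga_inv]; exact ga_mem_nucl
  · rw [gb_inv]; exact gb_mem_nucl v

theorem psi_b_sec_mem (s : Fin 3) (v : V4) (b : Bool) : (psi s (gb v)).sec b ∈ nucl := by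
  cases b
  · rw [psi_b_sec_false]; exact inl_mem_nucl _
  · rw [psi_b_sec_true]; exact gb_mem_nucl v

theorem nucl_contr : ∀ s, ∀ f ∈ nucl, ∀ g ∈ nucl, ∀ x, (psi s (f * g)).sec x ∈ nucl := by
  rintro s f (rfl | ⟨v, rfl⟩) g (rfl | ⟨w, rfl⟩) x
  · rw [ga_sq, map_one]; exact one_mem_nucl
  · rw [map_mul, Wr.mul_sec, psi_a_sec, one_mul]; exact psi_b_sec_mem s w x
  · rw [map_mul, Wr.mul_sec, psi_a_sec, mul_one]; exact psi_b_sec_mem s v _
  · rw [gb_mul]; exact psi_b_sec_mem s _ x

/-- induction principle for subgroups containing the letters -/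
theorem GF_top (H : Subgroup GF) (h1 : ga ∈ H) (h2 : ∀ v, gb v ∈ H) : H = ⊤ := by
  rw [eq_top_iff]
  intro f _
  induction f using Monoid.Coprod.induction_on with
  | inl c =>
    rcases c2_cases c with rfl | rfl
    · rw [map_one]; exact H.one_mem
    · exact h1
  | inr v => exact h2 v
  | mul a b ha hb => exact H.mul_mem (ha trivial) (hb trivial)

theorem nucl_gen : Subgroup.closure nucl = ⊤ :=
  GF_top _ (Subgroup.subset_closure ga_mem_nucl) fun v => Subgroup.subset_closure (gb_mem_nucl v)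

instance : Group.FG GF := by
  refine ⟨⟨nucl_finite.toFinset, ?_⟩⟩
  rw [Set.Finite.coe_toFinset]; exact nucl_gen

theorem psi_act (s : Fin 3) (f : GF) : (psi s f).perm ^ 2 ^ 1 = 1 := by
  generalize (psi s f).perm = σ
  revert σ
  decide

/-- prescribing a section -/
theorem psi_sec_surj (s : Fin 3) (x : Bool) (u : GF) :
    ∃ g, (psi s g).perm = 1 ∧ (psi s g).sec x = u := by
  let H : Subgroup GF :=
    { carrier := {u | ∃ g, (psi s g).perm = 1 ∧ (psi s g).sec x = u}
      one_mem' := ⟨1, by simp, by simp⟩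
      mul_mem' := by
        rintro _ _ ⟨g, hg, rfl⟩ ⟨h, hh, rfl⟩
        refine ⟨g * h, by simp [hg, hh], ?_⟩
        rw [map_mul, Wr.mul_sec, hh]; rfl
      inv_mem' := by
        rintro _ ⟨g, hg, rfl⟩
        refine ⟨g⁻¹, by simp [hg], ?_⟩
        rw [map_inv, Wr.inv_sec, hg]; rfl }
  obtain ⟨y, hy⟩ := lam_exists_ne s
  have hconj : ∀ v b, (psi s (ga * gb v * ga)).sec b = (psi s (gb v)).sec (!b) := by
    intro v b
    rw [map_mul, map_mul, Wr.mul_sec, Wr.mul_sec, psi_a_sec, psi_a_sec, psi_a_perm]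
    simp
  have hperm : ∀ v, (psi s (ga * gb v * ga)).perm = 1 := by
    intro v
    rw [map_mul, map_mul, Wr.mul_perm, Wr.mul_perm, psi_b_perm, mul_one]
    ext b; simp [Equiv.Perm.mul_apply]
  have hH : H = ⊤ := by
    apply GF_top
    · cases x
      · exact ⟨gb y, psi_b_perm s y, psi_b_sec_false_of_ne hy⟩
      · exact ⟨ga * gb y * ga, hperm y, by rw [hconj]; exact psi_b_sec_false_of_ne hy⟩
    · intro v
      cases x
      · exact ⟨ga * gb v * ga, hperm v, by rw [hconj]; exact psi_b_sec_true s v⟩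
      · exact ⟨gb v, psi_b_perm s v, psi_b_sec_true s v⟩
  have : u ∈ H := by rw [hH]; trivial
  exact this

theorem psi_trans (s : Fin 3) (x x' : Bool) : ∃ f, (psi s f).perm x = x' := by
  by_cases h : x = x'
  · exact ⟨1, by simp [h]⟩
  · refine ⟨ga, ?_⟩
    rw [psi_a_perm]
    cases x <;> cases x' <;> simp_all

/-- the branching subgroups -/
def KK (s : Fin 3) : Subgroup GF := Subgroup.normalClosure {⁅ga, gb (xv s)⁆}

instance (s : Fin 3) : (KK s).Normal := Subgroup.normalClosure_normal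

theorem mem_KK (s : Fin 3) : ⁅ga, gb (xv s)⁆ ∈ KK s := Subgroup.subset_normalClosure rfl

theorem comm_perm (g h : Wr GF Bool) (hg : g.perm = 1) (hh : h.perm = 1) (b : Bool) :
    ⁅g, h⁆.perm = 1 ∧ ⁅g, h⁆.sec b = ⁅g.sec b, h.sec b⁆ := by
  rw [eq_base g hg, eq_base h hh, base_comm]
  exact ⟨rfl, rfl⟩

/-- the basic branching element -/
theorem branch_elt (s s' : Fin 3) : ∃ g ∈ KK s', (psi s g).perm = 1 ∧
    (psi s g).sec false = ⁅ga, gb (xv s)⁆ ∧ (psi s g).sec true = 1 := by
  have hconj : ∀ v b, (psi s (ga * gb v * ga)).sec b = (psi s (gb v)).sec (!b) := by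
    intro v b
    rw [map_mul, map_mul, Wr.mul_sec, Wr.mul_sec, psi_a_sec, psi_a_sec, psi_a_perm]
    simp
  have hperm : ∀ v, (psi s (ga * gb v * ga)).perm = 1 := by
    intro v
    rw [map_mul, map_mul, Wr.mul_perm, Wr.mul_perm, psi_b_perm, mul_one]
    ext b; simp [Equiv.Perm.mul_apply]
  have hxs : lam s (xv s) = 1 := (lam_xv s s).2 rfl
  set X : GF := ga * gb (xv s) * ga with hX
  have hXf : (psi s X).sec false = gb (xv s) := by
    rw [hX, hconj]; exact psi_b_sec_true s _
  have hXt : (psi s X).sec true = 1 := by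
    rw [hX, hconj]; exact psi_b_sec_false_of_one hxs
  have hXp : (psi s X).perm = 1 := hperm _
  by_cases hss : s = s'
  · subst hss
    obtain ⟨y, hy⟩ := lam_exists_ne s
    set c : GF := ⁅ga, gb (xv s)⁆ with hc
    have hcK : c ∈ KK s := mem_KK s
    have hc' : c = X * gb (xv s) := by
      rw [hc, hX, commutatorElement_def, ga_inv, gb_inv]
    have hcp : (psi s c).perm = 1 := by
      rw [hc', map_mul, Wr.mul_perm, hXp, psi_b_perm, one_mul]
    have hcf : (psi s c).sec false = gb (xv s) := by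
      rw [hc', map_mul, Wr.mul_sec, psi_b_perm, Equiv.Perm.one_apply, hXf,
        psi_b_sec_false_of_one hxs, mul_one]
    have hct : (psi s c).sec true = gb (xv s) := by
      rw [hc', map_mul, Wr.mul_sec, psi_b_perm, Equiv.Perm.one_apply, hXt,
        psi_b_sec_true, one_mul]
    refine ⟨gb y * c * (gb y)⁻¹ * c⁻¹, ?_, ?_, ?_, ?_⟩
    · exact (KK s).mul_mem ((inferInstance : (KK s).Normal).conj_mem c hcK _) ((KK s).inv_mem hcK)
    · simp [hcp]
    · have := (comm_perm (psi s (gb y)) (psi s c) (psi_b_perm s y) hcp false).2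
      have e : psi s (gb y * c * (gb y)⁻¹ * c⁻¹) = ⁅psi s (gb y), psi s c⁆ := by
        rw [← map_commutatorElement, commutatorElement_def]
      rw [e, this, hcf, psi_b_sec_false_of_ne hy]
    · have := (comm_perm (psi s (gb y)) (psi s c) (psi_b_perm s y) hcp true).2
      have e : psi s (gb y * c * (gb y)⁻¹ * c⁻¹) = ⁅psi s (gb y), psi s c⁆ := by
        rw [← map_commutatorElement, commutatorElement_def]
      rw [e, this, hct, psi_b_sec_true, commutatorElement_eq_one_iff_mul_comm]
      exact gb_comm _ _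
  · have hy : lam s (xv s') ≠ 1 := fun h => hss ((lam_xv s s').1 h)
    refine ⟨⁅gb (xv s'), X⁆, ?_, ?_, ?_, ?_⟩
    · -- modulo `KK s'`, `xv s'` commutes with `ga` and with `gb`
      rw [← QuotientGroup.eq_one_iff]
      have h1 : ⁅((ga : GF) : GF ⧸ KK s'), ((gb (xv s') : GF) : GF ⧸ KK s')⁆ = 1 := by
        have := (QuotientGroup.eq_one_iff (⁅ga, gb (xv s')⁆ : GF) (N := KK s')).2 (mem_KK s')
        rw [← this]; rfl
      rw [commutatorElement_eq_one_iff_mul_comm] at h1
      have h2 : ((gb (xv s) : GF) : GF ⧸ KK s') * ((gb (xv s') : GF) : GF ⧸ KK s')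
          = ((gb (xv s') : GF) : GF ⧸ KK s') * ((gb (xv s) : GF) : GF ⧸ KK s') := by
        rw [← QuotientGroup.mk_mul, ← QuotientGroup.mk_mul, gb_comm]
      have h3 : ((⁅gb (xv s'), X⁆ : GF) : GF ⧸ KK s')
          = ⁅((gb (xv s') : GF) : GF ⧸ KK s'), ((X : GF) : GF ⧸ KK s')⁆ := rfl
      rw [h3, commutatorElement_eq_one_iff_mul_comm, hX, QuotientGroup.mk_mul,
        QuotientGroup.mk_mul]
      set A := ((ga : GF) : GF ⧸ KK s')
      set B := ((gb (xv s) : GF) : GF ⧸ KK s')
      set C := ((gb (xv s') : GF) : GF ⧸ KK s')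
      calc C * (A * B * A) = (C * A) * B * A := by group
        _ = (A * C) * B * A := by rw [h1]
        _ = A * (C * B) * A := by group
        _ = A * (B * C) * A := by rw [h2]
        _ = A * B * (C * A) := by group
        _ = A * B * (A * C) := by rw [h1]
        _ = A * B * A * C := by group
    · have := (comm_perm (psi s (gb (xv s'))) (psi s X) (psi_b_perm s _) hXp false).1
      rwa [← map_commutatorElement] at this
    · have := (comm_perm (psi s (gb (xv s'))) (psi s X) (psi_b_perm s _) hXp false).2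
      rw [map_commutatorElement, this, hXf, psi_b_sec_false_of_ne hy]
    · have := (comm_perm (psi s (gb (xv s'))) (psi s X) (psi_b_perm s _) hXp true).2
      rw [map_commutatorElement, this, hXt, commutatorElement_one_right]

theorem branch_false (s s' : Fin 3) (u : GF) (hu : u ∈ KK s) : ∃ g ∈ KK s', (psi s g).perm = 1 ∧
    (psi s g).sec false = u ∧ (psi s g).sec true = 1 := by
  let P : Subgroup GF :=
    { carrier := {u | ∃ g ∈ KK s', (psi s g).perm = 1 ∧
        (psi s g).sec false = u ∧ (psi s g).sec true = 1}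
      one_mem' := ⟨1, (KK s').one_mem, by simp, by simp, by simp⟩
      mul_mem' := by
        rintro _ _ ⟨g, hgK, hg, rfl, hg'⟩ ⟨h, hhK, hh, rfl, hh'⟩
        refine ⟨g * h, (KK s').mul_mem hgK hhK, by simp [hg, hh], ?_, ?_⟩
        · rw [map_mul, Wr.mul_sec, hh]; rfl
        · rw [map_mul, Wr.mul_sec, hh, hh']; simpa using hg'
      inv_mem' := by
        rintro _ ⟨g, hgK, hg, rfl, hg'⟩
        refine ⟨g⁻¹, (KK s').inv_mem hgK, by simp [hg], ?_, ?_⟩
        · rw [map_inv, Wr.inv_sec, hg]; rfl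
        · rw [map_inv, Wr.inv_sec, hg]; simp [hg'] }
  have hPn : P.Normal := by
    constructor
    rintro _ ⟨g, hgK, hg, rfl, hg'⟩ w
    obtain ⟨h, hh, hh'⟩ := psi_sec_surj s false w
    refine ⟨h * g * h⁻¹, (inferInstance : (KK s').Normal).conj_mem g hgK h, by simp [hg, hh], ?_, ?_⟩
    · rw [map_mul, map_mul, map_inv, Wr.mul_sec, Wr.mul_sec, Wr.inv_sec, Wr.inv_perm, hh, hg]
      simp [hh']
    · rw [map_mul, map_mul, map_inv, Wr.mul_sec, Wr.mul_sec, Wr.inv_sec, Wr.inv_perm, hh, hg]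
      simp [hg']
  have : KK s ≤ P := by
    unfold KK
    apply Subgroup.normalClosure_le_normal
    rintro x rfl
    exact branch_elt s s'
  exact this hu

theorem branch_one (s s' : Fin 3) (κ : Bool → GF) (hκ : ∀ x, κ x ∈ KK s) :
    ∃ f ∈ KK s', (psi s f).perm = 1 ∧ ∀ x, (psi s f).sec x = κ x := by
  obtain ⟨g, hgK, hg, hgf, hgt⟩ := branch_false s s' (κ false) (hκ false)
  obtain ⟨h, hhK, hh, hhf, hht⟩ := branch_false s s' (κ true) (hκ true)
  have e : (ga * h * ga⁻¹) ∈ KK s' := (inferInstance : (KK s').Normal).conj_mem h hhK ga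
  have hp : (psi s (ga * h * ga⁻¹)).perm = 1 := by simp [hh]
  have hs : ∀ b, (psi s (ga * h * ga⁻¹)).sec b = (psi s h).sec (!b) := by
    intro b
    rw [ga_inv, map_mul, map_mul, Wr.mul_sec, Wr.mul_sec, psi_a_sec, psi_a_sec, psi_a_perm]
    simp
  refine ⟨g * (ga * h * ga⁻¹), (KK s').mul_mem hgK e, ?_, ?_⟩
  · rw [map_mul, Wr.mul_perm, hg, hp, one_mul]
  · intro b
    rw [map_mul, Wr.mul_sec, hp, Equiv.Perm.one_apply, hs]
    cases b
    · rw [hgf]
      have : (psi s h).sec (!false) = 1 := hht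
      rw [this, mul_one]
    · rw [hgt]
      have : (psi s h).sec (!true) = κ true := hhf
      rw [this, one_mul]

end Pool.Agent.VW
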