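import Pool.Agent.VW.Grig

/-! The remaining hypotheses for the Grigorchuk groups. -/

namespace Pool.Agent.VW

set_option linter.unusedSectionVars false

open Subgroup hiding lowerCentralSeries
open scoped commutatorElement
open Monoid.Coprod (inl inr)

/-! ### relators `(a x)^16` -/

theorem psi_ax_sq (s : Fin 3) (v : V4) : (psi s ((ga * gb v) ^ 2)).perm = 1 ∧
    (psi s ((ga * gb v) ^ 2)).sec false = gb v * inl (lam s v) ∧
    (psi s ((ga * gb v) ^ 2)).sec true = inl (lam s v) * gb v := by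
  have hp : ∀ b, (psi s (ga * gb v)).perm b = !b := by
    intro b
    rw [map_mul, Wr.mul_perm, psi_b_perm, mul_one, psi_a_perm]
  have hs : ∀ b, (psi s (ga * gb v)).sec b = (psi s (gb v)).sec b := by
    intro b
    rw [map_mul, Wr.mul_sec, psi_a_sec, one_mul]
  rw [pow_two, map_mul]
  refine ⟨?_, ?_, ?_⟩
  · ext b
    rw [Wr.mul_perm, Equiv.Perm.mul_apply, hp, hp]
    simp
  · rw [Wr.mul_sec, hp, hs, hs]
    simp
  · rw [Wr.mul_sec, hp, hs, hs]
    simp

theorem ax_pow_mem : ∀ (m : ℕ) (ω : ℕ → Fin 3) (v : V4), (∃ i ≤ m, lam (ω i) v = 1) →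
    (ga * gb v) ^ 2 ^ (m + 2) ∈ NN psi ω := by
  intro m
  induction m with
  | zero =>
    rintro ω v ⟨i, hi, hv⟩
    obtain rfl : i = 0 := by omega
    obtain ⟨h1, h2, h3⟩ := psi_ax_sq (ω 0) v
    rw [hv, map_one] at h2 h3
    rw [mul_one] at h2
    rw [one_mul] at h3
    rw [show (2 : ℕ) ^ (0 + 2) = 2 * 2 by norm_num, pow_mul, mem_NN_step]
    refine ⟨by rw [map_pow, Wr.pow_perm, h1, one_pow], fun x => ?_⟩
    rw [map_pow, Wr.pow_sec_of_perm _ h1]
    cases x
    · rw [h2, pow_two, gb_sq]; exact Subgroup.one_mem _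
    · rw [h3, pow_two, gb_sq]; exact Subgroup.one_mem _
  | succ m ih =>
    rintro ω v ⟨i, hi, hv⟩
    by_cases h0 : lam (ω 0) v = 1
    · obtain ⟨h1, h2, h3⟩ := psi_ax_sq (ω 0) v
      rw [h0, map_one] at h2 h3
      rw [mul_one] at h2
      rw [one_mul] at h3
      rw [show (2 : ℕ) ^ (m + 1 + 2) = 2 * 2 ^ (m + 2) by ring, pow_mul, mem_NN_step]
      refine ⟨by rw [map_pow, Wr.pow_perm, h1, one_pow], fun x => ?_⟩
      rw [map_pow, Wr.pow_sec_of_perm _ h1]
      have e : gb v ^ 2 ^ (m + 2) = 1 := by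
        rw [show (2 : ℕ) ^ (m + 2) = 2 * 2 ^ (m + 1) by ring, pow_mul, pow_two, gb_sq, one_pow]
      cases x
      · rw [h2, e]; exact Subgroup.one_mem _
      · rw [h3, e]; exact Subgroup.one_mem _
    · have hi0 : i ≠ 0 := fun h => h0 (h ▸ hv)
      obtain ⟨k, rfl⟩ : ∃ k, i = k + 1 := ⟨i - 1, by omega⟩
      have hk := ih (sh ω) v ⟨k, by omega, hv⟩
      obtain ⟨h1, h2, h3⟩ := psi_ax_sq (ω 0) v
      have hl : (inl (lam (ω 0) v) : GF) = ga := by
        rcases c2_cases (lam (ω 0) v) with h | h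
        · exact absurd h h0
        · rw [h]; rfl
      rw [hl] at h2 h3
      rw [show (2 : ℕ) ^ (m + 1 + 2) = 2 * 2 ^ (m + 2) by ring, pow_mul, mem_NN_step]
      refine ⟨by rw [map_pow, Wr.pow_perm, h1, one_pow], fun x => ?_⟩
      rw [map_pow, Wr.pow_sec_of_perm _ h1]
      cases x
      · rw [h2]
        have e : gb v * ga = ga * (ga * gb v) * ga⁻¹ := by
          rw [ga_inv]
          calc gb v * ga = 1 * (gb v * ga) := by group
            _ = (ga * ga) * (gb v * ga) := by rw [ga_sq]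
            _ = ga * (ga * gb v) * ga := by group
        rw [e, conj_pow]
        exact (NN_normal psi (sh ω)).conj_mem _ hk _
      · rw [h3]; exact hk

/-- the relators -/
def RR (j i : Fin 3) : Subgroup GF :=
  Subgroup.normalClosure {(ga * gb (xv j)) ^ 16, (ga * gb (xv i)) ^ 16}

instance (j i : Fin 3) : (RR j i).Normal := Subgroup.normalClosure_normal

theorem RR_le (j i : Fin 3) (ω : ℕ → Fin 3) (hj : ∃ k ≤ 2, ω k = j) (hi : ∃ k ≤ 2, ω k = i) :
    RR j i ≤ NN psi ω := by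
  unfold RR
  apply Subgroup.normalClosure_le_normal
  rintro x (rfl | rfl)
  · obtain ⟨k, hk, hk'⟩ := hj
    exact ax_pow_mem 2 ω (xv j) ⟨k, hk, (lam_xv _ _).2 hk'⟩
  · obtain ⟨k, hk, hk'⟩ := hi
    exact ax_pow_mem 2 ω (xv i) ⟨k, hk, (lam_xv _ _).2 hk'⟩

/-! ### the finite quotient -/

/-- Elements of a group generated by `x` (central) and `a, y` with dihedral relations. -/
theorem dihedral_aux {Q : Type} [Group Q] (a x y : Q) (ha : a * a = 1) (hx : x * x = 1)
    (hy : y * y = 1) (hxa : x * a = a * x) (hxy : x * y = y * x) (hay : (a * y) ^ 16 = 1)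
    (hgen : Subgroup.closure {a, x, y} = ⊤) :
    Finite Q ∧ ∀ q : Q, q ^ 2 ^ 5 = 1 := by
  set r := a * y with hr
  have hainv : a⁻¹ = a := inv_eq_of_mul_eq_one_right ha
  have hyinv : y⁻¹ = y := inv_eq_of_mul_eq_one_right hy
  have har : a * r = r⁻¹ * a := by
    rw [hr, mul_inv_rev, hainv, hyinv]
    calc a * (a * y) = (a * a) * y := by group
      _ = y * (a * a) := by rw [ha]; group
      _ = y * a * a := by group
  have hark : ∀ k : ℤ, a * r ^ k = r ^ (-k) * a := by
    intro k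
    have h1 : a * r * a⁻¹ = r⁻¹ := by rw [har]; group
    have h2 : a * r ^ k * a⁻¹ = (r⁻¹) ^ k := by rw [← h1, conj_zpow]
    rw [zpow_neg, ← inv_zpow, ← h2]; group
  have hxr : x * r = r * x := by
    rw [hr]
    calc x * (a * y) = (x * a) * y := by group
      _ = a * (x * y) := by rw [hxa]; group
      _ = a * y * x := by rw [hxy]; group
  -- every element has the normal form
  have hnf : ∀ q : Q, ∃ (ε k δ : ℤ), q = x ^ ε * r ^ k * a ^ δ := by
    have hxc : ∀ (ε : ℤ) (z : Q), (z = a ∨ z = r ∨ z = y) → z * x ^ ε = x ^ ε * z := by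
      intro ε z hz
      have : Commute x z := by
        rcases hz with rfl | rfl | rfl
        · exact hxa
        · exact hxr
        · exact hxy
      exact (this.zpow_left ε).symm
    have hmul_a : ∀ q : Q, (∃ (ε k δ : ℤ), q = x ^ ε * r ^ k * a ^ δ) →
        ∃ (ε k δ : ℤ), a * q = x ^ ε * r ^ k * a ^ δ := by
      rintro _ ⟨ε, k, δ, rfl⟩
      refine ⟨ε, -k, 1 + δ, ?_⟩
      calc a * (x ^ ε * r ^ k * a ^ δ) = (a * x ^ ε) * r ^ k * a ^ δ := by group
        _ = x ^ ε * (a * r ^ k) * a ^ δ := by rw [hxc ε a (Or.inl rfl)]; group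
        _ = x ^ ε * (r ^ (-k) * a) * a ^ δ := by rw [hark]
        _ = x ^ ε * r ^ (-k) * a ^ (1 + δ) := by group
    have hmul_x : ∀ q : Q, (∃ (ε k δ : ℤ), q = x ^ ε * r ^ k * a ^ δ) →
        ∃ (ε k δ : ℤ), x * q = x ^ ε * r ^ k * a ^ δ := by
      rintro _ ⟨ε, k, δ, rfl⟩
      exact ⟨1 + ε, k, δ, by group⟩
    have hmul_r : ∀ q : Q, (∃ (ε k δ : ℤ), q = x ^ ε * r ^ k * a ^ δ) →
        ∃ (ε k δ : ℤ), r * q = x ^ ε * r ^ k * a ^ δ := by
      rintro _ ⟨ε, k, δ, rfl⟩
      refine ⟨ε, 1 + k, δ, ?_⟩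
      calc r * (x ^ ε * r ^ k * a ^ δ) = (r * x ^ ε) * r ^ k * a ^ δ := by group
        _ = x ^ ε * r ^ (1 + k) * a ^ δ := by rw [hxc ε r (Or.inr (Or.inl rfl))]; group
    have hmul_y : ∀ q : Q, (∃ (ε k δ : ℤ), q = x ^ ε * r ^ k * a ^ δ) →
        ∃ (ε k δ : ℤ), y * q = x ^ ε * r ^ k * a ^ δ := by
      intro q hq
      have h1 := hmul_a _ (hmul_r q hq)
      have h2 : a * (r * q) = y * q := by
        rw [hr]
        calc a * (a * y * q) = (a * a) * (y * q) := by group
          _ = y * q := by rw [ha, one_mul]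
      rwa [h2] at h1
    intro q
    have hq : q ∈ Subgroup.closure {a, x, y} := by rw [hgen]; trivial
    have key : ∀ z : Q, (∃ (ε k δ : ℤ), z = x ^ ε * r ^ k * a ^ δ) →
        ∃ (ε k δ : ℤ), q * z = x ^ ε * r ^ k * a ^ δ := by
      induction hq using Subgroup.closure_induction with
      | mem w hw =>
        rcases hw with rfl | rfl | rfl
        · exact hmul_a
        · exact hmul_x
        · exact hmul_y
      | one => intro z hz; simpa using hz
      | mul u v _ _ hu hv =>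
        intro z hz
        have := hu _ (hv z hz)
        rwa [← mul_assoc] at this
      | inv u hu' hu =>
        -- the letters are involutions: use closure of the set of inverses
        intro z hz
        clear hu
        have : u⁻¹ ∈ Subgroup.closure {a, x, y} := Subgroup.inv_mem _ hu'
        -- write `u⁻¹` as a product of letters
        have hsym : ∀ w ∈ ({a, x, y} : Set Q), w⁻¹ ∈ ({a, x, y} : Set Q) := by
          rintro w (rfl | rfl | rfl)
          · rw [hainv]; simp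
          · rw [inv_eq_of_mul_eq_one_right hx]; simp
          · rw [hyinv]; simp
        obtain ⟨m, l, -, hl, hlp⟩ := Len.exists_of_mem_closure hsym this
        rw [← hlp]
        clear hlp this
        induction l with
        | nil => simpa using hz
        | cons w l ih =>
          have h1 := ih (fun v hv => hl v (by simp [hv]))
          rw [List.prod_cons, mul_assoc]
          rcases hl w (by simp) with rfl | rfl | rfl
          · exact hmul_a _ h1
          · exact hmul_x _ h1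
          · exact hmul_y _ h1
    have := key 1 ⟨0, 0, 0, by group⟩
    rwa [mul_one] at this
  constructor
  · -- finiteness
    have hfa : IsOfFinOrder a := isOfFinOrder_iff_pow_eq_one.2 ⟨2, by norm_num, by rw [pow_two, ha]⟩
    have hfx : IsOfFinOrder x := isOfFinOrder_iff_pow_eq_one.2 ⟨2, by norm_num, by rw [pow_two, hx]⟩
    have hfr : IsOfFinOrder r := isOfFinOrder_iff_pow_eq_one.2 ⟨16, by norm_num, hay⟩
    have h1 : (Set.univ : Set Q) ⊆
        Set.image2 (fun u v => u * v) (Set.image2 (fun u v => u * v)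
          (Subgroup.zpowers x : Set Q) (Subgroup.zpowers r)) (Subgroup.zpowers a) := by
      intro q _
      obtain ⟨ε, k, δ, rfl⟩ := hnf q
      exact ⟨_, ⟨_, ⟨ε, rfl⟩, _, ⟨k, rfl⟩, rfl⟩, _, ⟨δ, rfl⟩, rfl⟩
    have h2 : (Set.univ : Set Q).Finite := by
      refine Set.Finite.subset ?_ h1
      refine Set.Finite.image2 _ (Set.Finite.image2 _ ?_ ?_) ?_
      · exact (finite_zpowers.2 hfx)
      · exact (finite_zpowers.2 hfr)
      · exact (finite_zpowers.2 hfa)
    exact Set.finite_univ_iff.1 h2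
  · intro q
    obtain ⟨ε, k, δ, rfl⟩ := hnf q
    have hxall : Commute x (r ^ k * a ^ δ) :=
      ((show Commute x r from hxr).zpow_right k).mul_right ((show Commute x a from hxa).zpow_right δ)
    have hx2 : (x ^ ε) ^ 2 ^ 5 = 1 := by
      rw [← zpow_natCast, ← zpow_mul, mul_comm, zpow_mul, zpow_natCast,
        show (2 : ℕ) ^ 5 = 2 * 16 by norm_num, pow_mul, pow_two, hx, one_pow, one_zpow]
    have hr2 : (r ^ k * a ^ δ) ^ 2 ^ 5 = 1 := by
      rcases Int.even_or_odd' δ with ⟨c, hc | hc⟩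
      · have ha0 : a ^ δ = 1 := by
          rw [hc, zpow_mul]
          rw [show a ^ (2 : ℤ) = 1 by rw [zpow_two, ha], one_zpow]
        rw [ha0, mul_one, ← zpow_natCast, ← zpow_mul, mul_comm, zpow_mul, zpow_natCast,
          show (2 : ℕ) ^ 5 = 16 * 2 by norm_num, pow_mul, hay, one_pow, one_zpow]
      · have ha1 : a ^ δ = a := by
          rw [hc, zpow_add, zpow_mul, zpow_one]
          rw [show a ^ (2 : ℤ) = 1 by rw [zpow_two, ha], one_zpow, one_mul]
        rw [ha1, show (2 : ℕ) ^ 5 = 2 * 16 by norm_num, pow_mul]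
        have : (r ^ k * a) ^ 2 = 1 := by
          rw [pow_two]
          calc r ^ k * a * (r ^ k * a) = r ^ k * (a * r ^ k) * a := by group
            _ = r ^ k * (r ^ (-k) * a) * a := by rw [hark]
            _ = a * a := by group
            _ = 1 := ha
        rw [this, one_pow]
    rw [mul_assoc, (hxall.zpow_left ε).mul_pow, hx2, hr2, one_mul]

theorem E_quot (j i : Fin 3) (hij : i ≠ j) : Finite (GF ⧸ (KK j ⊔ RR j i)) ∧
    ∀ q : GF ⧸ (KK j ⊔ RR j i), q ^ 2 ^ 5 = 1 := by
  have hmk : ∀ f ∈ KK j ⊔ RR j i, ((f : GF) : GF ⧸ (KK j ⊔ RR j i)) = 1 := fun f hf =>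
    (QuotientGroup.eq_one_iff f).2 hf
  refine dihedral_aux ((ga : GF) : GF ⧸ (KK j ⊔ RR j i)) ((gb (xv j) : GF) : _)
    ((gb (xv i) : GF) : _) ?_ ?_ ?_ ?_ ?_ ?_ ?_
  · rw [← QuotientGroup.mk_mul, ga_sq, QuotientGroup.mk_one]
  · rw [← QuotientGroup.mk_mul, gb_sq, QuotientGroup.mk_one]
  · rw [← QuotientGroup.mk_mul, gb_sq, QuotientGroup.mk_one]
  · have h1 : ((⁅ga, gb (xv j)⁆ : GF) : GF ⧸ (KK j ⊔ RR j i)) = 1 :=
      hmk _ (Subgroup.mem_sup_left (mem_KK j))
    have h2 : ⁅((ga : GF) : GF ⧸ (KK j ⊔ RR j i)), ((gb (xv j) : GF) : GF ⧸ (KK j ⊔ RR j i))⁆ = 1 := h1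
    exact (commutatorElement_eq_one_iff_mul_comm.1 h2).symm
  · rw [← QuotientGroup.mk_mul, ← QuotientGroup.mk_mul, gb_comm]
  · have h1 : (((ga * gb (xv i)) ^ 16 : GF) : GF ⧸ (KK j ⊔ RR j i)) = 1 :=
      hmk _ (Subgroup.mem_sup_right (Subgroup.subset_normalClosure (by simp)))
    exact h1
  · rw [eq_top_iff]
    intro q _
    induction q using QuotientGroup.induction_on with
    | H f =>
      have h1 : (⊤ : Subgroup GF) = (Subgroup.closure {((ga : GF) : GF ⧸ (KK j ⊔ RR j i)),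
          ((gb (xv j) : GF) : GF ⧸ (KK j ⊔ RR j i)), ((gb (xv i) : GF) : GF ⧸ (KK j ⊔ RR j i))}).comap
          (QuotientGroup.mk' (KK j ⊔ RR j i)) := by
        symm
        apply GF_top
        · exact Subgroup.subset_closure (by simp)
        · intro v
          rw [Subgroup.mem_comap]
          rcases v_cases j i hij v with rfl | rfl | rfl | rfl
          · rw [gb_one, map_one]; exact Subgroup.one_mem _
          · exact Subgroup.subset_closure (by simp)
          · exact Subgroup.subset_closure (by simp)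
          · rw [← gb_mul, map_mul]
            exact Subgroup.mul_mem _ (Subgroup.subset_closure (by simp))
              (Subgroup.subset_closure (by simp))
      have h2 : f ∈ (⊤ : Subgroup GF) := trivial
      rw [h1] at h2
      exact h2

theorem comm_E_le (j i : Fin 3) : ⁅KK j ⊔ RR j i, KK j ⊔ RR j i⁆ ≤ ⁅KK j, KK j⁆ ⊔ RR j i := by
  rw [Subgroup.commutator_le]
  intro g hg h hh
  obtain ⟨k, hk, r, hr, rfl⟩ := Subgroup.mem_sup_of_normal_right.1 hg
  obtain ⟨k', hk', r', hr', rfl⟩ := Subgroup.mem_sup_of_normal_right.1 hh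
  set D := ⁅KK j, KK j⁆ ⊔ RR j i
  rw [← QuotientGroup.eq_one_iff]
  have h1 : ((⁅k * r, k' * r'⁆ : GF) : GF ⧸ D)
      = ⁅((k : GF) : GF ⧸ D) * ((r : GF) : GF ⧸ D), ((k' : GF) : GF ⧸ D) * ((r' : GF) : GF ⧸ D)⁆ := rfl
  have hr1 : ((r : GF) : GF ⧸ D) = 1 := (QuotientGroup.eq_one_iff r).2 (Subgroup.mem_sup_right hr)
  have hr1' : ((r' : GF) : GF ⧸ D) = 1 := (QuotientGroup.eq_one_iff r').2 (Subgroup.mem_sup_right hr')
  rw [h1, hr1, hr1', mul_one, mul_one]
  have h2 : ((⁅k, k'⁆ : GF) : GF ⧸ D) = 1 :=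
    (QuotientGroup.eq_one_iff _).2 (Subgroup.mem_sup_left (Subgroup.commutator_mem_commutator hk hk'))
  exact h2

theorem pow_E (j i : Fin 3) (f : GF) (hf : f ∈ KK j ⊔ RR j i) :
    f ^ 2 ^ 3 ∈ ⁅KK j, KK j⁆ ⊔ RR j i := by
  set D := ⁅KK j, KK j⁆ ⊔ RR j i with hD
  -- the set of elements with this property is a subgroup of `E`
  have hcomm : ∀ g ∈ KK j ⊔ RR j i, ∀ h ∈ KK j ⊔ RR j i,
      Commute ((g : GF) : GF ⧸ D) ((h : GF) : GF ⧸ D) := by
    intro g hg h hh
    have h1 : ((⁅g, h⁆ : GF) : GF ⧸ D) = 1 := (QuotientGroup.eq_one_iff _).2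
      (comm_E_le j i (Subgroup.commutator_mem_commutator hg hh))
    have h2 : ⁅((g : GF) : GF ⧸ D), ((h : GF) : GF ⧸ D)⁆ = 1 := h1
    exact commutatorElement_eq_one_iff_commute.1 h2
  let T : Subgroup GF :=
    { carrier := {g | g ∈ KK j ⊔ RR j i ∧ ((g : GF) : GF ⧸ D) ^ 2 ^ 3 = 1}
      one_mem' := ⟨Subgroup.one_mem _, by simp⟩
      mul_mem' := by
        rintro g h ⟨hg, hg'⟩ ⟨hh, hh'⟩
        refine ⟨Subgroup.mul_mem _ hg hh, ?_⟩
        rw [QuotientGroup.mk_mul, (hcomm g hg h hh).mul_pow, hg', hh', one_mul]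
      inv_mem' := by
        rintro g ⟨hg, hg'⟩
        refine ⟨Subgroup.inv_mem _ hg, ?_⟩
        rw [QuotientGroup.mk_inv, inv_pow, hg', inv_one] }
  have hTn : T.Normal := by
    constructor
    rintro g ⟨hg, hg'⟩ h
    refine ⟨(inferInstance : (KK j ⊔ RR j i).Normal).conj_mem g hg h, ?_⟩
    rw [QuotientGroup.mk_mul, QuotientGroup.mk_mul, QuotientGroup.mk_inv, conj_pow, hg']
    group
  have h1 : KK j ≤ T := by
    unfold KK
    apply Subgroup.normalClosure_le_normal
    rintro x rfl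
    refine ⟨Subgroup.mem_sup_left (mem_KK j), ?_⟩
    have h2 : ⁅ga, gb (xv j)⁆ = (ga * gb (xv j)) ^ 2 := by
      rw [commutatorElement_def, ga_inv, gb_inv, pow_two]; group
    rw [← QuotientGroup.mk_pow, h2, ← pow_mul]
    exact (QuotientGroup.eq_one_iff _).2
      (Subgroup.mem_sup_right (Subgroup.subset_normalClosure (by norm_num)))
  have h2 : RR j i ≤ T := by
    intro r hr
    refine ⟨Subgroup.mem_sup_right hr, ?_⟩
    rw [(QuotientGroup.eq_one_iff r).2 (Subgroup.mem_sup_right hr), one_pow]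
  have h3 : f ∈ T := (sup_le h1 h2) hf
  rw [← QuotientGroup.eq_one_iff]
  exact h3.2

theorem D_pow (j i : Fin 3) (hij : i ≠ j) (f : GF) : f ^ 2 ^ 8 ∈ ⁅KK j, KK j⁆ ⊔ RR j i := by
  have h1 : f ^ 2 ^ 5 ∈ KK j ⊔ RR j i := by
    rw [← QuotientGroup.eq_one_iff, QuotientGroup.mk_pow]
    exact (E_quot j i hij).2 _
  have h2 := pow_E j i _ h1
  rwa [← pow_mul, ← pow_add] at h2

theorem D_finiteIndex (j i : Fin 3) (hij : i ≠ j) : (⁅KK j, KK j⁆ ⊔ RR j i).FiniteIndex := by
  set D := ⁅KK j, KK j⁆ ⊔ RR j i with hD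
  set E := KK j ⊔ RR j i with hE
  have hDE : D ≤ E := sup_le_sup (Subgroup.commutator_le_left _ _) le_rfl
  have hEq := (E_quot j i hij).1
  have hEf : E.FiniteIndex := Subgroup.finiteIndex_of_finite_quotient
  have hEfg : Group.FG E := Subgroup.fg_of_index_ne_zero _
  -- `E/D` is a finitely generated abelian group of finite exponent
  have hcomm : ∀ g ∈ E, ∀ h ∈ E, ⁅g, h⁆ ∈ D := fun g hg h hh =>
    comm_E_le j i (Subgroup.commutator_mem_commutator hg hh)
  let DE : Subgroup E := D.subgroupOf E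
  have hDEn : DE.Normal := inferInstance
  have hab : ∀ a b : E ⧸ DE, a * b = b * a := by
    intro a b
    induction a using QuotientGroup.induction_on with
    | H g =>
      induction b using QuotientGroup.induction_on with
      | H h =>
        have h1 : ((⁅g, h⁆ : E) : E ⧸ DE) = 1 := by
          rw [QuotientGroup.eq_one_iff, Subgroup.mem_subgroupOf]
          exact hcomm g g.2 h h.2
        have h2 : ⁅((g : E) : E ⧸ DE), ((h : E) : E ⧸ DE)⁆ = 1 := h1
        exact commutatorElement_eq_one_iff_mul_comm.1 h2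
  let inst : CommGroup (E ⧸ DE) := { (inferInstance : Group (E ⧸ DE)) with mul_comm := hab }
  have hfg : Group.FG (E ⧸ DE) := inferInstance
  have htors : Monoid.IsTorsion (E ⧸ DE) := by
    intro x
    induction x using QuotientGroup.induction_on with
    | H g =>
      rw [isOfFinOrder_iff_pow_eq_one]
      refine ⟨2 ^ 3, by norm_num, ?_⟩
      have : g ^ 2 ^ 3 ∈ DE := by
        rw [Subgroup.mem_subgroupOf]
        exact pow_E j i g g.2
      exact (QuotientGroup.eq_one_iff _).2 this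
  have hfin : Finite (E ⧸ DE) := CommGroup.finite_of_fg_torsion _ htors
  have hDEf : DE.FiniteIndex := Subgroup.finiteIndex_of_finite_quotient
  constructor
  intro h0
  have h1 := Subgroup.relIndex_mul_index hDE
  rw [h0] at h1
  have h2 : D.relIndex E ≠ 0 := hDEf.index_ne_zero
  exact (mul_ne_zero h2 hEf.index_ne_zero) h1

end Pool.Agent.VW
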