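import Pool.Agent.VW.Grig2
import Pool.Agent.VW.Defs

/-! Grigorchuk's groups `G_ω` and their widths. -/

namespace Pool.Agent.VW

set_option linter.unusedSectionVars false

open Subgroup hiding lowerCentralSeries
open scoped commutatorElement
open Monoid.Coprod (inl inr)

/-- the good levels -/
def goodI (ω : ℕ → Fin 3) (j i : Fin 3) : Set ℕ :=
  {n | ∃ m, n = m + 1 ∧ ω m = j ∧ (∃ k ≤ 2, ω (k + n) = j) ∧ (∃ k ≤ 2, ω (k + n) = i)}

/-- the tower of a sequence -/
noncomputable def towerOf (ω : ℕ → Fin 3) (j i : Fin 3) (hij : i ≠ j)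
    (hI : ∀ m, ∃ n, m ≤ n ∧ n ∈ goodI ω j i) : Tower 2 GF (NN psi ω) where
  K := KK j
  R := RR j i
  Y := Wd Bool
  Ψ n := iter psi n ω
  M n := NN psi (shn n ω)
  nuc := nucl
  I := goodI ω j i
  K_normal := inferInstance
  R_normal := inferInstance
  M_normal n := inferInstance
  finite_Y n := inferInstance
  nonempty_Y n := inferInstance
  nuc_finite := nucl_finite
  I_inf := hI
  mem_N n f := mem_NN_level psi n ω f
  R_le := by
    rintro n ⟨m, -, -, hj, hi⟩
    exact RR_le j i _ hj hi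
  branch := by
    rintro n ⟨m, rfl, hm, -, -⟩ κ hκ
    obtain ⟨f, -, hf1, hf2⟩ := branch_all psi KK branch_one m ω κ (fun y => by rw [hm]; exact hκ y) 0
    refine ⟨f, hf1, fun y => ?_⟩
    rw [hf2]
    simp
  D_fin := D_finiteIndex j i hij
  D_p f := ⟨8, D_pow j i hij f⟩
  act_p n f := ⟨1 * n, act_pow psi 2 1 psi_act n ω f⟩
  trans n y y' := trans_all psi psi_trans
    (fun s x u => by
      obtain ⟨g, hg1, hg2⟩ := psi_sec_surj s x u
      exact ⟨g, by rw [hg1]; rfl, hg2⟩) n ω y y'
  contr f := by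
    obtain ⟨n₀, hn₀⟩ := contr_all psi one_mem_nucl nucl_inv nucl_gen nucl_contr f
    exact ⟨n₀, fun n hn y => hn₀ ω n hn y⟩
  proj n := ⟨dropL n, fun f y => dropL_perm psi n ω f y⟩
  faithful f hf := by
    by_contra hcon
    push Not at hcon
    exact hf hcon

/-- the combinatorial lemma on sequences -/
theorem exists_good (ω : ℕ → Fin 3) (hω : ∀ m, ∃ n, m ≤ n ∧ ω n ≠ ω (n + 1)) (m : ℕ) :
    ∃ n, m ≤ n ∧ ∃ j i, i ≠ j ∧ n ∈ goodI ω j i := by
  by_cases h : ∃ n, m + 1 ≤ n ∧ ω (n - 1) = ω n ∧ ω n ≠ ω (n + 1)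
  · obtain ⟨n, hn, h1, h2⟩ := h
    refine ⟨n, by omega, ω n, ω (n + 1), h2.symm, n - 1, by omega, h1, ⟨0, by omega, by simp⟩,
      ⟨1, by omega, by rw [add_comm]⟩⟩
  · push Not at h
    -- all consecutive symbols differ from `m` on
    have hne : ∀ n, m ≤ n → ω n ≠ ω (n + 1) := by
      intro n hn heq
      have hconst : ∀ k, ω (n + k + 1) = ω (n + k) := by
        intro k
        induction k with
        | zero => exact heq.symm
        | succ k ih =>
          have := h (n + k + 1) (by omega) (by simpa using ih.symm)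
          exact this.symm
      obtain ⟨n', hn', h2⟩ := hω n
      obtain ⟨k, rfl⟩ : ∃ k, n' = n + k := ⟨n' - n, by omega⟩
      exact h2 (hconst k).symm
    have h0 := hne m le_rfl
    have h1 := hne (m + 1) (by omega)
    have h2 := hne (m + 2) (by omega)
    by_cases ha : ω (m + 2) = ω m
    · refine ⟨m + 1, by omega, ω m, ω (m + 1), h0.symm, m, rfl, rfl, ⟨1, by omega, ?_⟩,
        ⟨0, by omega, by simp⟩⟩
      rw [← ha]; congr 1; omega
    · by_cases hb : ω (m + 3) = ω m
      · refine ⟨m + 1, by omega, ω m, ω (m + 1), h0.symm, m, rfl, rfl, ⟨2, by omega, ?_⟩,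
          ⟨0, by omega, by simp⟩⟩
        rw [← hb]; congr 1; omega
      · -- the third symbol
        have hc : ω (m + 3) = ω (m + 1) := by
          generalize ω m = x0 at *
          generalize ω (m + 1) = x1 at *
          generalize hx2 : ω (m + 2) = x2 at *
          generalize hx3 : ω (m + 3) = x3 at *
          clear hx2 hx3 hne h hω
          revert x0 x1 x2 x3
          decide
        refine ⟨m + 2, by omega, ω (m + 1), ω (m + 2), h1.symm, m + 1, rfl, rfl, ⟨1, by omega, ?_⟩,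
          ⟨0, by omega, by simp⟩⟩
        rw [← hc]; congr 1; omega

theorem exists_pair (ω : ℕ → Fin 3) (hω : ∀ m, ∃ n, m ≤ n ∧ ω n ≠ ω (n + 1)) :
    ∃ j i, i ≠ j ∧ ∀ m, ∃ n, m ≤ n ∧ n ∈ goodI ω j i := by
  by_contra hcon
  push Not at hcon
  have h1 : ∀ (p : Fin 3 × Fin 3), ∃ m, p.2 ≠ p.1 → ∀ n, m ≤ n → n ∉ goodI ω p.1 p.2 := by
    rintro ⟨j, i⟩
    by_cases hij : i = j
    · exact ⟨0, fun h => absurd hij h⟩
    · obtain ⟨m, hm⟩ := hcon j i hij
      exact ⟨m, fun _ => hm⟩
  choose m hm using h1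
  obtain ⟨n, hn, j, i, hij, hg⟩ := exists_good ω hω (Finset.univ.sup m)
  exact hm (j, i) hij n ((Finset.le_sup (f := m) (Finset.mem_univ (j, i))).trans hn) hg

theorem FW_GF (ω : ℕ → Fin 3) (hω : ∀ m, ∃ n, m ≤ n ∧ ω n ≠ ω (n + 1)) :
    FiniteWidths (GF ⧸ NN psi ω) := by
  obtain ⟨j, i, hij, hI⟩ := exists_pair ω hω
  have : Fact (Nat.Prime 2) := ⟨Nat.prime_two⟩
  exact (towerOf ω j i hij hI).bounded

/-! ### the concrete groups -/

/-- action on words -/
def actL : (ℕ → Fin 3) → GF → List Bool → List Bool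
  | _, _, [] => []
  | ω, f, x :: w => (psi (ω 0) f).perm x :: actL (sh ω) ((psi (ω 0) f).sec x) w

theorem actL_one : ∀ (ω : ℕ → Fin 3) (w : List Bool), actL ω 1 w = w
  | _, [] => rfl
  | ω, x :: w => by
      simp only [actL, map_one, Wr.one_perm, Wr.one_sec, Equiv.Perm.one_apply]
      rw [actL_one (sh ω) w]

theorem actL_mul : ∀ (ω : ℕ → Fin 3) (f g : GF) (w : List Bool),
    actL ω (f * g) w = actL ω f (actL ω g w)
  | _, _, _, [] => rfl
  | ω, f, g, x :: w => by
      simp only [actL, map_mul, Wr.mul_perm, Wr.mul_sec, Equiv.Perm.mul_apply]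
      rw [actL_mul (sh ω)]

/-- the action as a homomorphism -/
def PP (ω : ℕ → Fin 3) : GF →* Equiv.Perm (List Bool) where
  toFun f :=
    { toFun := actL ω f
      invFun := actL ω f⁻¹
      left_inv := fun w => by rw [← actL_mul, inv_mul_cancel, actL_one]
      right_inv := fun w => by rw [← actL_mul, mul_inv_cancel, actL_one] }
  map_one' := by ext w : 1; exact actL_one ω w
  map_mul' f g := by ext w : 1; exact actL_mul ω f g w

theorem PP_apply (ω : ℕ → Fin 3) (f : GF) (w : List Bool) : PP ω f w = actL ω f w := rfl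

/-- words as lists -/
def toL : ∀ n, Wd Bool n → List Bool
  | 0, _ => []
  | n + 1, v => v.1 :: toL n v.2

theorem toL_perm : ∀ (n : ℕ) (ω : ℕ → Fin 3) (f : GF) (v : Wd Bool n),
    toL n ((iter psi n ω f).perm v) = actL ω f (toL n v)
  | 0, _, _, _ => rfl
  | n + 1, ω, f, ⟨x, w⟩ => by
      rw [iter_succ_perm]
      change (psi (ω 0) f).perm x :: toL n _ = actL ω f (x :: toL n w)
      simp only [actL]
      rw [toL_perm n (sh ω)]

theorem toL_inj : ∀ (n : ℕ), Function.Injective (toL n)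
  | 0 => fun _ _ _ => rfl
  | n + 1 => by
      rintro ⟨x, w⟩ ⟨x', w'⟩ h
      have h' : x :: toL n w = x' :: toL n w' := h
      rw [List.cons.injEq] at h'
      obtain ⟨rfl, h2⟩ := h'
      rw [toL_inj n h2]

theorem toL_surj : ∀ l : List Bool, ∃ v, toL l.length v = l
  | [] => ⟨(), rfl⟩
  | x :: l => by
      obtain ⟨v, hv⟩ := toL_surj l
      exact ⟨(x, v), by simp only [List.length_cons, toL]; rw [hv]⟩

theorem PP_ker (ω : ℕ → Fin 3) : (PP ω).ker = NN psi ω := by
  ext f
  constructor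
  · intro h n
    apply Equiv.ext
    intro v
    apply toL_inj n
    rw [toL_perm]
    have h1 : PP ω f = 1 := h
    have := congrArg (fun σ : Equiv.Perm (List Bool) => σ (toL n v)) h1
    exact this
  · intro h
    change PP ω f = 1
    apply Equiv.ext
    intro l
    obtain ⟨v, hv⟩ := toL_surj l
    rw [PP_apply, ← hv, ← toL_perm, h]
    rfl

theorem PP_a (ω : ℕ → Fin 3) : PP ω ga = aPerm := by
  apply Equiv.ext
  intro l
  rw [PP_apply]
  cases l with
  | nil => rfl
  | cons x w =>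
    simp only [actL, psi_a_perm, psi_a_sec, actL_one]
    rfl

theorem actL_a (ω : ℕ → Fin 3) (w : List Bool) : actL ω ga w = aFun w := by
  have := congrArg (fun σ : Equiv.Perm (List Bool) => σ w) (PP_a ω)
  exact this

theorem PP_b (s : Fin 3) : ∀ (ω : ℕ → Fin 3) (w : List Bool), actL ω (gb (xv s)) w = dFun s ω w
  | _, [] => rfl
  | ω, false :: w => by
      simp only [actL, psi_b_perm, Equiv.Perm.one_apply, dFun]
      by_cases h : ω 0 = s
      · rw [psi_b_sec_false_of_one ((lam_xv _ _).2 h), actL_one, if_pos h]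
      · rw [psi_b_sec_false_of_ne (fun h' => h ((lam_xv _ _).1 h')), actL_a, if_neg h]
  | ω, true :: w => by
      simp only [actL, psi_b_perm, Equiv.Perm.one_apply, dFun, psi_b_sec_true]
      rw [PP_b s (sh ω) w]
      rfl

theorem PP_range (ω : ℕ → Fin 3) : (PP ω).range = Grigorchuk ω := by
  have hb : ∀ s, PP ω (gb (xv s)) = dPerm s ω := by
    intro s
    apply Equiv.ext
    intro w
    exact PP_b s ω w
  apply le_antisymm
  · rintro _ ⟨f, rfl⟩
    have h1 : (⊤ : Subgroup GF) = (Grigorchuk ω).comap (PP ω) := by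
      symm
      apply GF_top
      · rw [Subgroup.mem_comap, PP_a]; exact Subgroup.subset_closure (by simp)
      · intro v
        rw [Subgroup.mem_comap]
        rcases v_cases 0 1 (by decide) v with rfl | rfl | rfl | rfl
        · rw [gb_one, map_one]; exact Subgroup.one_mem _
        · rw [hb]; exact Subgroup.subset_closure (by simp)
        · rw [hb]; exact Subgroup.subset_closure (by simp)
        · rw [← gb_mul, map_mul, hb, hb]
          exact Subgroup.mul_mem _ (Subgroup.subset_closure (by simp))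
            (Subgroup.subset_closure (by simp))
    have h2 : f ∈ (⊤ : Subgroup GF) := trivial
    rw [h1] at h2
    exact h2
  · unfold Grigorchuk
    rw [Subgroup.closure_le]
    rintro x (rfl | rfl | rfl | rfl)
    · exact ⟨ga, PP_a ω⟩
    · exact ⟨_, hb 0⟩
    · exact ⟨_, hb 1⟩
    · exact ⟨_, hb 2⟩

theorem not_eventually_const (ω : ℕ → Fin 3) (h : ¬ ∃ s n₀, ∀ n, n₀ ≤ n → ω n = s) (m : ℕ) :
    ∃ n, m ≤ n ∧ ω n ≠ ω (n + 1) := by
  by_contra hcon
  push Not at hcon
  apply h
  refine ⟨ω m, m, fun n hn => ?_⟩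
  induction hn with
  | refl => rfl
  | step hk ih => rw [← ih]; exact (hcon _ hk).symm

/-- Every conjugation-invariant symmetric subset of a Grigorchuk group `G_ω` (`ω` not eventually
constant) has finite width. -/
theorem grigorchuk_finiteWidths (ω : ℕ → Fin 3) (h : ¬ ∃ s n₀, ∀ n, n₀ ≤ n → ω n = s) :
    FiniteWidths (Grigorchuk ω) := by
  have h1 := FW_GF ω (not_eventually_const ω h)
  have e1 : GF ⧸ NN psi ω ≃* GF ⧸ (PP ω).ker :=
    QuotientGroup.quotientMulEquivOfEq (PP_ker ω).symm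
  have e2 : GF ⧸ (PP ω).ker ≃* (PP ω).range := QuotientGroup.quotientKerEquivRange (PP ω)
  have e3 : (PP ω).range ≃* Grigorchuk ω := MulEquiv.subgroupCongr (PP_range ω)
  exact ((h1.of_equiv e1).of_equiv e2).of_equiv e3

end Pool.Agent.VW
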