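import Pool.Agent.VW.Bounded

/-! Iterating wreath recursions. -/

namespace Pool.Agent.VW

set_option linter.unusedSectionVars false

open Subgroup hiding lowerCentralSeries
open scoped commutatorElement

/-- words of length `n` -/
def Wd (X : Type) : ℕ → Type
  | 0 => Unit
  | n + 1 => X × Wd X n

instance Wd.finite (X : Type) [Finite X] : ∀ n, Finite (Wd X n)
  | 0 => inferInstanceAs (Finite Unit)
  | n + 1 =>
    have := Wd.finite X n
    inferInstanceAs (Finite (X × Wd X n))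

instance Wd.nonempty (X : Type) [Nonempty X] : ∀ n, Nonempty (Wd X n)
  | 0 => inferInstanceAs (Nonempty Unit)
  | n + 1 =>
    have := Wd.nonempty X n
    inferInstanceAs (Nonempty (X × Wd X n))

/-- iterated wreath products -/
def join {A X Y : Type} [Group A] : Wr (Wr A Y) X →* Wr A (X × Y) where
  toFun g :=
    { perm :=
        { toFun := fun v => (g.perm v.1, (g.sec v.1).perm v.2)
          invFun := fun v => (g.perm.symm v.1, (g.sec (g.perm.symm v.1)).perm.symm v.2)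
          left_inv := fun v => by simp
          right_inv := fun v => by simp }
      sec := fun v => (g.sec v.1).sec v.2 }
  map_one' := by
    apply Wr.ext
    · ext v <;> rfl
    · rfl
  map_mul' g h := by
    apply Wr.ext
    · ext v <;> rfl
    · rfl

@[simp] theorem join_perm {A X Y : Type} [Group A] (g : Wr (Wr A Y) X) (x : X) (y : Y) :
    (join g).perm (x, y) = (g.perm x, (g.sec x).perm y) := rfl

@[simp] theorem join_sec {A X Y : Type} [Group A] (g : Wr (Wr A Y) X) (x : X) (y : Y) :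
    (join g).sec (x, y) = (g.sec x).sec y := rfl

/-- level zero -/
def iter0 (F : Type) [Group F] : F →* Wr F Unit where
  toFun f := ⟨1, fun _ => f⟩
  map_one' := rfl
  map_mul' f g := by
    apply Wr.ext
    · simp
    · funext y; simp

/-- the shift -/
def sh {S : Type} (ω : ℕ → S) : ℕ → S := fun k => ω (k + 1)

/-- the iterated shift -/
def shn {S : Type} (n : ℕ) (ω : ℕ → S) : ℕ → S := fun k => ω (k + n)

theorem shn_succ {S : Type} (n : ℕ) (ω : ℕ → S) : shn (n + 1) ω = shn n (sh ω) := rfl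

section

variable {F X S : Type} [Group F] (ψ : S → F →* Wr F X)

/-- iterated wreath recursion along a sequence of symbols -/
def iter : ∀ n : ℕ, (ℕ → S) → F →* Wr F (Wd X n)
  | 0, _ => iter0 F
  | n + 1, ω => (join : Wr (Wr F (Wd X n)) X →* Wr F (X × Wd X n)).comp
      ((Wr.map (iter n (sh ω))).comp (ψ (ω 0)))

theorem iter_zero_perm (ω : ℕ → S) (f : F) : (iter ψ 0 ω f).perm = 1 := rfl
theorem iter_zero_sec (ω : ℕ → S) (f : F) (y : Wd X 0) : (iter ψ 0 ω f).sec y = f := rfl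

theorem iter_succ_perm (n : ℕ) (ω : ℕ → S) (f : F) (x : X) (w : Wd X n) :
    (iter ψ (n + 1) ω f).perm (x, w)
      = ((ψ (ω 0) f).perm x, (iter ψ n (sh ω) ((ψ (ω 0) f).sec x)).perm w) := rfl

theorem iter_succ_sec (n : ℕ) (ω : ℕ → S) (f : F) (x : X) (w : Wd X n) :
    (iter ψ (n + 1) ω f).sec (x, w) = (iter ψ n (sh ω) ((ψ (ω 0) f).sec x)).sec w := rfl

theorem iter_perm_eq_one [Nonempty X] (n : ℕ) (ω : ℕ → S) (f : F) :
    (iter ψ (n + 1) ω f).perm = 1 ↔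
      (ψ (ω 0) f).perm = 1 ∧ ∀ x, (iter ψ n (sh ω) ((ψ (ω 0) f).sec x)).perm = 1 := by
  constructor
  · intro h
    have h1 : ∀ (x : X) (w : Wd X n), (iter ψ (n + 1) ω f).perm (x, w) = (x, w) := by
      intro x w; rw [h]; rfl
    constructor
    · ext x
      obtain ⟨w⟩ := Wd.nonempty X n
      have := h1 x w
      rw [iter_succ_perm] at this
      exact congrArg Prod.fst this
    · intro x
      ext w
      have := h1 x w
      rw [iter_succ_perm] at this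
      exact congrArg Prod.snd this
  · rintro ⟨h1, h2⟩
    apply Equiv.ext
    rintro ⟨x, w⟩
    rw [iter_succ_perm, h1, h2]
    rfl

/-- elements acting trivially on the tree of `ω` -/
def NN (ω : ℕ → S) : Subgroup F where
  carrier := {f | ∀ n, (iter ψ n ω f).perm = 1}
  one_mem' n := by simp
  mul_mem' {f g} hf hg n := by
    simp only [Set.mem_ofPred_eq] at hf hg
    simp [hf n, hg n]
  inv_mem' {f} hf n := by
    simp only [Set.mem_ofPred_eq] at hf
    simp [hf n]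

theorem mem_NN {ω : ℕ → S} {f : F} : f ∈ NN ψ ω ↔ ∀ n, (iter ψ n ω f).perm = 1 := Iff.rfl

instance NN_normal (ω : ℕ → S) : (NN ψ ω).Normal := by
  constructor
  intro f hf g n
  have := hf n
  simp [this]

theorem mem_NN_step [Nonempty X] {ω : ℕ → S} {f : F} :
    f ∈ NN ψ ω ↔ (ψ (ω 0) f).perm = 1 ∧ ∀ x, (ψ (ω 0) f).sec x ∈ NN ψ (sh ω) := by
  constructor
  · intro h
    refine ⟨((iter_perm_eq_one ψ 0 ω f).1 (h 1)).1, fun x n => ?_⟩
    exact ((iter_perm_eq_one ψ n ω f).1 (h (n + 1))).2 x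
  · rintro ⟨h1, h2⟩ n
    cases n with
    | zero => rfl
    | succ n => exact (iter_perm_eq_one ψ n ω f).2 ⟨h1, fun x => h2 x n⟩

theorem mem_NN_level [Nonempty X] (n : ℕ) : ∀ (ω : ℕ → S) (f : F),
    f ∈ NN ψ ω ↔ (iter ψ n ω f).perm = 1 ∧ ∀ y, (iter ψ n ω f).sec y ∈ NN ψ (shn n ω) := by
  induction n with
  | zero =>
    intro ω f
    constructor
    · intro h
      exact ⟨rfl, fun _ => h⟩
    · rintro ⟨-, h⟩
      exact h ()
  | succ n ih =>
    intro ω f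
    rw [mem_NN_step, iter_perm_eq_one, shn_succ]
    constructor
    · rintro ⟨h1, h2⟩
      refine ⟨⟨h1, fun x => ((ih _ _).1 (h2 x)).1⟩, ?_⟩
      rintro ⟨x, w⟩
      exact ((ih _ _).1 (h2 x)).2 w
    · rintro ⟨⟨h1, h2⟩, h3⟩
      exact ⟨h1, fun x => (ih _ _).2 ⟨h2 x, fun w => h3 (x, w)⟩⟩

/-- dropping the last letter -/
def dropL : ∀ n, Wd X (n + 1) → Wd X n
  | 0, _ => ()
  | n + 1, v => (v.1, dropL n v.2)

theorem dropL_perm : ∀ (n : ℕ) (ω : ℕ → S) (f : F) (y : Wd X (n + 1)),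
    dropL n ((iter ψ (n + 1) ω f).perm y) = (iter ψ n ω f).perm (dropL n y)
  | 0, _, _, _ => rfl
  | n + 1, ω, f, ⟨x, w⟩ => by
    rw [iter_succ_perm]
    change ((ψ (ω 0) f).perm x, dropL n _) = (iter ψ (n + 1) ω f).perm (x, dropL n w)
    rw [iter_succ_perm, dropL_perm n (sh ω)]

theorem contr_step {nuc : Set F} (h : ∀ s, ∀ f ∈ nuc, ∀ g ∈ nuc, ∀ x, (ψ s (f * g)).sec x ∈ nuc) :
    ∀ (n : ℕ) (ω : ℕ → S) (f g : F), (∀ y, (iter ψ n ω f).sec y ∈ nuc) →
      (∀ y, (iter ψ n ω g).sec y ∈ nuc) → ∀ y, (iter ψ (n + 1) ω (f * g)).sec y ∈ nuc := by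
  intro n
  induction n with
  | zero =>
    rintro ω f g hf hg ⟨x, w⟩
    rw [iter_succ_sec]
    exact h _ f (hf ()) g (hg ()) x
  | succ n ih =>
    rintro ω f g hf hg ⟨x, w⟩
    rw [iter_succ_sec]
    have e : (ψ (ω 0) (f * g)).sec x = (ψ (ω 0) f).sec ((ψ (ω 0) g).perm x) * (ψ (ω 0) g).sec x := by
      rw [map_mul]; rfl
    rw [e]
    apply ih
    · intro w'
      exact hf ((ψ (ω 0) g).perm x, w')
    · intro w'
      exact hg (x, w')

theorem contr_all {nuc : Set F} (h1 : 1 ∈ nuc) (hinv : ∀ f ∈ nuc, f⁻¹ ∈ nuc)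
    (hgen : Subgroup.closure nuc = ⊤)
    (h : ∀ s, ∀ f ∈ nuc, ∀ g ∈ nuc, ∀ x, (ψ s (f * g)).sec x ∈ nuc) (f : F) :
    ∃ n₀, ∀ (ω : ℕ → S) (n : ℕ), n₀ ≤ n → ∀ y, (iter ψ n ω f).sec y ∈ nuc := by
  have hsec : ∀ s, ∀ f ∈ nuc, ∀ x, (ψ s f).sec x ∈ nuc := by
    intro s f hf x
    have := h s f hf 1 h1 x
    rwa [mul_one] at this
  have hf : f ∈ Subgroup.closure nuc := by rw [hgen]; trivial
  induction hf using Subgroup.closure_induction with
  | mem f hf =>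
    refine ⟨0, ?_⟩
    have key : ∀ (n : ℕ) (ω : ℕ → S) (f : F), f ∈ nuc → ∀ y, (iter ψ n ω f).sec y ∈ nuc := by
      intro n
      induction n with
      | zero => intro ω f hf y; exact hf
      | succ n ih =>
        rintro ω f hf ⟨x, w⟩
        rw [iter_succ_sec]
        exact ih _ _ (hsec _ f hf x) w
    exact fun ω n _ y => key n ω f hf y
  | one =>
    refine ⟨0, fun ω n _ y => ?_⟩
    simpa using h1
  | mul a b _ _ ha hb =>
    obtain ⟨n₁, hn₁⟩ := ha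
    obtain ⟨n₂, hn₂⟩ := hb
    refine ⟨max n₁ n₂ + 1, fun ω n hn y => ?_⟩
    obtain ⟨m, rfl⟩ : ∃ m, n = m + 1 := ⟨n - 1, by omega⟩
    have hm1 : n₁ ≤ m := by omega
    have hm2 : n₂ ≤ m := by omega
    exact contr_step ψ h m ω a b (hn₁ ω m hm1) (hn₂ ω m hm2) y
  | inv a _ ha =>
    obtain ⟨n₁, hn₁⟩ := ha
    refine ⟨n₁, fun ω n hn y => ?_⟩
    rw [map_inv, Wr.inv_sec]
    exact hinv _ (hn₁ ω n hn _)

theorem act_pow (p k : ℕ) (h : ∀ s f, (ψ s f).perm ^ p ^ k = 1) :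
    ∀ (n : ℕ) (ω : ℕ → S) (f : F), (iter ψ n ω f).perm ^ p ^ (k * n) = 1 := by
  intro n
  induction n with
  | zero => intro ω f; rw [iter_zero_perm, one_pow]
  | succ n ih =>
    intro ω f
    have e : (iter ψ (n + 1) ω f).perm ^ p ^ (k * (n + 1))
        = (iter ψ (n + 1) ω ((f ^ p ^ k) ^ p ^ (k * n))).perm := by
      rw [map_pow, map_pow, Wr.pow_perm, Wr.pow_perm, ← pow_mul, ← pow_add]
      congr 2; ring
    rw [e]
    set g := f ^ p ^ k with hg
    have h1 : (ψ (ω 0) g).perm = 1 := by rw [hg, map_pow, Wr.pow_perm, h]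
    apply Equiv.ext
    rintro ⟨x, w⟩
    rw [iter_succ_perm]
    have h2 : (ψ (ω 0) (g ^ p ^ (k * n))).perm = 1 := by rw [map_pow, Wr.pow_perm, h1, one_pow]
    have h3 : (ψ (ω 0) (g ^ p ^ (k * n))).sec x = ((ψ (ω 0) g).sec x) ^ p ^ (k * n) := by
      rw [map_pow, Wr.pow_sec_of_perm _ h1]
    rw [h2, h3, map_pow, Wr.pow_perm, ih]
    rfl

theorem trans_all (h1 : ∀ s x x', ∃ f, (ψ s f).perm x = x')
    (h2 : ∀ s x u, ∃ g, (ψ s g).perm x = x ∧ (ψ s g).sec x = u) :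
    ∀ (n : ℕ) (ω : ℕ → S) (y y' : Wd X n), ∃ f, (iter ψ n ω f).perm y = y' := by
  intro n
  induction n with
  | zero => intro ω y y'; exact ⟨1, rfl⟩
  | succ n ih =>
    rintro ω ⟨x, w⟩ ⟨x', w'⟩
    obtain ⟨f, hf⟩ := h1 (ω 0) x x'
    obtain ⟨u, hu⟩ := ih (sh ω) ((iter ψ n (sh ω) ((ψ (ω 0) f).sec x)).perm w) w'
    obtain ⟨g, hg1, hg2⟩ := h2 (ω 0) x' u
    refine ⟨g * f, ?_⟩
    have e : (iter ψ (n + 1) ω (g * f)).perm (x, w)
        = (iter ψ (n + 1) ω g).perm ((iter ψ (n + 1) ω f).perm (x, w)) := by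
      rw [map_mul]; rfl
    rw [e, iter_succ_perm, iter_succ_perm, hf, hg1, hg2, hu]

theorem branch_all (K : S → Subgroup F)
    (h : ∀ s s', ∀ κ : X → F, (∀ x, κ x ∈ K s) → ∃ f ∈ K s', (ψ s f).perm = 1 ∧
      ∀ x, (ψ s f).sec x = κ x) :
    ∀ (n : ℕ) (ω : ℕ → S) (κ : Wd X (n + 1) → F), (∀ y, κ y ∈ K (ω n)) → ∀ s',
      ∃ f ∈ K s', (iter ψ (n + 1) ω f).perm = 1 ∧ ∀ y, (iter ψ (n + 1) ω f).sec y = κ y := by
  intro n
  induction n with
  | zero =>
    intro ω κ hκ s'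
    obtain ⟨f, hf, hf1, hf2⟩ := h (ω 0) s' (fun x => κ (x, ())) (fun x => hκ _)
    refine ⟨f, hf, ?_, ?_⟩
    · apply Equiv.ext
      rintro ⟨x, w⟩
      rw [iter_succ_perm, hf1]
      rfl
    · rintro ⟨x, w⟩
      exact hf2 x
  | succ n ih =>
    intro ω κ hκ s'
    have h1 : ∀ x, ∃ f ∈ K (ω 0), (iter ψ (n + 1) (sh ω) f).perm = 1 ∧
        ∀ y, (iter ψ (n + 1) (sh ω) f).sec y = κ (x, y) := by
      intro x
      exact ih (sh ω) (fun y => κ (x, y)) (fun y => hκ _) (ω 0)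
    choose g hg hg1 hg2 using h1
    obtain ⟨f, hf, hf1, hf2⟩ := h (ω 0) s' g hg
    refine ⟨f, hf, ?_, ?_⟩
    · apply Equiv.ext
      rintro ⟨x, w⟩
      rw [iter_succ_perm, hf1, hf2, hg1]
      rfl
    · rintro ⟨x, w⟩
      rw [iter_succ_sec, hf2, hg2]

end

end Pool.Agent.VW
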