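import Mathlib

/-! Groups with separating actions satisfy no law. -/

namespace Pool.Agent.VW

section Law

variable {G X : Type} [Group G] [MulAction G X]

/-- action of a letter -/
def lt (f : ℕ → G) (p : ℕ × Bool) : G := cond p.2 (f p.1) (f p.1)⁻¹

/-- end point of the path of a word -/
def endp (f : ℕ → G) (x : X) : List (ℕ × Bool) → X
  | [] => x
  | p :: L => lt f p • endp f x L

/-- all points of the path -/
def pts (f : ℕ → G) (x : X) : List (ℕ × Bool) → List X
  | [] => [x]
  | p :: L => endp f x (p :: L) :: pts f x L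

theorem endp_mem (f : ℕ → G) (x : X) : ∀ L, endp f x L ∈ pts f x L
  | [] => List.mem_singleton.2 rfl
  | _ :: _ => List.mem_cons_self

theorem endp_eq (f : ℕ → G) (x : X) : ∀ L : List (ℕ × Bool),
    endp f x L = (L.map (lt f)).prod • x
  | [] => by simp [endp]
  | p :: L => by rw [endp, endp_eq f x L, List.map_cons, List.prod_cons, mul_smul]

/-- modification of one letter -/
def modf (f : ℕ → G) (t : G) (p : ℕ × Bool) : ℕ → G :=
  Function.update f p.1 (cond p.2 (f p.1 * t) (t⁻¹ * f p.1))

theorem lt_modf_ne (f : ℕ → G) (t : G) (p q : ℕ × Bool) (h : q.1 ≠ p.1) :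
    lt (modf f t p) q = lt f q := by
  unfold lt modf
  rw [Function.update_of_ne h]

theorem lt_modf_same (f : ℕ → G) (t : G) (p : ℕ × Bool) : lt (modf f t p) p = lt f p * t := by
  obtain ⟨i, b⟩ := p
  cases b <;> simp [lt, modf]

theorem lt_modf_op (f : ℕ → G) (t : G) (i : ℕ) (b : Bool) :
    lt (modf f t (i, b)) (i, !b) = t⁻¹ * lt f (i, !b) := by
  cases b <;> simp [lt, modf]

theorem modf_step (f : ℕ → G) (t : G) (p q : ℕ × Bool) (y : X) (h1 : t • y = y)
    (h2 : q = (p.1, !p.2) → t • (lt f q • y) = lt f q • y) :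
    lt (modf f t p) q • y = lt f q • y := by
  by_cases h : q.1 = p.1
  · by_cases h' : q.2 = p.2
    · have : q = p := Prod.ext h h'
      subst this
      rw [lt_modf_same, mul_smul, h1]
    · have hq : q = (p.1, !p.2) := by
        obtain ⟨q1, q2⟩ := q
        obtain ⟨p1, p2⟩ := p
        simp only at h h'
        subst h
        cases q2 <;> cases p2 <;> simp_all
      have h3 := h2 hq
      obtain ⟨i, b⟩ := p
      subst hq
      rw [lt_modf_op, mul_smul]
      rw [inv_smul_eq_iff]
      exact h3.symm
  · rw [lt_modf_ne _ _ _ _ h]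

theorem modf_all (f : ℕ → G) (t : G) (p : ℕ × Bool) (x : X) : ∀ L : List (ℕ × Bool),
    (∀ y ∈ pts f x L, t • y = y) →
      endp (modf f t p) x L = endp f x L ∧ pts (modf f t p) x L = pts f x L
  | [] => fun _ => ⟨rfl, rfl⟩
  | q :: L => by
      intro h
      obtain ⟨h1, h2⟩ := modf_all f t p x L fun y hy => h y (List.mem_cons_of_mem _ hy)
      have h3 : endp (modf f t p) x (q :: L) = endp f x (q :: L) := by
        change lt (modf f t p) q • endp (modf f t p) x L = lt f q • endp f x L
        rw [h1]
        exact modf_step f t p q _ (h _ (List.mem_cons_of_mem _ (endp_mem f x L)))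
          fun _ => h _ List.mem_cons_self
      refine ⟨h3, ?_⟩
      rw [pts, pts, h2, h3]

theorem exists_path (hsep : ∀ (Y : Set X), Y.Finite → ∀ x ∉ Y, ∀ Z : Set X, Z.Finite →
    ∃ t : G, (∀ y ∈ Y, t • y = y) ∧ t • x ∉ Z) (x : X) : ∀ L : List (ℕ × Bool),
    FreeGroup.IsReduced L → ∃ f : ℕ → G, (pts f x L).Nodup
  | [] => fun _ => ⟨1, by simp [pts]⟩
  | p :: L => by
      intro hL
      have hL' : FreeGroup.IsReduced L := by
        cases L with
        | nil => exact FreeGroup.IsReduced.nil
        | cons q L => exact (FreeGroup.isReduced_cons_cons.1 hL).2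
      obtain ⟨f, hf⟩ := exists_path hsep x L hL'
      -- the points of the path before the last one
      cases L with
      | nil =>
        obtain ⟨t, -, ht⟩ := hsep ∅ Set.finite_empty x (by simp) {y | lt f p • y = x}
          ((Set.finite_singleton ((lt f p)⁻¹ • x)).subset fun y hy => by
            rw [Set.mem_singleton_iff, eq_inv_smul_iff]; exact hy)
        refine ⟨modf f t p, ?_⟩
        change [lt (modf f t p) p • x, x].Nodup
        rw [lt_modf_same, mul_smul, List.nodup_cons]
        exact ⟨fun h => ht (List.mem_singleton.1 h), List.nodup_singleton _⟩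
      | cons q L =>
        rw [FreeGroup.isReduced_cons_cons] at hL
        have hqp : q ≠ (p.1, !p.2) := by
          intro h
          have := hL.1 (by rw [h])
          rw [h] at this
          cases h2 : p.2 <;> simp [h2] at this
        have hnd := List.nodup_cons.1 hf
        obtain ⟨t, ht1, ht2⟩ := hsep {y | y ∈ pts f x L} (List.finite_toSet _)
          (endp f x (q :: L)) hnd.1 {y | lt f p • y ∈ pts f x (q :: L)}
          (((List.finite_toSet (pts f x (q :: L))).image fun y => (lt f p)⁻¹ • y).subset
            fun y hy => ⟨lt f p • y, hy, inv_smul_smul _ _⟩)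
        refine ⟨modf f t p, ?_⟩
        obtain ⟨h1, h2⟩ := modf_all f t p x L ht1
        have h3 : endp (modf f t p) x (q :: L) = endp f x (q :: L) := by
          change lt (modf f t p) q • endp (modf f t p) x L = lt f q • endp f x L
          rw [h1]
          exact modf_step f t p q _ (ht1 _ (endp_mem f x L)) fun h => absurd h hqp
        have h4 : pts (modf f t p) x (q :: L) = pts f x (q :: L) := by
          rw [pts, pts, h2, h3]
        rw [pts, h4, List.nodup_cons]
        refine ⟨?_, hf⟩
        change lt (modf f t p) p • endp (modf f t p) x (q :: L) ∉ _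
        rw [h3, lt_modf_same, mul_smul]
        exact ht2

/-- a group with such an action satisfies no law -/
theorem no_law [Nonempty X] (hsep : ∀ (Y : Set X), Y.Finite → ∀ x ∉ Y, ∀ Z : Set X, Z.Finite →
    ∃ t : G, (∀ y ∈ Y, t • y = y) ∧ t • x ∉ Z) (w : FreeGroup ℕ) (hw : w ≠ 1) :
    ∃ f : ℕ → G, FreeGroup.lift f w ≠ 1 := by
  obtain ⟨x⟩ := ‹Nonempty X›
  obtain ⟨f, hf⟩ := exists_path hsep x w.toWord FreeGroup.isReduced_toWord
  refine ⟨f, fun hcon => ?_⟩
  have h1 : FreeGroup.lift f w = (w.toWord.map (lt f)).prod := by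
    conv_lhs => rw [← FreeGroup.mk_toWord (x := w)]
    rfl
  have h2 : endp f x w.toWord = x := by
    rw [endp_eq, ← h1, hcon, one_smul]
  have h3 : w.toWord ≠ [] := fun h => hw (FreeGroup.toWord_eq_nil_iff.1 h)
  have hx : ∀ L : List (ℕ × Bool), x ∈ pts f x L := by
    intro L
    induction L with
    | nil => exact List.mem_singleton.2 rfl
    | cons p L ih => exact List.mem_cons_of_mem _ ih
  cases hl : w.toWord with
  | nil => exact h3 hl
  | cons p L =>
    rw [hl] at hf h2
    rw [pts, h2, List.nodup_cons] at hf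
    exact hf.1 (hx L)

end Law

end Pool.Agent.VW
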