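import Mathlib

/-! In a nilpotent group generated by `x₁, …, x_e`, every element of the commutator subgroup is a
product `⁅y₁, x₁⁆ ⋯ ⁅y_e, x_e⁆`. -/

namespace Pool.Agent.VW

open Subgroup hiding lowerCentralSeries lowerCentralSeries_zero lowerCentralSeries_succ
open scoped commutatorElement

/-- `PC xs k`: `k = ⁅y₁, x₁⁆ ⋯ ⁅y_e, x_e⁆` for some `y₁, …, y_e`, where `xs = [x₁, …, x_e]`. -/
def PC {P : Type*} [Group P] : List P → P → Prop
  | [], k => k = 1
  | x :: xs, k => ∃ (y : P) (k' : P), k = ⁅y, x⁆ * k' ∧ PC xs k'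

/-- The same with the `y`'s in a subgroup `U`. -/
def PCin {P : Type*} [Group P] (U : Subgroup P) : List P → P → Prop
  | [], k => k = 1
  | x :: xs, k => ∃ y ∈ U, ∃ k', k = ⁅y, x⁆ * k' ∧ PCin U xs k'

theorem PC.map {P Q : Type*} [Group P] [Group Q] (φ : P →* Q) :
    ∀ (xs : List P) (k : P), PC xs k → PC (xs.map φ) (φ k)
  | [], k, h => by
      simp only [PC] at h
      simp [PC, h]
  | x :: xs, k, h => by
      obtain ⟨y, k', rfl, hk'⟩ := h
      exact ⟨φ y, φ k', by simp [map_commutatorElement], PC.map φ xs k' hk'⟩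

theorem PC.lift {P Q : Type*} [Group P] [Group Q] (φ : P →* Q) (hφ : Function.Surjective φ) :
    ∀ (xs : List P) (k : Q), PC (xs.map φ) k → ∃ k₀ : P, φ k₀ = k ∧ PC xs k₀
  | [], k, h => by
      simp only [List.map_nil, PC] at h
      exact ⟨1, by simp [h], rfl⟩
  | x :: xs, k, h => by
      obtain ⟨y, k', rfl, hk'⟩ := h
      obtain ⟨y₀, rfl⟩ := hφ y
      obtain ⟨k₀, rfl, hk₀⟩ := PC.lift φ hφ xs k' hk'
      exact ⟨⁅y₀, x⁆ * k₀, by simp [map_commutatorElement], y₀, k₀, rfl, hk₀⟩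

theorem PC.one {P : Type*} [Group P] : ∀ xs : List P, PC xs (1 : P)
  | [] => rfl
  | x :: xs => ⟨1, 1, by simp, PC.one xs⟩

section central

variable {P : Type*} [Group P] (U : Subgroup P)

theorem PCin.one : ∀ xs : List P, PCin U xs (1 : P)
  | [] => rfl
  | _ :: xs => ⟨1, U.one_mem, 1, by simp, PCin.one xs⟩

/-- hypotheses: `⁅U, ⊤⁆` is central and `U` commutes with `⁅⊤, ⊤⁆` -/
theorem comm_mul_left (h1 : ∀ u ∈ U, ∀ g h : P, ⁅u, g⁆ * h = h * ⁅u, g⁆)
    {u u' : P} (_hu : u ∈ U) (hu' : u' ∈ U) (g : P) : ⁅u * u', g⁆ = ⁅u, g⁆ * ⁅u', g⁆ := by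
  rw [commutatorElement_mul_left_eq_conj_mul]
  have := h1 u' hu' g u
  rw [show u * ⁅u', g⁆ * u⁻¹ = ⁅u', g⁆ by rw [← this]; group]
  exact h1 u' hu' g _

theorem PCin.mul (h1 : ∀ u ∈ U, ∀ g h : P, ⁅u, g⁆ * h = h * ⁅u, g⁆) :
    ∀ (xs : List P) (k k' : P), PCin U xs k → PCin U xs k' → PCin U xs (k * k')
  | [], k, k', h, h' => by
      simp only [PCin] at h h' ⊢
      simp [h, h']
  | x :: xs, k, k', h, h' => by
      obtain ⟨y, hy, l, rfl, hl⟩ := h
      obtain ⟨y', hy', l', rfl, hl'⟩ := h'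
      refine ⟨y * y', U.mul_mem hy hy', l * l', ?_, PCin.mul h1 xs l l' hl hl'⟩
      rw [comm_mul_left U h1 hy hy']
      have := h1 y' hy' x l
      calc ⁅y, x⁆ * l * (⁅y', x⁆ * l') = ⁅y, x⁆ * (l * ⁅y', x⁆) * l' := by group
        _ = ⁅y, x⁆ * (⁅y', x⁆ * l) * l' := by rw [this]
        _ = ⁅y, x⁆ * ⁅y', x⁆ * (l * l') := by group

theorem PCin.mem (h1 : ∀ u ∈ U, ∀ g h : P, ⁅u, g⁆ * h = h * ⁅u, g⁆) :
    ∀ (xs : List P) (x : P), x ∈ xs → ∀ u ∈ U, PCin U xs ⁅u, x⁆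
  | [], x, hx, _, _ => by simp at hx
  | x :: xs, z, hz, u, hu => by
      rcases List.mem_cons.1 hz with rfl | hz
      · exact ⟨u, hu, 1, by simp, PCin.one U xs⟩
      · exact ⟨1, U.one_mem, ⁅u, z⁆, by simp, PCin.mem h1 xs z hz u hu⟩

/-- absorbing a product of central commutators -/
theorem PC.absorb (h1 : ∀ u ∈ U, ∀ g h : P, ⁅u, g⁆ * h = h * ⁅u, g⁆)
    (h2 : ∀ u ∈ U, ∀ g h : P, u * ⁅g, h⁆ = ⁅g, h⁆ * u) :
    ∀ (xs : List P) (k z : P), PC xs k → PCin U xs z → PC xs (k * z)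
  | [], k, z, h, h' => by
      simp only [PC, PCin] at h h' ⊢
      simp [h, h']
  | x :: xs, k, z, h, h' => by
      obtain ⟨y, l, rfl, hl⟩ := h
      obtain ⟨u, hu, z', rfl, hz'⟩ := h'
      refine ⟨u * y, l * z', ?_, PC.absorb h1 h2 xs l z' hl hz'⟩
      rw [commutatorElement_mul_left_eq_conj_mul]
      have e1 : u * ⁅y, x⁆ * u⁻¹ = ⁅y, x⁆ := by rw [h2 u hu]; group
      rw [e1]
      calc ⁅y, x⁆ * l * (⁅u, x⁆ * z') = ⁅y, x⁆ * (l * ⁅u, x⁆) * z' := by group
        _ = ⁅y, x⁆ * (⁅u, x⁆ * l) * z' := by rw [h1 u hu x l]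
        _ = ⁅y, x⁆ * ⁅u, x⁆ * (l * z') := by group

theorem PCin.closure (h1 : ∀ u ∈ U, ∀ g h : P, ⁅u, g⁆ * h = h * ⁅u, g⁆)
    (xs : List P) (hxs : Subgroup.closure {x | x ∈ xs} = ⊤) (z : P)
    (hz : z ∈ ⁅U, (⊤ : Subgroup P)⁆) : PCin U xs z := by
  -- first every commutator
  have key : ∀ g : P, ∀ u ∈ U, PCin U xs ⁅u, g⁆ := by
    intro g
    have hg : g ∈ Subgroup.closure {x | x ∈ xs} := by rw [hxs]; trivial
    induction hg using Subgroup.closure_induction with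
    | mem x hx => exact fun u hu => PCin.mem U h1 xs x hx u hu
    | one => intro u _; simpa using PCin.one U xs
    | mul a b _ _ ha hb =>
      intro u hu
      have : ⁅u, a * b⁆ = ⁅u, a⁆ * ⁅u, b⁆ := by
        rw [commutatorElement_mul_right_eq_mul_conj]
        have := h1 u hu b a
        rw [show ⁅u, a⁆ * a * ⁅u, b⁆ * a⁻¹ = ⁅u, a⁆ * (a * ⁅u, b⁆) * a⁻¹ by group, ← this]
        group
      rw [this]
      exact PCin.mul U h1 xs _ _ (ha u hu) (hb u hu)
    | inv a _ ha =>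
      intro u hu
      have : ⁅u, a⁻¹⁆ = ⁅u⁻¹, a⁆ := by
        have e : ⁅u, a⁆ * ⁅u⁻¹, a⁆ = 1 := by
          rw [← comm_mul_left U h1 hu (U.inv_mem hu)]; simp
        have e2 : ⁅u, a⁆ * ⁅u, a⁻¹⁆ = 1 := by
          have h3 : ⁅u, a * a⁻¹⁆ = ⁅u, a⁆ * ⁅u, a⁻¹⁆ := by
            rw [commutatorElement_mul_right_eq_mul_conj]
            have := h1 u hu a⁻¹ a
            rw [show ⁅u, a⁆ * a * ⁅u, a⁻¹⁆ * a⁻¹ = ⁅u, a⁆ * (a * ⁅u, a⁻¹⁆) * a⁻¹ by group, ← this]
            group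
          rw [← h3]; simp
        exact (mul_left_cancel (e.trans e2.symm)).symm
      rw [this]
      exact ha _ (U.inv_mem hu)
  rw [Subgroup.commutator_def] at hz
  induction hz using Subgroup.closure_induction with
  | mem x hx =>
    obtain ⟨u, hu, g, -, rfl⟩ := hx
    exact key g u hu
  | one => exact PCin.one U xs
  | mul a b _ _ ha hb => exact PCin.mul U h1 xs _ _ ha hb
  | inv a ha' ha =>
    -- inverse: by the general form
    clear ha'
    have inv : ∀ (xs : List P) (k : P), PCin U xs k → PCin U xs k⁻¹ := by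
      intro xs
      induction xs with
      | nil => intro k hk; simp only [PCin] at hk ⊢; simp [hk]
      | cons x xs ih =>
        intro k hk
        obtain ⟨y, hy, l, rfl, hl⟩ := hk
        refine ⟨y⁻¹, U.inv_mem hy, l⁻¹, ?_, ih l hl⟩
        have e : ⁅y, x⁆ * ⁅y⁻¹, x⁆ = 1 := by
          rw [← comm_mul_left U h1 hy (U.inv_mem hy)]; simp
        have e' : ⁅y⁻¹, x⁆ = ⁅y, x⁆⁻¹ := (inv_eq_of_mul_eq_one_right e).symm
        rw [e', mul_inv_rev]
        have := h1 y hy x l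
        calc l⁻¹ * ⁅y, x⁆⁻¹ = (⁅y, x⁆ * l)⁻¹ := by group
          _ = (l * ⁅y, x⁆)⁻¹ := by rw [this]
          _ = ⁅y, x⁆⁻¹ * l⁻¹ := by group
    exact inv xs a ha

end central

/-- In a nilpotent group generated by `xs`, every element of the commutator subgroup is of the
form `PC xs`. -/
theorem nilp_PC : ∀ (c : ℕ) (P : Type) [Group P],
    Subgroup.lowerCentralSeries (⊤ : Subgroup P) c = ⊥ → ∀ xs : List P,
    Subgroup.closure {x | x ∈ xs} = ⊤ → ∀ k ∈ ⁅(⊤ : Subgroup P), (⊤ : Subgroup P)⁆, PC xs k := by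
  intro c
  induction c with
  | zero =>
    intro P _ hc xs _ k _
    rw [Subgroup.lowerCentralSeries_zero] at hc
    have : k = 1 := by
      have : k ∈ (⊤ : Subgroup P) := trivial
      rw [hc] at this
      simpa using this
    rw [this]; exact PC.one xs
  | succ c ih =>
    intro P _ hc xs hxs k hk
    rcases Nat.eq_zero_or_pos c with rfl | hpos
    · rw [Subgroup.lowerCentralSeries_succ, Subgroup.lowerCentralSeries_zero] at hc
      rw [hc] at hk
      rw [Subgroup.mem_bot.1 hk]; exact PC.one xs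
    obtain ⟨d, rfl⟩ : ∃ d, c = d + 1 := ⟨c - 1, by omega⟩
    set U := Subgroup.lowerCentralSeries (⊤ : Subgroup P) d with hU
    set A := Subgroup.lowerCentralSeries (⊤ : Subgroup P) (d + 1) with hA
    have hAU : A = ⁅U, (⊤ : Subgroup P)⁆ := rfl
    have hAc : ⁅A, (⊤ : Subgroup P)⁆ = ⊥ := hc
    have h1 : ∀ u ∈ U, ∀ g h : P, ⁅u, g⁆ * h = h * ⁅u, g⁆ := by
      intro u hu g h
      have : ⁅⁅u, g⁆, h⁆ ∈ ⁅A, (⊤ : Subgroup P)⁆ :=
        commutator_mem_commutator (by rw [hAU]; exact commutator_mem_commutator hu trivial) trivial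
      rw [hAc, Subgroup.mem_bot] at this
      exact commutatorElement_eq_one_iff_mul_comm.1 this
    have h3 : ⁅⁅(⊤ : Subgroup P), (⊤ : Subgroup P)⁆, U⁆ = ⊥ := by
      apply commutator_commutator_eq_bot_of_rotate
      · rw [commutator_comm (⊤ : Subgroup P) U, ← hAU]; exact hAc
      · rw [← hAU]; exact hAc
    have h2 : ∀ u ∈ U, ∀ g h : P, u * ⁅g, h⁆ = ⁅g, h⁆ * u := by
      intro u hu g h
      have : ⁅⁅g, h⁆, u⁆ ∈ ⁅⁅(⊤ : Subgroup P), (⊤ : Subgroup P)⁆, U⁆ :=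
        commutator_mem_commutator (commutator_mem_commutator trivial trivial) hu
      rw [h3, Subgroup.mem_bot] at this
      exact (commutatorElement_eq_one_iff_mul_comm.1 this).symm
    have hUn : U.Normal := inferInstance
    have hAn : A.Normal := inferInstance
    -- the quotient
    let π := QuotientGroup.mk' A
    have hπ : Function.Surjective π := QuotientGroup.mk'_surjective A
    have hq : Subgroup.lowerCentralSeries (⊤ : Subgroup (P ⧸ A)) (d + 1) = ⊥ := by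
      have := Subgroup.map_lowerCentralSeries (S := (⊤ : Subgroup P)) π (d + 1)
      rw [Subgroup.map_top_of_surjective π hπ] at this
      rw [← this, ← hA]
      rw [Subgroup.map_eq_bot_iff, QuotientGroup.ker_mk']
    have hgen : Subgroup.closure {x | x ∈ xs.map π} = ⊤ := by
      have e : {x | x ∈ xs.map π} = π '' {x | x ∈ xs} := by
        ext x; simp
      rw [e, ← MonoidHom.map_closure, hxs, Subgroup.map_top_of_surjective π hπ]
    have hk' : π k ∈ ⁅(⊤ : Subgroup (P ⧸ A)), (⊤ : Subgroup (P ⧸ A))⁆ := by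
      have := Subgroup.mem_map_of_mem π hk
      rw [Subgroup.map_commutator, Subgroup.map_top_of_surjective π hπ] at this
      exact this
    have := ih (P ⧸ A) hq (xs.map π) hgen (π k) hk'
    obtain ⟨k₀, hk₀, hPC⟩ := PC.lift π hπ xs _ this
    have hz : k₀⁻¹ * k ∈ A := by
      rw [← QuotientGroup.ker_mk' A]
      change π (k₀⁻¹ * k) = 1
      rw [map_mul, map_inv, hk₀]; group
    have := PC.absorb U h1 h2 xs k₀ (k₀⁻¹ * k) hPC
      (PCin.closure U h1 xs hxs _ (by rw [← hAU]; exact hz))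
    rwa [show k₀ * (k₀⁻¹ * k) = k by group] at this

/-- Relative form: `P ⧸ A` nilpotent. -/
theorem nilp_PC_mod {P : Type} [Group P] (A : Subgroup P) [A.Normal] [Group.IsNilpotent (P ⧸ A)]
    (xs : List P) (hxs : Subgroup.closure {x | x ∈ xs} = ⊤) (k : P)
    (hk : k ∈ ⁅(⊤ : Subgroup P), (⊤ : Subgroup P)⁆) : ∃ k₀, PC xs k₀ ∧ k₀⁻¹ * k ∈ A := by
  let π := QuotientGroup.mk' A
  have hπ : Function.Surjective π := QuotientGroup.mk'_surjective A
  obtain ⟨c, hc⟩ := Subgroup.nilpotent_iff_lowerCentralSeries.1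
    (inferInstance : Group.IsNilpotent (P ⧸ A))
  have hgen : Subgroup.closure {x | x ∈ xs.map π} = ⊤ := by
    have e : {x | x ∈ xs.map π} = π '' {x | x ∈ xs} := by
      ext x; simp
    rw [e, ← MonoidHom.map_closure, hxs, Subgroup.map_top_of_surjective π hπ]
  have hk' : π k ∈ ⁅(⊤ : Subgroup (P ⧸ A)), (⊤ : Subgroup (P ⧸ A))⁆ := by
    have := Subgroup.mem_map_of_mem π hk
    rw [Subgroup.map_commutator, Subgroup.map_top_of_surjective π hπ] at this
    exact this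
  obtain ⟨k₀, hk₀, hPC⟩ := PC.lift π hπ xs _ (nilp_PC c (P ⧸ A) hc (xs.map π) hgen (π k) hk')
  refine ⟨k₀, hPC, ?_⟩
  rw [← QuotientGroup.ker_mk' A]
  change π (k₀⁻¹ * k) = 1
  rw [map_mul, map_inv, hk₀]; group

end Pool.Agent.VW
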