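import Pool.Agent.VW.Split

/-! Permutational wreath products. -/

namespace Pool.Agent.VW

open SemidirectProduct
open scoped commutatorElement

theorem shiftAut_apply {A X G : Type} [Group A] [Group G] [MulAction G X] (g : G)
    (f : FinFun A X) (x : X) : (shiftAut A X G g f).1 x = f.1 (g⁻¹ • x) := rfl

section ClaimA

variable {A X G : Type} [Group A] [Group G] [MulAction G X]

theorem len_shift {V : Set (FreeGroup ℕ)} {mG : ℕ}
    (hG : ∀ g ∈ Subgroup.closure (Vals V G), Len (Vals V G) mG g) (h : G)
    (hh : h ∈ Subgroup.closure (Vals V G)) (f : FinFun A X) :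
    Len (Vals V (PermWreath A X G)) (2 * mG) (inl (f * (shiftAut A X G h f)⁻¹)) := by
  have h1 : Len (Vals V (PermWreath A X G)) mG (inr h) :=
    (hG h hh).map_hom inr fun x hx => Vals.map inr hx
  have h2 := (h1.conj Vals.conj_mem (inl f)).mul (h1.inv Vals.inv_mem)
  have h3 : (inl f * inr h * (inl f)⁻¹ * (inr h)⁻¹ : PermWreath A X G)
      = inl (f * (shiftAut A X G h f)⁻¹) := by
    rw [map_mul, map_inv, inl_aut, map_inv (inr : G →* PermWreath A X G)]
    group
  rw [h3] at h2
  exact h2.mono (by omega)

/-- extension by `1` of a finite family -/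
noncomputable def extF {ι : Type} [Finite ι] (e : ι → X) (F : ι → A) : FinFun A X :=
  ⟨Function.extend e F 1, by
    refine (Set.finite_range e).subset fun x hx => ?_
    by_contra hcon
    apply hx
    rw [Function.extend_apply' _ _ _ (by rintro ⟨i, hi⟩; exact hcon ⟨i, hi⟩)]
    rfl⟩

theorem extF_apply {ι : Type} [Finite ι] {e : ι → X} (he : Function.Injective e) (F : ι → A)
    (i : ι) : (extF e F).1 (e i) = F i := he.extend_apply _ _ _

theorem extF_apply' {ι : Type} [Finite ι] {e : ι → X} (F : ι → A) {x : X}
    (hx : ∀ i, e i ≠ x) : (extF e F).1 x = 1 := by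
  change Function.extend e F 1 x = 1
  rw [Function.extend_apply' _ _ _ (by rintro ⟨i, hi⟩; exact hx i hi)]
  rfl

/-- pointwise commutators -/
theorem len_comm {V : Set (FreeGroup ℕ)} {mG : ℕ}
    (hG : ∀ g ∈ Subgroup.closure (Vals V G), Len (Vals V G) mG g)
    {ι : Type} [Finite ι] {e : ι → X} (he : Function.Injective e)
    (h : G) (hh : h ∈ Subgroup.closure (Vals V G)) (hd : ∀ i j, h • e i ≠ e j)
    (a b : ι → A) :
    Len (Vals V (PermWreath A X G)) (4 * mG) (inl (extF e fun i => ⁅a i, b i⁆)) := by
  set w : FinFun A X := extF e a * (shiftAut A X G h (extF e a))⁻¹ with hw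
  have h1 := len_shift hG h hh (extF e a)
  rw [← hw] at h1
  have h2 := h1.mul ((h1.inv Vals.inv_mem).conj Vals.conj_mem (inl (extF e b)))
  have h3 : (inl w * (inl (extF e b) * (inl w)⁻¹ * (inl (extF e b))⁻¹) : PermWreath A X G)
      = inl (extF e fun i => ⁅a i, b i⁆) := by
    rw [← map_inv, ← map_inv, ← map_mul, ← map_mul, ← map_mul]
    congr 1
    ext x
    change w.1 x * ((extF e b).1 x * (w.1 x)⁻¹ * ((extF e b).1 x)⁻¹) = _
    by_cases hx : ∃ i, e i = x
    · obtain ⟨i, rfl⟩ := hx
      rw [extF_apply he, extF_apply he]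
      have h4 : w.1 (e i) = a i := by
        rw [hw]
        change (extF e a).1 (e i) * ((extF e a).1 (h⁻¹ • e i))⁻¹ = _
        rw [extF_apply he, extF_apply' (x := h⁻¹ • e i), inv_one, mul_one]
        intro j hj
        apply hd j i
        rw [hj, smul_inv_smul]
      rw [h4, commutatorElement_def]
      group
    · have hx' : ∀ i, e i ≠ x := fun i hi => hx ⟨i, hi⟩
      rw [extF_apply' _ hx', extF_apply' _ hx']
      simp
  rw [h3] at h2
  exact h2.mono (by omega)

/-- `(S, N)` displacement: for every finite set `S` and every `k` some `h ∈ N` moves `S` off itself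
together with its powers up to the `k`-th -/
def Displaces (X : Type) {G : Type} [Group G] [MulAction G X] (N : Subgroup G) : Prop :=
  ∀ (S : Set X), S.Finite → ∀ k : ℕ, ∃ h ∈ N, ∀ i, 1 ≤ i → i ≤ k → ∀ x ∈ S, ∀ y ∈ S,
    h ^ i • x ≠ y

theorem derived_bounded {V : Set (FreeGroup ℕ)} {mG : ℕ}
    (hG : ∀ g ∈ Subgroup.closure (Vals V G), Len (Vals V G) mG g)
    (hd : Displaces X (Subgroup.closure (Vals V G))) (u : FinFun A X)
    (hu : ∀ x, u.1 x ∈ commutator A) :
    Len (Vals V (PermWreath A X G)) (6 * mG) (inl u) := by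
  classical
  set S : Set X := {x | u.1 x ≠ 1} with hS
  have hSf : S.Finite := u.2
  have : Finite S := hSf
  have := Fintype.ofFinite S
  -- commutator expressions
  have h1 : ∀ x, ∃ l : List A, (∀ c ∈ l, c ∈ commutatorSet A) ∧ l.prod = u.1 x := by
    intro x
    have h2 := hu x
    rw [commutator_eq_closure] at h2
    obtain ⟨n, l, -, hl, hl'⟩ := Len.exists_of_mem_closure (W := commutatorSet A) (by
      rintro _ ⟨a, b, rfl⟩
      exact ⟨b, a, (commutatorElement_inv a b).symm⟩) h2
    exact ⟨l, hl, hl'⟩
  choose l hl hlu using h1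
  let k : ℕ := Finset.univ.sup fun x : S => (l x).length
  have hk : ∀ x : S, (l x).length ≤ k := fun x =>
    Finset.le_sup (f := fun x : S => (l x).length) (Finset.mem_univ x)
  obtain ⟨h, hh, hdis⟩ := hd S hSf k
  let e : S × Fin (k + 1) → X := fun p => h ^ (p.2 : ℕ) • (p.1 : X)
  have he : Function.Injective e := by
    have aux : ∀ (x y : S) (i j : ℕ), i < j → j ≤ k → h ^ i • (x : X) ≠ h ^ j • (y : X) := by
      intro x y i j hij hj heq
      apply hdis (j - i) (by omega) (by omega) y y.2 x x.2
      obtain ⟨d, rfl⟩ := Nat.exists_eq_add_of_lt hij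
      have h3 : h ^ (i + d + 1) • (y : X) = h ^ i • (h ^ (d + 1) • (y : X)) := by
        rw [← mul_smul, ← pow_add]; rfl
      rw [h3] at heq
      have h4 := smul_left_cancel _ heq
      have h5 : i + d + 1 - i = d + 1 := by omega
      rw [h5]
      exact h4.symm
    rintro ⟨x, i⟩ ⟨y, j⟩ heq
    change h ^ (i : ℕ) • (x : X) = h ^ (j : ℕ) • (y : X) at heq
    rcases lt_trichotomy (i : ℕ) (j : ℕ) with hij | hij | hij
    · exact absurd heq (aux x y i j hij (by omega))
    · have hij' : i = j := Fin.ext hij
      subst hij'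
      have := smul_left_cancel _ heq
      rw [Prod.mk.injEq]
      exact ⟨Subtype.ext this, rfl⟩
    · exact absurd heq.symm (aux y x j i hij (by omega))
  -- the functions
  let F : S → ℕ → A := fun x i => match i with
    | 0 => 1
    | i + 1 => ((l x).drop i).prod
  let c : S → ℕ → A := fun x i => match i with
    | 0 => 1
    | i + 1 => (l x).getD i 1
  have hF1 : ∀ x, F x 1 = u.1 x := fun x => by simp [F, hlu]
  have hFk : ∀ x, F x (k + 1) = 1 := fun x => by
    change ((l x).drop k).prod = 1
    rw [List.drop_eq_nil_of_le (hk x)]; rfl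
  have hFc : ∀ x i, 1 ≤ i → F x i * (F x (i + 1))⁻¹ = c x i := by
    intro x i hi
    obtain ⟨i, rfl⟩ := Nat.exists_eq_add_of_le' hi
    change ((l x).drop i).prod * (((l x).drop (i + 1)).prod)⁻¹ = (l x).getD i 1
    by_cases hlt : i < (l x).length
    · rw [List.drop_eq_getElem_cons hlt, List.prod_cons, List.getD_eq_getElem _ _ hlt]
      group
    · rw [List.drop_eq_nil_of_le (by omega), List.drop_eq_nil_of_le (by omega),
        List.getD_eq_default _ _ (by omega)]
      simp
  have hc : ∀ x i, ∃ a b : A, c x i = ⁅a, b⁆ := by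
    intro x i
    cases i with
    | zero => exact ⟨1, 1, by simp [c]⟩
    | succ i =>
      change ∃ a b : A, (l x).getD i 1 = ⁅a, b⁆
      by_cases hlt : i < (l x).length
      · rw [List.getD_eq_getElem _ _ hlt]
        obtain ⟨a, b, hab⟩ := hl x _ (List.getElem_mem hlt)
        exact ⟨a, b, hab.symm⟩
      · rw [List.getD_eq_default _ _ (by omega)]
        exact ⟨1, 1, by simp⟩
  choose a b hab using hc
  let f : FinFun A X := extF e fun p => F p.1 p.2
  let D : FinFun A X := extF e fun p => ⁅a p.1 p.2, b p.1 p.2⁆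
  -- displacement of the big set
  obtain ⟨h', hh', hdis'⟩ := hd (Set.range e) (Set.finite_range e) 1
  have hD : Len (Vals V (PermWreath A X G)) (4 * mG) (inl D) :=
    len_comm hG he h' hh' (fun i j => by
      have := hdis' 1 le_rfl le_rfl (e i) ⟨i, rfl⟩ (e j) ⟨j, rfl⟩
      simpa using this) _ _
  have hv := len_shift hG h⁻¹ (Subgroup.inv_mem _ hh) f
  have hkey : D * (f * (shiftAut A X G h⁻¹ f)⁻¹)⁻¹ = u := by
    ext y
    change D.1 y * (f.1 y * (f.1 ((h⁻¹)⁻¹ • y))⁻¹)⁻¹ = u.1 y
    rw [inv_inv]
    by_cases hy : ∃ p, e p = y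
    · obtain ⟨⟨x, i⟩, rfl⟩ := hy
      have hD1 : D.1 (e (x, i)) = c x i := by
        change (extF e _).1 (e (x, i)) = _
        rw [extF_apply he]
        exact (hab x i).symm
      have hf1 : f.1 (e (x, i)) = F x i := extF_apply he _ _
      have hf2 : f.1 (h • e (x, i)) = F x (i + 1) := by
        by_cases hik : (i : ℕ) < k
        · have h3 : h • e (x, i) = e (x, ⟨i + 1, by omega⟩) := by
            change h • (h ^ (i : ℕ) • (x : X)) = h ^ ((i : ℕ) + 1) • (x : X)
            rw [← mul_smul, pow_succ']
          rw [h3]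
          exact extF_apply he _ _
        · have hik' : (i : ℕ) = k := by omega
          rw [hik', hFk]
          by_cases hr : ∃ p, e p = h • e (x, i)
          · obtain ⟨⟨y, j⟩, hj⟩ := hr
            rw [← hj]
            change (extF e _).1 (e (y, j)) = _
            rw [extF_apply he]
            by_cases hj0 : (j : ℕ) = 0
            · change F y j = 1
              rw [hj0]
            · exfalso
              change h ^ (j : ℕ) • (y : X) = h • (h ^ (i : ℕ) • (x : X)) at hj
              apply hdis (k + 1 - j) (by omega) (by omega) x x.2 y y.2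
              have h4 : h • (h ^ (i : ℕ) • (x : X)) = h ^ (j : ℕ) • (h ^ (k + 1 - (j : ℕ)) • (x : X)) := by
                rw [← mul_smul, ← mul_smul, ← pow_succ', ← pow_add]
                congr 2
                omega
              rw [h4] at hj
              exact (smul_left_cancel _ hj).symm
          · exact extF_apply' _ fun p hp => hr ⟨p, hp⟩
      rw [hD1, hf1, hf2]
      by_cases hi : (i : ℕ) = 0
      · have h3 : e (x, i) = x := by
          change h ^ (i : ℕ) • (x : X) = x
          rw [hi, pow_zero, one_smul]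
        rw [h3, hi, hF1]
        simp [F, c]
      · rw [hFc x i (by omega)]
        rw [mul_inv_cancel]
        symm
        by_contra hcon
        exact hdis i (by omega) (by omega) x x.2 (e (x, i)) hcon rfl
    · have hy' : ∀ p, e p ≠ y := fun p hp => hy ⟨p, hp⟩
      have h3 : D.1 y = 1 := extF_apply' _ hy'
      have h4 : f.1 y = 1 := extF_apply' _ hy'
      have h5 : f.1 (h • y) = 1 := by
        by_cases hr : ∃ p, e p = h • y
        · obtain ⟨⟨x, j⟩, hj⟩ := hr
          rw [← hj]
          change (extF e _).1 (e (x, j)) = _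
          rw [extF_apply he]
          by_cases hj0 : (j : ℕ) = 0
          · change F x j = 1
            rw [hj0]
          · exfalso
            apply hy
            refine ⟨(x, ⟨(j : ℕ) - 1, by omega⟩), ?_⟩
            change h ^ ((j : ℕ) - 1) • (x : X) = y
            change h ^ (j : ℕ) • (x : X) = h • y at hj
            apply smul_left_cancel h
            rw [← hj, ← mul_smul, ← pow_succ']
            congr 2
            omega
        · exact extF_apply' _ fun p hp => hr ⟨p, hp⟩
      have h6 : u.1 y = 1 := by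
        by_contra hcon
        apply hy
        refine ⟨(⟨y, hcon⟩, 0), ?_⟩
        change h ^ ((0 : Fin (k + 1)) : ℕ) • y = y
        simp
      rw [h3, h4, h5, h6]
      simp
  rw [← hkey, map_mul, map_inv]
  exact (hD.mul (hv.inv Vals.inv_mem)).mono (by omega)

end ClaimA

end Pool.Agent.VW
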