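import Pool.Agent.VW.PW

/-! Verbal width of permutational wreath products. -/

namespace Pool.Agent.VW

open SemidirectProduct
open scoped commutatorElement

instance instCommFinFun {A X : Type} [CommGroup A] : CommGroup (FinFun A X) :=
  { (inferInstance : Group (FinFun A X)) with
    mul_comm := fun f g => by
      ext x
      exact mul_comm (f.1 x) (g.1 x) }

/-- functoriality of the restricted power -/
def finMap {A B X : Type} [Group A] [Group B] (θ : A →* B) : FinFun A X →* FinFun B X where
  toFun f := ⟨fun x => θ (f.1 x), f.2.subset fun x hx => by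
    by_contra hcon
    apply hx
    have h1 : f.1 x = 1 := by
      by_contra h
      exact hcon h
    change θ (f.1 x) = 1
    rw [h1, map_one]⟩
  map_one' := by
    ext x
    exact map_one θ
  map_mul' f g := by
    ext x
    exact map_mul θ (f.1 x) (g.1 x)

theorem finMap_surjective {A B X : Type} [Group A] [Group B] (θ : A →* B)
    (hθ : Function.Surjective θ) : Function.Surjective (finMap (X := X) θ) := by
  classical
  intro f
  choose s hs using hθ
  refine ⟨⟨fun x => if f.1 x = 1 then 1 else s (f.1 x), f.2.subset fun x hx => ?_⟩, ?_⟩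
  · intro hcon
    exact hx (if_pos hcon)
  · ext x
    change θ (if f.1 x = 1 then 1 else s (f.1 x)) = f.1 x
    split_ifs with h
    · rw [map_one, h]
    · exact hs _

/-- functoriality of the wreath product -/
def wrMap {A B X G : Type} [Group A] [Group B] [Group G] [MulAction G X] (θ : A →* B) :
    PermWreath A X G →* PermWreath B X G :=
  SemidirectProduct.map (finMap θ) (MonoidHom.id G) fun g => by
    ext f x
    rfl

theorem wrMap_surjective {A B X G : Type} [Group A] [Group B] [Group G] [MulAction G X]
    (θ : A →* B) (hθ : Function.Surjective θ) :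
    Function.Surjective (wrMap (X := X) (G := G) θ) := by
  intro e
  obtain ⟨f, hf⟩ := finMap_surjective (X := X) θ hθ e.left
  refine ⟨⟨f, e.right⟩, ?_⟩
  ext1
  · exact hf
  · rfl

/-- the function supported at one point -/
noncomputable def single {A X : Type} [Group A] (x : X) : A →* FinFun A X where
  toFun a := extF (fun _ : Unit => x) fun _ => a
  map_one' := by
    ext y
    by_cases hy : x = y
    · subst hy
      exact extF_apply (e := fun _ : Unit => x) (fun _ _ _ => rfl) _ ()
    · exact extF_apply' _ fun _ => hy
  map_mul' a b := by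
    ext y
    change (extF (fun _ : Unit => x) fun _ => a * b).1 y
      = (extF (fun _ : Unit => x) fun _ => a).1 y * (extF (fun _ : Unit => x) fun _ => b).1 y
    by_cases hy : x = y
    · subst hy
      have h := fun F : Unit → A => extF_apply (e := fun _ : Unit => x) (fun _ _ _ => rfl) F ()
      rw [h, h, h]
    · rw [extF_apply' _ fun _ => hy, extF_apply' _ fun _ => hy, extF_apply' _ fun _ => hy]
      simp

theorem single_same {A X : Type} [Group A] (x : X) (a : A) : (single x a).1 x = a :=
  extF_apply (e := fun _ : Unit => x) (fun _ _ _ => rfl) _ ()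

theorem single_ne {A X : Type} [Group A] {x y : X} (h : x ≠ y) (a : A) : (single x a).1 y = 1 :=
  extF_apply' _ fun _ => h

theorem single_gen {A X : Type} [Group A] (K : Subgroup (FinFun A X))
    (h : ∀ x a, single x a ∈ K) : K = ⊤ := by
  classical
  rw [eq_top_iff]
  have key : ∀ (s : Finset X) (f : FinFun A X), (∀ x, f.1 x ≠ 1 → x ∈ s) → f ∈ K := by
    intro s
    induction s using Finset.induction_on with
    | empty =>
      intro f hf
      have : f = 1 := by
        ext x
        by_contra hx
        exact absurd (hf x hx) (Finset.notMem_empty x)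
      rw [this]; exact K.one_mem
    | insert x s hx ih =>
      intro f hf
      have h1 : f * (single x (f.1 x))⁻¹ ∈ K := by
        apply ih
        intro y hy
        have hyx : y ≠ x := by
          rintro rfl
          apply hy
          change f.1 y * ((single y (f.1 y)).1 y)⁻¹ = 1
          rw [single_same, mul_inv_cancel]
        have h2 : f.1 y ≠ 1 := by
          intro hcon
          apply hy
          change f.1 y * ((single x (f.1 x)).1 y)⁻¹ = 1
          rw [single_ne (Ne.symm hyx), hcon]
          simp
        rcases Finset.mem_insert.1 (hf y h2) with h3 | h3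
        · exact absurd h3 hyx
        · exact h3
      have := K.mul_mem h1 (h x (f.1 x))
      simpa using this
  intro f _
  exact key f.2.toFinset f fun x hx => by simpa using hx

theorem shift_single {A X G : Type} [Group A] [Group G] [MulAction G X] (g : G) (x : X) (a : A) :
    shiftAut A X G g (single x a) = single (g • x) a := by
  ext y
  rw [shiftAut_apply]
  by_cases hy : g • x = y
  · subst hy
    rw [inv_smul_smul, single_same, single_same]
  · rw [single_ne hy, single_ne]
    intro hcon
    apply hy
    rw [hcon, smul_inv_smul]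

theorem quot_fg {A X G : Type} [CommGroup A] [Group G] [MulAction G X] [Group.FG A]
    [MulAction.IsPretransitive G X] (V : Set (FreeGroup ℕ))
    [(Subgroup.closure (Vals V G)).FiniteIndex] :
    Group.FG (FinFun A X ⧸ MN (shiftAut A X G) V) := by
  classical
  set N := Subgroup.closure (Vals V G) with hN
  have hNn : N.Normal := closure_normal Vals.conj_mem
  set R := MN (shiftAut A X G) V with hR
  rw [Group.fg_def]
  by_cases hX : Nonempty X
  swap
  · have hX' : IsEmpty X := not_nonempty_iff.1 hX
    have : (⊤ : Subgroup (FinFun A X ⧸ R)) = ⊥ := by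
      rw [Subgroup.eq_bot_iff_forall]
      intro q _
      obtain ⟨f, rfl⟩ := QuotientGroup.mk_surjective q
      have : f = 1 := by
        ext x
        exact (hX'.false x).elim
      rw [this]; rfl
    rw [this]
    exact ⟨∅, by simp⟩
  obtain ⟨x₀⟩ := hX
  obtain ⟨gens, hgens⟩ := (Group.fg_def (G := A)).1 inferInstance
  have hfin : Finite (G ⧸ N) := Subgroup.finite_quotient_of_finiteIndex
  have := Fintype.ofFinite (G ⧸ N)
  let T : Finset (FinFun A X ⧸ R) :=
    (Finset.univ ×ˢ gens).image fun p : (G ⧸ N) × A =>
      ((single ((Quotient.out p.1 : G) • x₀) p.2 : FinFun A X) : FinFun A X ⧸ R)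
  refine ⟨T, ?_⟩
  set K : Subgroup (FinFun A X) := (Subgroup.closure (T : Set (FinFun A X ⧸ R))).comap
    (QuotientGroup.mk' R) with hK
  have hK1 : ∀ (c : G ⧸ N) (a : A), single ((Quotient.out c : G) • x₀) a ∈ K := by
    intro c a
    have h1 : Subgroup.closure (gens : Set A) ≤
        K.comap (single ((Quotient.out c : G) • x₀)) := by
      rw [Subgroup.closure_le]
      intro s hs
      apply Subgroup.subset_closure
      exact Finset.mem_image.2 ⟨(c, s), Finset.mem_product.2 ⟨Finset.mem_univ _, hs⟩, rfl⟩
    rw [hgens] at h1
    exact h1 (Subgroup.mem_top a)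
  have hRK : R ≤ K := by
    intro r hr
    change (r : FinFun A X ⧸ R) ∈ Subgroup.closure (T : Set (FinFun A X ⧸ R))
    rw [(QuotientGroup.eq_one_iff r).2 hr]
    exact Subgroup.one_mem _
  have hK2 : K = ⊤ := by
    apply single_gen
    intro x a
    obtain ⟨g, rfl⟩ := MulAction.exists_smul_eq G x₀ x
    set r : G := Quotient.out (g : G ⧸ N) with hr
    have h1 : r⁻¹ * g ∈ N := QuotientGroup.eq.1 (Quotient.out_eq _)
    have h2 : g * r⁻¹ ∈ N := by
      have := hNn.conj_mem _ h1 r
      convert this using 1
      group
    have h3 : single (r • x₀) a ∈ K := hK1 _ a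
    have h4 : Tm (shiftAut A X G) (g * r⁻¹) (single (r • x₀) a) ∈ R := by
      apply le_iSup (fun h : N => (Tm (shiftAut A X G) (h : G)).range) ⟨g * r⁻¹, h2⟩
      exact ⟨_, rfl⟩
    have h5 : Tm (shiftAut A X G) (g * r⁻¹) (single (r • x₀) a)
        = single (r • x₀) a * (single (g • x₀) a)⁻¹ := by
      change single (r • x₀) a * (shiftAut A X G (g * r⁻¹) (single (r • x₀) a))⁻¹ = _
      rw [shift_single, smul_smul, inv_mul_cancel_right]
    rw [h5] at h4
    have h6 := K.mul_mem (K.inv_mem (hRK h4)) h3
    have h7 : (single (r • x₀) a * (single (g • x₀) a)⁻¹)⁻¹ * single (r • x₀) a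
        = single (g • x₀) a := by
      rw [mul_inv, inv_inv, mul_comm, ← mul_assoc, mul_inv_cancel, one_mul]
    rwa [h7] at h6
  rw [eq_top_iff]
  intro q _
  obtain ⟨f, rfl⟩ := QuotientGroup.mk_surjective q
  have : f ∈ K := by rw [hK2]; trivial
  exact this

theorem Displaces.of_finiteIndex {X G : Type} [Group G] [MulAction G X]
    (h : Displaces X (⊤ : Subgroup G)) (N : Subgroup G) [N.Normal] [N.FiniteIndex] :
    Displaces X N := by
  intro S hS k
  obtain ⟨g, -, hg⟩ := h S hS (N.index * k)
  have hi : N.index ≠ 0 := Subgroup.FiniteIndex.index_ne_zero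
  refine ⟨g ^ N.index, Subgroup.pow_index_mem N g, fun i hi1 hik x hx y hy => ?_⟩
  rw [← pow_mul]
  exact hg _ (Nat.mul_pos (Nat.pos_of_ne_zero hi) hi1) (Nat.mul_le_mul_left _ hik) x hx y hy

/-- **Verbal width of permutational wreath products.** -/
theorem permWreath_elliptic {A X G : Type} [Group A] [Group G] [MulAction G X] [Group.FG A]
    [Group.FG G] [MulAction.IsPretransitive G X] (hV : VerballyElliptic G)
    (hfi : ∀ V : Set (FreeGroup ℕ), (∃ w ∈ V, w ≠ 1) →
      (Subgroup.closure (Vals V G)).FiniteIndex)
    (hd : Displaces X (⊤ : Subgroup G)) : VerballyElliptic (PermWreath A X G) := by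
  apply verballyElliptic_of
  intro V
  by_cases hw : ∃ w ∈ V, w ≠ 1
  swap
  · push Not at hw
    refine ⟨0, fun g hg => ?_⟩
    have h1 : Subgroup.closure (Vals V (PermWreath A X G)) ≤ ⊥ := by
      rw [Subgroup.closure_le]
      rintro x (⟨w, hw', f, rfl⟩ | ⟨w, hw', f, hf⟩)
      · rw [hw w hw']; simp
      · rw [hw w hw', map_one] at hf
        have : x = 1 := inv_eq_one.1 hf.symm
        rw [this]; simp
    have : g = 1 := by simpa using h1 hg
    rw [this]; exact Len.one 0
  have hfiN := hfi V hw
  obtain ⟨mG, hG⟩ := hV.vals V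
  set N := Subgroup.closure (Vals V G) with hN
  have hNn : N.Normal := closure_normal Vals.conj_mem
  have hNfg : N.FG := by
    have : Group.FG N := Subgroup.fg_of_index_ne_zero _
    exact (Group.fg_iff_subgroup_fg _).1 this
  have hAfg : Group.FG (Abelianization A) :=
    Group.fg_of_surjective (f := Abelianization.of) (QuotientGroup.mk'_surjective _)
  have hquot := quot_fg (A := Abelianization A) (X := X) (G := G) V
  obtain ⟨mB, hB⟩ := split_abelian (shiftAut (Abelianization A) X G) V hG hNfg hquot
  have hdN : Displaces X N := hd.of_finiteIndex N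
  let π : PermWreath A X G →* PermWreath (Abelianization A) X G := wrMap Abelianization.of
  have hπ : Function.Surjective π := wrMap_surjective _ (QuotientGroup.mk'_surjective _)
  refine ⟨6 * mG + mB, fun e he => ?_⟩
  have h1 : π e ∈ Subgroup.closure (Vals V (PermWreath (Abelianization A) X G)) := by
    have h2 : Subgroup.closure (Vals V (PermWreath A X G)) ≤
        (Subgroup.closure (Vals V (PermWreath (Abelianization A) X G))).comap π := by
      rw [Subgroup.closure_le]
      intro x hx
      exact Subgroup.subset_closure (Vals.map π hx)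
    exact h2 he
  obtain ⟨e', he', hee⟩ := Len.lift_hom π (fun y hy => Vals.lift π hπ hy) (hB _ h1)
  have h3 : π (e * e'⁻¹) = 1 := by rw [map_mul, map_inv, hee, mul_inv_cancel]
  have h4 : (e * e'⁻¹).right = 1 := congrArg SemidirectProduct.right h3
  have h5 : ∀ x, (e * e'⁻¹).left.1 x ∈ commutator A := by
    intro x
    have h6 : (π (e * e'⁻¹)).left.1 x = 1 := by rw [h3]; rfl
    have h7 : Abelianization.of ((e * e'⁻¹).left.1 x) = 1 := h6
    rw [← Abelianization.ker_of A]
    exact h7
  have h6 := derived_bounded hG hdN (e * e'⁻¹).left h5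
  have h7 : (inl (e * e'⁻¹).left : PermWreath A X G) = e * e'⁻¹ := by
    conv_rhs => rw [← inl_left_mul_inr_right (e * e'⁻¹), h4, map_one, mul_one]
  rw [h7] at h6
  have := h6.mul he'
  simpa using this

end Pool.Agent.VW
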