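import Pool.Agent.VW.Grig3
import Pool.Agent.VW.PW2
import Pool.Agent.VW.Law

/-! The action of the Grigorchuk groups on the boundary of the tree. -/

namespace Pool.Agent.VW

set_option linter.unusedSectionVars false

open Subgroup hiding lowerCentralSeries
open scoped commutatorElement
open Monoid.Coprod (inl inr)

/-! ### the action of the free product -/

/-- letters of the image -/
def actR : ℕ → (ℕ → Fin 3) → GF → (ℕ → Bool) → Bool
  | 0, ω, f, ξ => (psi (ω 0) f).perm (ξ 0)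
  | n + 1, ω, f, ξ => actR n (sh ω) ((psi (ω 0) f).sec (ξ 0)) (fun k => ξ (k + 1))

theorem actR_one : ∀ (n : ℕ) (ω : ℕ → Fin 3) (ξ : ℕ → Bool), actR n ω 1 ξ = ξ n
  | 0, ω, ξ => by simp [actR]
  | n + 1, ω, ξ => by
      rw [actR, map_one, Wr.one_sec, actR_one n]

theorem actR_mul : ∀ (n : ℕ) (ω : ℕ → Fin 3) (f g : GF) (ξ : ℕ → Bool),
    actR n ω (f * g) ξ = actR n ω f (fun k => actR k ω g ξ)
  | 0, ω, f, g, ξ => by simp [actR]
  | n + 1, ω, f, g, ξ => by
      rw [actR, map_mul, Wr.mul_sec, actR_mul n]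
      rfl

/-- the action on rays -/
def PR (ω : ℕ → Fin 3) : GF →* Equiv.Perm (ℕ → Bool) where
  toFun f :=
    { toFun := fun ξ n => actR n ω f ξ
      invFun := fun ξ n => actR n ω f⁻¹ ξ
      left_inv := fun ξ => by
        funext n
        change actR n ω f⁻¹ (fun k => actR k ω f ξ) = ξ n
        rw [← actR_mul, inv_mul_cancel, actR_one]
      right_inv := fun ξ => by
        funext n
        change actR n ω f (fun k => actR k ω f⁻¹ ξ) = ξ n
        rw [← actR_mul, mul_inv_cancel, actR_one] }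
  map_one' := by
    ext ξ n
    exact actR_one n ω ξ
  map_mul' f g := by
    ext ξ n
    exact actR_mul n ω f g ξ

theorem PR_apply (ω : ℕ → Fin 3) (f : GF) (ξ : ℕ → Bool) (n : ℕ) :
    PR ω f ξ n = actR n ω f ξ := rfl

/-- prefixes -/
def pre : ∀ n, (ℕ → Bool) → Wd Bool n
  | 0, _ => ()
  | n + 1, ξ => (ξ 0, pre n (fun k => ξ (k + 1)))

theorem pre_PR : ∀ (n : ℕ) (ω : ℕ → Fin 3) (f : GF) (ξ : ℕ → Bool),
    pre n (PR ω f ξ) = (iter psi n ω f).perm (pre n ξ)
  | 0, _, _, _ => rfl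
  | n + 1, ω, f, ξ => by
      change ((psi (ω 0) f).perm (ξ 0), pre n (PR (sh ω) ((psi (ω 0) f).sec (ξ 0))
        (fun k => ξ (k + 1)))) = _
      rw [pre_PR n]
      rfl

theorem tail_PR : ∀ (n : ℕ) (ω : ℕ → Fin 3) (f : GF) (ξ : ℕ → Bool) (k : ℕ),
    PR ω f ξ (k + n) = PR (shn n ω) ((iter psi n ω f).sec (pre n ξ)) (fun j => ξ (j + n)) k
  | 0, _, _, _, _ => rfl
  | n + 1, ω, f, ξ, k => by
      change PR (sh ω) ((psi (ω 0) f).sec (ξ 0)) (fun j => ξ (j + 1)) (k + n) = _
      rw [tail_PR n]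
      rfl

theorem ext_pre {n : ℕ} {ξ η : ℕ → Bool} (h : pre n ξ = pre n η)
    (h2 : ∀ k, ξ (k + n) = η (k + n)) : ξ = η := by
  induction n generalizing ξ η with
  | zero => funext k; exact h2 k
  | succ n ih =>
    have h3 : ξ 0 = η 0 := congrArg Prod.fst h
    have h4 : (fun k => ξ (k + 1)) = fun k => η (k + 1) :=
      ih (congrArg Prod.snd h) fun k => h2 k
    funext k
    cases k with
    | zero => exact h3
    | succ k => exact congrFun h4 k

theorem pre_eq_of_lt {n : ℕ} {ξ η : ℕ → Bool} (h : pre n ξ = pre n η) (k : ℕ) (hk : k < n) :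
    ξ k = η k := by
  induction n generalizing ξ η k with
  | zero => omega
  | succ n ih =>
    cases k with
    | zero => exact congrArg Prod.fst h
    | succ k =>
      exact ih (ξ := fun k => ξ (k + 1)) (η := fun k => η (k + 1)) (congrArg Prod.snd h) k
        (by omega)

theorem exists_pre : ∀ (n : ℕ) (v : Wd Bool n), ∃ ξ, pre n ξ = v
  | 0, _ => ⟨fun _ => false, rfl⟩
  | n + 1, ⟨x, w⟩ => by
      obtain ⟨ξ, hξ⟩ := exists_pre n w
      exact ⟨fun k => match k with
        | 0 => x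
        | k + 1 => ξ k, by
          change (x, pre n ξ) = (x, w)
          rw [hξ]⟩

theorem exists_pre_ne {ξ η : ℕ → Bool} (h : ξ ≠ η) : ∃ n, ∀ m, n ≤ m → pre m ξ ≠ pre m η := by
  by_contra hcon
  push Not at hcon
  apply h
  funext k
  obtain ⟨m, hm, he⟩ := hcon (k + 1)
  exact pre_eq_of_lt he k (by omega)

theorem PR_ker (ω : ℕ → Fin 3) : (PR ω).ker = NN psi ω := by
  ext f
  constructor
  · intro h n
    apply Equiv.ext
    intro v
    obtain ⟨ξ, rfl⟩ := exists_pre n v
    have h1 : PR ω f = 1 := h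
    rw [← pre_PR, h1]
    rfl
  · intro h
    change PR ω f = 1
    apply Equiv.ext
    intro ξ
    by_contra hcon
    obtain ⟨n, hn⟩ := exists_pre_ne hcon
    apply hn n le_rfl
    rw [pre_PR, h n]
    rfl

theorem PR_a (ω : ℕ → Fin 3) : PR ω ga = aRayPerm := by
  apply Equiv.ext
  intro ξ
  funext n
  cases n with
  | zero =>
    change (psi (ω 0) ga).perm (ξ 0) = aRay ξ 0
    rw [psi_a_perm]; rfl
  | succ n =>
    change actR n (sh ω) ((psi (ω 0) ga).sec (ξ 0)) (fun k => ξ (k + 1)) = aRay ξ (n + 1)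
    rw [psi_a_sec, actR_one]
    rfl

theorem PR_b (s : Fin 3) : ∀ (n : ℕ) (ω : ℕ → Fin 3) (ξ : ℕ → Bool),
    actR n ω (gb (xv s)) ξ = dLetter s n ω ξ
  | 0, ω, ξ => by
      rw [actR, psi_b_perm]; rfl
  | n + 1, ω, ξ => by
      rw [actR, dLetter]
      by_cases h : ξ 0 = false
      · rw [if_pos h, h]
        by_cases h2 : ω 0 = s
        · rw [psi_b_sec_false_of_one ((lam_xv _ _).2 h2), if_pos h2, actR_one]
        · rw [psi_b_sec_false_of_ne (fun h' => h2 ((lam_xv _ _).1 h')), if_neg h2]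
          exact congrFun (congrArg (fun σ : Equiv.Perm (ℕ → Bool) => σ (fun k => ξ (k + 1)))
            (PR_a (sh ω))) n
      · have h' : ξ 0 = true := by simpa using h
        rw [if_neg h, h', psi_b_sec_true, PR_b s n]
        rfl

theorem PR_range (ω : ℕ → Fin 3) : (PR ω).range = GrigorchukRays ω := by
  have hb : ∀ s, PR ω (gb (xv s)) = dRayPerm s ω := by
    intro s
    apply Equiv.ext
    intro ξ
    funext n
    exact PR_b s n ω ξ
  apply le_antisymm
  · rintro _ ⟨f, rfl⟩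
    have h1 : (⊤ : Subgroup GF) = (GrigorchukRays ω).comap (PR ω) := by
      symm
      apply GF_top
      · rw [Subgroup.mem_comap, PR_a]; exact Subgroup.subset_closure (by simp)
      · intro v
        rw [Subgroup.mem_comap]
        rcases v_cases 0 1 (by decide) v with rfl | rfl | rfl | rfl
        · rw [gb_one, map_one]; exact Subgroup.one_mem _
        · rw [hb]; exact Subgroup.subset_closure (by simp)
        · rw [hb]; exact Subgroup.subset_closure (by simp)
        · rw [← gb_mul, map_mul, hb, hb]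
          exact Subgroup.mul_mem _ (Subgroup.subset_closure (by simp))
            (Subgroup.subset_closure (by simp))
    have h2 : f ∈ (⊤ : Subgroup GF) := trivial
    rw [h1] at h2
    exact h2
  · unfold GrigorchukRays
    rw [Subgroup.closure_le]
    rintro x (rfl | rfl | rfl | rfl)
    · exact ⟨ga, PR_a ω⟩
    · exact ⟨_, hb 0⟩
    · exact ⟨_, hb 1⟩
    · exact ⟨_, hb 2⟩

/-! ### long orbits -/

/-- not eventually constant -/
def Nec (ω : ℕ → Fin 3) : Prop := ∀ m, ∃ n, m ≤ n ∧ ω n ≠ ω (n + 1)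

theorem Nec.shn {ω : ℕ → Fin 3} (h : Nec ω) (n : ℕ) : Nec (shn n ω) := by
  intro m
  obtain ⟨k, hk, hk'⟩ := h (m + n)
  refine ⟨k - n, by omega, ?_⟩
  change ω (k - n + n) ≠ ω (k - n + 1 + n)
  rw [show k - n + n = k by omega, show k - n + 1 + n = k + 1 by omega]
  exact hk'

theorem sq_mem (s : Fin 3) : (ga * gb (xv s)) ^ 2 ∈ KK s := by
  have h := mem_KK s
  have h1 : ⁅ga, gb (xv s)⁆ = (ga * gb (xv s)) ^ 2 := by
    rw [commutatorElement_def, ga_inv, gb_inv, pow_two]
    group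
  rwa [h1] at h

theorem inl_ne (s s' : Fin 3) (h : s ≠ s') : (inl (lam s (xv s')) : GF) = ga := by
  rcases c2_cases (lam s (xv s')) with h1 | h1
  · exact absurd ((lam_xv s s').1 h1) h
  · rw [h1]; rfl

/-- every ray is moved by `K` -/
theorem exists_move {ω : ℕ → Fin 3} (h : Nec ω) (s' : Fin 3) (ξ : ℕ → Bool) :
    ∃ κ ∈ KK s', PR ω κ ξ ≠ ξ := by
  classical
  obtain ⟨n, -, hn⟩ := h 0
  obtain ⟨κ, hκ, hκ1, hκ2⟩ := branch_all psi KK branch_one n ω
    (fun _ => (ga * gb (xv (ω n))) ^ 2) (fun _ => sq_mem _) s'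
  refine ⟨κ, hκ, fun hcon => ?_⟩
  have h1 := congrFun hcon (1 + (n + 1))
  rw [tail_PR, hκ2] at h1
  -- action of the square on the second letter
  have h2 : ∀ (ω' : ℕ → Fin 3) (s : Fin 3) (η : ℕ → Bool), ω' 0 ≠ s →
      PR ω' ((ga * gb (xv s)) ^ 2) η 1 ≠ η 1 := by
    intro ω' s η hs
    change (psi (sh ω' 0) ((psi (ω' 0) ((ga * gb (xv s)) ^ 2)).sec (η 0))).perm (η 1) ≠ η 1
    obtain ⟨-, h3, h4⟩ := psi_ax_sq (ω' 0) (xv s)
    rw [inl_ne _ _ hs] at h3 h4
    cases hη : η 0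
    · rw [h3, map_mul, Wr.mul_perm, psi_b_perm, one_mul, psi_a_perm]
      simp
    · rw [h4, map_mul, Wr.mul_perm, psi_b_perm, mul_one, psi_a_perm]
      simp
  refine h2 (shn (n + 1) ω) (ω n) (fun j => ξ (j + (n + 1))) ?_ h1
  change ω (0 + (n + 1)) ≠ ω n
  rw [zero_add]
  exact hn.symm

theorem Wr.pow_sec_agree {A Y : Type} [Group A] (g g₀ : Wr A Y) (v : Y) (hp : g.perm = g₀.perm)
    (hs : ∀ y, y ≠ v → g.sec y = g₀.sec y) :
    ∀ (j : ℕ) (u : Y), (∀ i < j, (g₀.perm ^ i) u ≠ v) → (g ^ j).sec u = (g₀ ^ j).sec u := by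
  intro j
  induction j with
  | zero => intro u _; simp
  | succ j ih =>
    intro u hu
    rw [pow_succ, pow_succ, Wr.mul_sec, Wr.mul_sec, hp, hs u (by simpa using hu 0 (by omega)),
      ih (g₀.perm u)]
    intro i hi
    have := hu (i + 1) (by omega)
    rwa [pow_succ, Equiv.Perm.mul_apply] at this

theorem long_orbit (L : ℕ) : ∀ {ω : ℕ → Fin 3}, Nec ω → ∀ (s' : Fin 3) (f : GF) (ξ : ℕ → Bool),
    ∃ κ ∈ KK s', ∀ i, 1 ≤ i → i ≤ L → PR ω ((f * κ) ^ i) ξ ≠ ξ := by
  classical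
  induction L with
  | zero => intro ω _ s' f ξ; exact ⟨1, (KK s').one_mem, by intro i h1 h2; omega⟩
  | succ L ih =>
    intro ω hω s' f ξ
    -- move the ray
    obtain ⟨κ₀, hκ₀, hmove⟩ : ∃ κ₀ ∈ KK s', PR ω (f * κ₀) ξ ≠ ξ := by
      by_cases h : PR ω f ξ = ξ
      · obtain ⟨κ, hκ, hκ'⟩ := exists_move hω s' ξ
        refine ⟨κ, hκ, fun hcon => hκ' ?_⟩
        rw [map_mul, Equiv.Perm.mul_apply] at hcon
        exact (PR ω f).injective (hcon.trans h.symm)
      · exact ⟨1, (KK s').one_mem, by rwa [mul_one]⟩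
    obtain ⟨n₀, hn₀⟩ := exists_pre_ne hmove
    set n := n₀ with hn
    have hmv : pre (n + 1) (PR ω (f * κ₀) ξ) ≠ pre (n + 1) ξ := hn₀ (n + 1) (by omega)
    rw [pre_PR] at hmv
    set g₀ : Wr GF (Wd Bool (n + 1)) := iter psi (n + 1) ω (f * κ₀) with hg₀
    set v := pre (n + 1) ξ with hv
    -- the period
    have hper : ∃ m, 0 < m ∧ (g₀.perm ^ m) v = v := by
      refine ⟨orderOf g₀.perm, orderOf_pos _, ?_⟩
      rw [pow_orderOf_eq_one]; rfl
    let m := Nat.find hper
    have hm0 : 0 < m := (Nat.find_spec hper).1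
    have hmv' : (g₀.perm ^ m) v = v := (Nat.find_spec hper).2
    have hmin : ∀ i, 0 < i → i < m → (g₀.perm ^ i) v ≠ v := fun i hi hi' hcon =>
      Nat.find_min hper hi' ⟨hi, hcon⟩
    have hm2 : 2 ≤ m := by
      by_contra hcon
      have : m = 1 := by omega
      rw [this, pow_one] at hmv'
      exact hmv hmv'
    -- the deeper element
    obtain ⟨κ₁, hκ₁, hlong⟩ := ih (hω.shn (n + 1)) (ω n) ((g₀ ^ m).sec v)
      (fun j => ξ (j + (n + 1)))
    obtain ⟨κ', hκ', hκp, hκs⟩ := branch_all psi KK branch_one n ω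
      (fun y => if y = v then κ₁ else 1) (fun y => by
        split_ifs
        · exact hκ₁
        · exact Subgroup.one_mem _) s'
    refine ⟨κ₀ * κ', (KK s').mul_mem hκ₀ hκ', ?_⟩
    set g : Wr GF (Wd Bool (n + 1)) := iter psi (n + 1) ω (f * (κ₀ * κ')) with hg
    have hgp : g.perm = g₀.perm := by
      rw [hg, ← mul_assoc, map_mul, Wr.mul_perm, hκp, mul_one]
    have hgs : ∀ y, g.sec y = g₀.sec y * (if y = v then κ₁ else 1) := by
      intro y
      rw [hg, ← mul_assoc, map_mul, Wr.mul_sec, hκp, hκs]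
      rfl
    have hgm : (g ^ m).sec v = (g₀ ^ m).sec v * κ₁ := by
      obtain ⟨m', hm'⟩ : ∃ m', m = m' + 1 := ⟨m - 1, by omega⟩
      rw [hm', pow_succ, pow_succ, Wr.mul_sec, Wr.mul_sec, hgp, hgs v, if_pos rfl,
        Wr.pow_sec_agree g g₀ v hgp (fun y hy => by rw [hgs, if_neg hy, mul_one]) m'
          (g₀.perm v), mul_assoc]
      intro i hi
      have := hmin (i + 1) (by omega) (by omega)
      rwa [pow_succ, Equiv.Perm.mul_apply] at this
    have hv1 : (g ^ m).perm v = v := by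
      rw [Wr.pow_perm, hgp]; exact hmv'
    have hgmp : ∀ i, ((g ^ m) ^ i).perm v = v := by
      intro i
      induction i with
      | zero => rfl
      | succ i ih' =>
        rw [pow_succ, Wr.mul_perm, Equiv.Perm.mul_apply, hv1]
        exact ih'
    have hgms : ∀ i, ((g ^ m) ^ i).sec v = ((g₀ ^ m).sec v * κ₁) ^ i := by
      intro i
      induction i with
      | zero => simp
      | succ i ih' =>
        rw [pow_succ, Wr.mul_sec, hv1, ih', hgm, pow_succ]
    intro i hi1 hiL hcon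
    -- reduce modulo the period
    have h1 : (g.perm ^ i) v = v := by
      have h2 := congrArg (pre (n + 1)) hcon
      rw [pre_PR, map_pow, Wr.pow_perm] at h2
      exact h2
    have hdvd : m ∣ i := by
      by_contra hnd
      have h3 : 0 < i % m := Nat.pos_of_ne_zero fun h => hnd (Nat.dvd_of_mod_eq_zero h)
      apply hmin (i % m) h3 (Nat.mod_lt _ hm0)
      have h4 : (g₀.perm ^ (m * (i / m))) v = v := by
        have := hgmp (i / m)
        rwa [← pow_mul, Wr.pow_perm, hgp] at this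
      have h5 : (g₀.perm ^ i) v = (g₀.perm ^ (i % m)) v := by
        conv_lhs => rw [← Nat.mod_add_div i m, pow_add, Equiv.Perm.mul_apply, h4]
      rw [← h5, ← hgp]
      exact h1
    obtain ⟨j, rfl⟩ := hdvd
    have hj1 : 1 ≤ j := Nat.pos_of_ne_zero fun h => by rw [h] at hi1; omega
    have hjL : j ≤ L := by
      by_contra hjL
      have : m * j ≥ 2 * (L + 1) := Nat.mul_le_mul hm2 (by omega)
      omega
    apply hlong j hj1 hjL
    funext k
    have h6 := congrFun hcon (k + (n + 1))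
    rw [tail_PR, map_pow, pow_mul, ← hg, hgms j] at h6
    exact h6

end Pool.Agent.VW
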