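import Pool.Agent.VW.Rays

/-! Permutational wreath products over the Grigorchuk groups. -/

namespace Pool.Agent.VW

set_option linter.unusedSectionVars false

open scoped commutatorElement

/-- every nontrivial invariant symmetric set generates a subgroup of finite index -/
def JustInf (G : Type) [Group G] : Prop :=
  ∀ W : Set G, (∀ x ∈ W, x⁻¹ ∈ W) → (∀ x ∈ W, ∀ g : G, g * x * g⁻¹ ∈ W) →
    (∃ h ∈ W, h ≠ 1) → (Subgroup.closure W).FiniteIndex

theorem JustInf.of_equiv {G H : Type} [Group G] [Group H] (e : G ≃* H) (hG : JustInf G) :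
    JustInf H := by
  rintro W hs hc ⟨h, hh, h1⟩
  have h2 := hG (e ⁻¹' W) (fun x hx => by
    have := hs _ hx
    rwa [← map_inv] at this) (fun x hx g => by
    have := hc _ hx (e g)
    rwa [← map_inv, ← map_mul, ← map_mul] at this)
    ⟨e.symm h, by simpa using hh, fun hcon => h1 (by simpa using congrArg e hcon)⟩
  have h3 : Subgroup.closure (e ⁻¹' W) ≤ (Subgroup.closure W).comap e.toMonoidHom := by
    rw [Subgroup.closure_le]
    intro x hx
    exact Subgroup.subset_closure hx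
  have h4 : ((Subgroup.closure W).comap e.toMonoidHom).FiniteIndex :=
    Subgroup.finiteIndex_of_le h3
  constructor
  rw [← Subgroup.index_comap_of_surjective (Subgroup.closure W) (f := e.toMonoidHom) e.surjective]
  exact h4.index_ne_zero

theorem JustInf_GF (ω : ℕ → Fin 3) (hω : Nec ω) : JustInf (GF ⧸ NN psi ω) := by
  obtain ⟨j, i, hij, hI⟩ := exists_pair ω hω
  rintro W hs hc ⟨h, hh, h1⟩
  exact (towerOf ω j i hij hI).closure_finiteIndex hs hc hh h1

section

variable (ω : ℕ → Fin 3)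

/-- the isomorphism with the quotient of the free product -/
noncomputable def equivRays : GF ⧸ NN psi ω ≃* GrigorchukRays ω :=
  (QuotientGroup.quotientMulEquivOfEq (PR_ker ω).symm).trans
    ((QuotientGroup.quotientKerEquivRange (PR ω)).trans (MulEquiv.subgroupCongr (PR_range ω)))

theorem fg_rays : Group.FG (GrigorchukRays ω) := by
  rw [Group.fg_iff_subgroup_fg]
  exact ⟨({aRayPerm, dRayPerm 0 ω, dRayPerm 1 ω, dRayPerm 2 ω} : Set _).toFinite.toFinset,
    by simp [GrigorchukRays]⟩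

theorem PR_mem (f : GF) : PR ω f ∈ GrigorchukRays ω := by
  rw [← PR_range]; exact ⟨f, rfl⟩

/-! cofinality -/

theorem dLetter_all (s : Fin 3) : ∀ (n : ℕ) (ω : ℕ → Fin 3) (ξ : ℕ → Bool), (∀ i, ξ i = true) →
    dLetter s n ω ξ = ξ n
  | 0, _, _, _ => rfl
  | n + 1, ω, ξ, h => by
      rw [dLetter, if_neg (by rw [h 0]; simp), dLetter_all s n _ _ fun i => h (i + 1)]

theorem dLetter_far (s : Fin 3) : ∀ (k n : ℕ) (ω : ℕ → Fin 3) (ξ : ℕ → Bool), ξ k = false →
    k + 2 ≤ n → dLetter s n ω ξ = ξ n := by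
  have h0 : ∀ (n : ℕ) (ω : ℕ → Fin 3) (ξ : ℕ → Bool), ξ 0 = false → 2 ≤ n →
      dLetter s n ω ξ = ξ n := by
    intro n ω ξ h hn
    obtain ⟨n, rfl⟩ := Nat.exists_eq_add_of_le' hn
    change (if ξ 0 = false then
        (if ω 0 = s then ξ (n + 1 + 1) else aRay (fun k => ξ (k + 1)) (n + 1)) else _) = _
    rw [if_pos h]
    split_ifs
    · rfl
    · rfl
  intro k
  induction k with
  | zero => exact fun n ω ξ h hn => h0 n ω ξ h hn
  | succ k ih =>
    intro n ω ξ h hn
    by_cases h1 : ξ 0 = false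
    · exact h0 n ω ξ h1 (by omega)
    · obtain ⟨n, rfl⟩ := Nat.exists_eq_add_of_le' (show 1 ≤ n by omega)
      rw [dLetter, if_neg h1, ih n _ (fun k => ξ (k + 1)) h (by omega)]

theorem cofinal (g : Equiv.Perm (ℕ → Bool)) (hg : g ∈ GrigorchukRays ω) :
    ∀ ξ : ℕ → Bool, ∃ m, ∀ k, m ≤ k → g ξ k = ξ k := by
  have hd : ∀ s, ∀ ξ : ℕ → Bool, ∃ m, ∀ k, m ≤ k → dRayPerm s ω ξ k = ξ k := by
    intro s ξ
    by_cases h : ∃ k, ξ k = false
    · obtain ⟨k, hk⟩ := h
      exact ⟨k + 2, fun n hn => dLetter_far s k n ω ξ hk hn⟩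
    · push Not at h
      exact ⟨0, fun n _ => dLetter_all s n ω ξ fun i => by simpa using h i⟩
  have ha : ∀ ξ : ℕ → Bool, ∃ m, ∀ k, m ≤ k → aRayPerm ξ k = ξ k := fun ξ =>
    ⟨1, fun k hk => if_neg (by omega)⟩
  unfold GrigorchukRays at hg
  induction hg using Subgroup.closure_induction with
  | mem g hg =>
    rcases hg with rfl | rfl | rfl | rfl
    · exact ha
    · exact hd 0
    · exact hd 1
    · exact hd 2
  | one => exact fun ξ => ⟨0, fun _ _ => rfl⟩
  | mul g h _ _ hg hh =>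
    intro ξ
    obtain ⟨m, hm⟩ := hh ξ
    obtain ⟨m', hm'⟩ := hg (h ξ)
    refine ⟨max m m', fun k hk => ?_⟩
    rw [Equiv.Perm.mul_apply, hm' k (le_trans (le_max_right _ _) hk),
      hm k (le_trans (le_max_left _ _) hk)]
  | inv g _ hg =>
    intro ξ
    obtain ⟨m, hm⟩ := hg (g⁻¹ ξ)
    refine ⟨m, fun k hk => ?_⟩
    have := hm k hk
    have h2 : g (g⁻¹ ξ) = ξ := by
      rw [← Equiv.Perm.mul_apply, mul_inv_cancel]; rfl
    rw [h2] at this
    exact this.symm

/-! displacement -/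

theorem displaces_rays (hω : Nec ω) (ξ₀ : ℕ → Bool) :
    Displaces (OrbitRay ω ξ₀) (⊤ : Subgroup (GrigorchukRays ω)) := by
  classical
  intro S hS k
  -- a common tail
  have h1 : ∀ x : OrbitRay ω ξ₀, ∃ m, ∀ j, m ≤ j → x.1 j = ξ₀ j := by
    rintro ⟨_, g, rfl⟩
    exact cofinal ω g.1 g.2 ξ₀
  choose c hc using h1
  let n : ℕ := hS.toFinset.sup c
  have hn : ∀ x ∈ S, ∀ j, n ≤ j → x.1 j = ξ₀ j := fun x hx j hj =>
    hc x j (le_trans (Finset.le_sup (hS.mem_toFinset.2 hx)) hj)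
  obtain ⟨κ₁, hκ₁, hlong⟩ := long_orbit k (hω.shn (n + 1)) (ω n) 1
    (fun j => ξ₀ (j + (n + 1)))
  obtain ⟨κ', -, hκp, hκs⟩ := branch_all psi KK branch_one n ω (fun _ => κ₁)
    (fun _ => hκ₁) (ω n)
  refine ⟨⟨PR ω κ', PR_mem ω κ'⟩, trivial, fun i hi1 hik x hx y hy hcon => ?_⟩
  have h2 : PR ω (κ' ^ i) x.1 = y.1 := by
    have := congrArg Subtype.val hcon
    rw [map_pow]
    exact this
  apply hlong i hi1 hik
  funext j
  have h3 := congrFun h2 (j + (n + 1))
  rw [tail_PR, map_pow, Wr.pow_sec_of_perm _ hκp, hκs] at h3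
  have h4 : (fun j => x.1 (j + (n + 1))) = fun j => ξ₀ (j + (n + 1)) := by
    funext j
    exact hn x hx _ (by omega)
  rw [h4, hn y hy _ (by omega)] at h3
  rw [one_mul]
  exact h3

/-! separation -/

theorem separates_rays (hω : Nec ω) (Y : Set (ℕ → Bool)) (hY : Y.Finite) (x : ℕ → Bool)
    (hx : x ∉ Y) (Z : Set (ℕ → Bool)) (hZ : Z.Finite) :
    ∃ t : GrigorchukRays ω, (∀ y ∈ Y, t • y = y) ∧ t • x ∉ Z := by
  classical
  have h1 : ∀ y ∈ Y, ∃ n, ∀ m, n ≤ m → pre m x ≠ pre m y := fun y hy =>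
    exists_pre_ne fun h => hx (h ▸ hy)
  choose! c hc using h1
  let n : ℕ := hY.toFinset.sup c
  have hn : ∀ y ∈ Y, pre (n + 1) x ≠ pre (n + 1) y := fun y hy =>
    hc y hy (n + 1) (le_trans (Finset.le_sup (hY.mem_toFinset.2 hy)) (Nat.le_succ n))
  obtain ⟨κ₁, hκ₁, hlong⟩ := long_orbit hZ.toFinset.card (hω.shn (n + 1)) (ω n) 1
    (fun j => x (j + (n + 1)))
  obtain ⟨κ', -, hκp, hκs⟩ := branch_all psi KK branch_one n ω
    (fun y => if y = pre (n + 1) x then κ₁ else 1) (fun y => by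
      split_ifs
      · exact hκ₁
      · exact Subgroup.one_mem _) (ω n)
  have hfix : ∀ i, ∀ y ∈ Y, PR ω (κ' ^ i) y = y := by
    intro i y hy
    apply ext_pre (n := n + 1)
    · rw [pre_PR, map_pow, Wr.pow_perm, hκp, one_pow]; rfl
    · intro k
      rw [tail_PR, map_pow, Wr.pow_sec_of_perm _ hκp, hκs, if_neg (hn y hy).symm, one_pow,
        map_one]
      rfl
  -- the points of the orbit are distinct
  have hinj : Function.Injective fun i : Fin (hZ.toFinset.card + 1) => PR ω (κ' ^ (i : ℕ)) x := by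
    have aux : ∀ i j : ℕ, i < j → j ≤ hZ.toFinset.card →
        PR ω (κ' ^ i) x ≠ PR ω (κ' ^ j) x := by
      intro i j hij hj heq
      obtain ⟨d, rfl⟩ := Nat.exists_eq_add_of_lt hij
      apply hlong (d + 1) (by omega) (by omega)
      have h2 : PR ω (κ' ^ (d + 1)) x = x := by
        have h3 : PR ω (κ' ^ (i + d + 1)) x = PR ω (κ' ^ i) (PR ω (κ' ^ (d + 1)) x) := by
          rw [add_assoc, pow_add, map_mul]; rfl
        rw [h3] at heq
        exact ((PR ω (κ' ^ i)).injective heq).symm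
      funext k
      have h4 := congrFun h2 (k + (n + 1))
      rw [tail_PR, map_pow, Wr.pow_sec_of_perm _ hκp, hκs, if_pos rfl] at h4
      rw [one_mul]
      exact h4
    intro i j heq
    rcases lt_trichotomy (i : ℕ) (j : ℕ) with h | h | h
    · exact absurd heq (aux i j h (by omega))
    · exact Fin.ext h
    · exact absurd heq.symm (aux j i h (by omega))
  obtain ⟨i, hi⟩ : ∃ i : Fin (hZ.toFinset.card + 1), PR ω (κ' ^ (i : ℕ)) x ∉ Z := by
    by_contra hcon
    push Not at hcon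
    have h2 := Finset.card_le_card_of_injOn
      (s := (Finset.univ : Finset (Fin (hZ.toFinset.card + 1)))) (t := hZ.toFinset)
      (fun i => PR ω (κ' ^ (i : ℕ)) x) (fun i _ => by
        simpa using hcon i) hinj.injOn
    rw [Finset.card_univ, Fintype.card_fin] at h2
    omega
  exact ⟨⟨PR ω (κ' ^ (i : ℕ)), PR_mem ω _⟩, fun y hy => hfix i y hy, hi⟩

/-- **Wreath products over the Grigorchuk groups.** -/
theorem wreath_rays (hω : Nec ω) (ξ : ℕ → Bool) (A : Type) [Group A] [Group.FG A] :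
    VerballyElliptic (WreathProd A (OrbitRay ω ξ) (GrigorchukRays ω)) := by
  have hfg := fg_rays ω
  have h1 : FiniteWidths (GrigorchukRays ω) := (FW_GF ω hω).of_equiv (equivRays ω)
  have h2 : JustInf (GrigorchukRays ω) := (JustInf_GF ω hω).of_equiv (equivRays ω)
  have htr : MulAction.IsPretransitive (GrigorchukRays ω) (OrbitRay ω ξ) :=
    inferInstanceAs (MulAction.IsPretransitive (GrigorchukRays ω)
      (MulAction.orbit (GrigorchukRays ω) ξ))
  refine permWreath_elliptic (X := OrbitRay ω ξ) (G := GrigorchukRays ω) (A := A)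
    h1.verballyElliptic ?_ (displaces_rays ω hω ξ)
  rintro V ⟨w, hw, hw1⟩
  obtain ⟨f, hf⟩ := no_law (G := GrigorchukRays ω) (X := ℕ → Bool)
    (fun Y hY x hx Z hZ => separates_rays ω hω Y hY x hx Z hZ) w hw1
  exact h2 _ Vals.inv_mem Vals.conj_mem ⟨_, Vals.value_mem hw f, hf⟩

end

end Pool.Agent.VW
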