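import Pool.Agent.VW.Iter
import Pool.Agent.VW.Defs

/-! Self-similar contracting regular branch groups. -/

namespace Pool.Agent.VW

set_option linter.unusedSectionVars false

open Subgroup hiding lowerCentralSeries
open scoped commutatorElement

namespace SelfSimilar

variable {G X : Type} [Group G] (A : SelfSimilar G X)

theorem sec_one (x : X) : A.sec 1 x = 1 := by
  have := A.sec_mul 1 1 x
  rw [mul_one, map_one, Equiv.Perm.one_apply] at this
  exact (mul_eq_left.1 this.symm)

/-- the wreath recursion -/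
def hom : G →* Wr G X where
  toFun g := ⟨A.act g, A.sec g⟩
  map_one' := by
    apply Wr.ext
    · exact map_one A.act
    · funext x; exact A.sec_one x
  map_mul' g h := by
    apply Wr.ext
    · exact map_mul A.act g h
    · funext x; exact A.sec_mul g h x

end SelfSimilar

/-- words as lists -/
def toLX (X : Type) : ∀ n, Wd X n → List X
  | 0, _ => []
  | n + 1, v => v.1 :: toLX X n v.2

theorem toLX_inj (X : Type) : ∀ (n : ℕ), Function.Injective (toLX X n)
  | 0 => fun _ _ _ => rfl
  | n + 1 => by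
      rintro ⟨x, w⟩ ⟨x', w'⟩ h
      have h' : x :: toLX X n w = x' :: toLX X n w' := h
      rw [List.cons.injEq] at h'
      obtain ⟨rfl, h2⟩ := h'
      rw [toLX_inj X n h2]

theorem toLX_length (X : Type) : ∀ (n : ℕ) (v : Wd X n), (toLX X n v).length = n
  | 0, _ => rfl
  | n + 1, v => by
      change (v.1 :: toLX X n v.2).length = n + 1
      rw [List.length_cons, toLX_length X n]

theorem toLX_surj (X : Type) : ∀ l : List X, ∃ v, toLX X l.length v = l
  | [] => ⟨(), rfl⟩
  | x :: l => by
      obtain ⟨v, hv⟩ := toLX_surj X l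
      exact ⟨(x, v), by simp only [List.length_cons, toLX]; rw [hv]⟩

section

variable {G X : Type} [Group G] (A : SelfSimilar G X)

theorem toLX_perm : ∀ (n : ℕ) (ω : ℕ → Unit) (g : G) (v : Wd X n),
    toLX X n ((iter (fun _ : Unit => A.hom) n ω g).perm v) = A.actW g (toLX X n v)
  | 0, _, _, _ => rfl
  | n + 1, ω, g, ⟨x, w⟩ => by
      rw [iter_succ_perm]
      change A.act g x :: toLX X n _ = A.actW g (x :: toLX X n w)
      simp only [SelfSimilar.actW]
      rw [toLX_perm n (sh ω)]
      rfl

theorem toLX_sec : ∀ (n : ℕ) (ω : ℕ → Unit) (g : G) (v : Wd X n),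
    (iter (fun _ : Unit => A.hom) n ω g).sec v = A.secW g (toLX X n v)
  | 0, _, _, _ => rfl
  | n + 1, ω, g, ⟨x, w⟩ => by
      rw [iter_succ_sec, toLX_sec n (sh ω)]
      rfl

end

theorem selfSimilar_finiteWidths {G X : Type} [Group G] [Group.FG G] [Finite X] [Nonempty X]
    (A : SelfSimilar G X) (p : ℕ) [Fact p.Prime] (K : Subgroup G) [K.Normal]
    (hfaith : ∀ g, (∀ w : List X, A.actW g w = w) → g = 1)
    (hcontr : ∃ nuc : Set G, nuc.Finite ∧
      ∀ g, ∃ n₀, ∀ w : List X, n₀ ≤ w.length → A.secW g w ∈ nuc)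
    (htrans : ∀ v w : List X, v.length = w.length → ∃ g, A.actW g v = w)
    (hbranch : ∀ κ : X → G, (∀ x, κ x ∈ K) → ∃ g ∈ K, A.act g = 1 ∧ ∀ x, A.sec g x = κ x)
    (hfin : (⁅K, K⁆).FiniteIndex) (hp : ∀ g : G, ∃ k : ℕ, g ^ p ^ k ∈ ⁅K, K⁆)
    (hact : ∀ g : G, ∃ k : ℕ, A.act g ^ p ^ k = 1) : FiniteWidths G := by
  classical
  set ψ : Unit → G →* Wr G X := fun _ => A.hom with hψ
  set ω : ℕ → Unit := fun _ => () with hω
  obtain ⟨nuc, hnuc, hcontr⟩ := hcontr
  -- uniform exponent
  obtain ⟨k, hk⟩ : ∃ k : ℕ, ∀ g : G, A.act g ^ p ^ k = 1 := by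
    have : Finite (A.act.range) := inferInstance
    have := Fintype.ofFinite A.act.range
    have h1 : ∀ σ : A.act.range, ∃ k : ℕ, (σ : Equiv.Perm X) ^ p ^ k = 1 := by
      rintro ⟨_, g, rfl⟩
      exact hact g
    choose k hk using h1
    refine ⟨Finset.univ.sup k, fun g => ?_⟩
    have h2 : k ⟨A.act g, ⟨g, rfl⟩⟩ ≤ Finset.univ.sup k := Finset.le_sup (Finset.mem_univ _)
    obtain ⟨d, hd⟩ := Nat.exists_eq_add_of_le h2
    rw [hd, pow_add, pow_mul]
    have := hk ⟨A.act g, ⟨g, rfl⟩⟩
    simp only at this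
    rw [this, one_pow]
  have hN : NN ψ ω = ⊥ := by
    rw [Subgroup.eq_bot_iff_forall]
    intro g hg
    apply hfaith
    intro w
    obtain ⟨v, hv⟩ := toLX_surj X w
    have h1 := toLX_perm A w.length ω g v
    rw [hv] at h1
    rw [← h1]
    have h2 : (iter (fun _ : Unit => A.hom) w.length ω g).perm = 1 := hg w.length
    rw [h2]
    exact hv
  have hD : ⁅K, K⁆ ⊔ (⊥ : Subgroup G) = ⁅K, K⁆ := sup_bot_eq _
  let T : Tower p G (NN ψ ω) :=
    { K := K
      R := ⊥
      Y := Wd X
      Ψ := fun n => iter ψ n ω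
      M := fun n => NN ψ (shn n ω)
      nuc := nuc
      I := {n | n ≠ 0}
      K_normal := inferInstance
      R_normal := inferInstance
      M_normal := fun n => inferInstance
      finite_Y := fun n => inferInstance
      nonempty_Y := fun n => inferInstance
      nuc_finite := hnuc
      I_inf := fun m => ⟨m + 1, by omega, by simp⟩
      mem_N := fun n f => mem_NN_level ψ n ω f
      R_le := fun n _ => bot_le
      branch := by
        rintro n hn κ hκ
        obtain ⟨m, rfl⟩ : ∃ m, n = m + 1 := ⟨n - 1, (Nat.succ_pred_eq_of_ne_zero hn).symm⟩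
        obtain ⟨f, -, hf1, hf2⟩ := branch_all ψ (fun _ => K)
          (fun s s' κ hκ => hbranch κ hκ) m ω κ hκ ()
        refine ⟨f, hf1, fun y => ?_⟩
        rw [hf2]
        simp
      D_fin := by rw [hD]; exact hfin
      D_p := fun f => by rw [hD]; exact hp f
      act_p := fun n f => ⟨k * n, act_pow ψ p k (fun _ g => hk g) n ω f⟩
      trans := by
        intro n y y'
        obtain ⟨g, hg⟩ := htrans (toLX X n y) (toLX X n y') (by rw [toLX_length, toLX_length])
        refine ⟨g, ?_⟩
        apply toLX_inj X n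
        rw [← hg]
        exact toLX_perm A n ω g y
      contr := by
        intro g
        obtain ⟨n₀, hn₀⟩ := hcontr g
        refine ⟨n₀, fun n hn y => ?_⟩
        have := hn₀ (toLX X n y) (by rw [toLX_length]; exact hn)
        rw [← toLX_sec A n ω g y] at this
        exact this
      proj := fun n => ⟨dropL n, fun f y => dropL_perm ψ n ω f y⟩
      faithful := by
        intro f hf
        by_contra hcon
        push Not at hcon
        exact hf hcon }
  have h1 := T.bounded
  have e1 : G ⧸ NN ψ ω ≃* G ⧸ (⊥ : Subgroup G) := QuotientGroup.quotientMulEquivOfEq hN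
  have e2 : G ⧸ (⊥ : Subgroup G) ≃* G := QuotientGroup.quotientBot
  exact (h1.of_equiv e1).of_equiv e2

end Pool.Agent.VW
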