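import Pool.Agent.VW.Disp
import Pool.Agent.VW.Nil

/-! The general theorem. -/

namespace Pool.Agent.VW

set_option linter.unusedSectionVars false

open Subgroup hiding lowerCentralSeries
open scoped commutatorElement

/-- Data showing that `F ⧸ N` is a branch group with uniform local structure. -/
structure Tower (p : ℕ) (F : Type) [Group F] (N : Subgroup F) where
  K : Subgroup F
  R : Subgroup F
  Y : ℕ → Type
  Ψ : ∀ n, F →* Wr F (Y n)
  M : ℕ → Subgroup F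
  nuc : Set F
  I : Set ℕ
  K_normal : K.Normal
  R_normal : R.Normal
  M_normal : ∀ n, (M n).Normal
  finite_Y : ∀ n, Finite (Y n)
  nonempty_Y : ∀ n, Nonempty (Y n)
  nuc_finite : nuc.Finite
  I_inf : ∀ m, ∃ n, m ≤ n ∧ n ∈ I
  mem_N : ∀ n f, f ∈ N ↔ (Ψ n f).perm = 1 ∧ ∀ y, (Ψ n f).sec y ∈ M n
  R_le : ∀ n ∈ I, R ≤ M n
  branch : ∀ n ∈ I, ∀ κ : Y n → F, (∀ y, κ y ∈ K) →
    ∃ f, (Ψ n f).perm = 1 ∧ ∀ y, (κ y)⁻¹ * (Ψ n f).sec y ∈ M n
  D_fin : (⁅K, K⁆ ⊔ R).FiniteIndex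
  D_p : ∀ f : F, ∃ k : ℕ, f ^ p ^ k ∈ ⁅K, K⁆ ⊔ R
  act_p : ∀ n f, ∃ k : ℕ, (Ψ n f).perm ^ p ^ k = 1
  trans : ∀ n y y', ∃ f, (Ψ n f).perm y = y'
  contr : ∀ f, ∃ n₀, ∀ n, n₀ ≤ n → ∀ y, (Ψ n f).sec y ∈ nuc
  proj : ∀ n, ∃ π : Y (n + 1) → Y n, ∀ f y, π ((Ψ (n + 1) f).perm y) = (Ψ n f).perm (π y)
  faithful : ∀ f, f ∉ N → ∃ n, (Ψ n f).perm ≠ 1

namespace Tower

variable {p : ℕ} {F : Type} [Group F] {N : Subgroup F} [N.Normal] (T : Tower p F N)

instance : T.K.Normal := T.K_normal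
instance : T.R.Normal := T.R_normal
instance (n : ℕ) : (T.M n).Normal := T.M_normal n
instance (n : ℕ) : Finite (T.Y n) := T.finite_Y n
instance (n : ℕ) : Nonempty (T.Y n) := T.nonempty_Y n

/-- the subgroup `[K,K]R` -/
def D : Subgroup F := ⁅T.K, T.K⁆ ⊔ T.R

instance : T.D.Normal := by unfold D; infer_instance
instance : T.D.FiniteIndex := T.D_fin

theorem proj_le (m n : ℕ) (h : m ≤ n) :
    ∃ π : T.Y n → T.Y m, ∀ f y, π ((T.Ψ n f).perm y) = (T.Ψ m f).perm (π y) := by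
  induction h with
  | refl => exact ⟨id, fun f y => rfl⟩
  | step _ ih =>
    obtain ⟨π, hπ⟩ := ih
    obtain ⟨ρ, hρ⟩ := T.proj _
    exact ⟨fun y => π (ρ y), fun f y => (congrArg π (hρ f y)).trans (hπ f (ρ y))⟩

/-- the embedding of `F ⧸ N` in a wreath product at level `n` -/
noncomputable def Θ (n : ℕ) : F ⧸ N →* Wr (F ⧸ T.M n) (T.Y n) :=
  QuotientGroup.lift N ((Wr.map (QuotientGroup.mk' (T.M n))).comp (T.Ψ n)) (by
    intro f hf
    obtain ⟨h1, h2⟩ := (T.mem_N n f).1 hf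
    apply Wr.ext
    · exact h1
    · funext y
      exact (QuotientGroup.eq_one_iff _).2 (h2 y))

theorem Θ_mk (n : ℕ) (f : F) :
    T.Θ n (f : F ⧸ N) = Wr.map (QuotientGroup.mk' (T.M n)) (T.Ψ n f) := rfl

theorem Θ_inj (n : ℕ) : Function.Injective (T.Θ n) := by
  rw [injective_iff_map_eq_one]
  intro x
  induction x using QuotientGroup.induction_on with
  | H f =>
    intro h
    rw [Θ_mk] at h
    have h1 : (T.Ψ n f).perm = 1 := congrArg Wr.perm h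
    have h2 : ∀ y, (T.Ψ n f).sec y ∈ T.M n := by
      intro y
      have := congrFun (congrArg Wr.sec h) y
      exact (QuotientGroup.eq_one_iff _).1 this
    exact (QuotientGroup.eq_one_iff _).2 ((T.mem_N n f).2 ⟨h1, h2⟩)

/-- image of `K` in the level quotient -/
def KA (n : ℕ) : Subgroup (F ⧸ T.M n) := T.K.map (QuotientGroup.mk' (T.M n))

theorem hb {n : ℕ} (hn : n ∈ T.I) (κ : T.Y n → F ⧸ T.M n) (hκ : ∀ y, κ y ∈ T.KA n) :
    ∃ g, T.Θ n g = base κ := by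
  choose κ' hκ' he using hκ
  obtain ⟨f, hf1, hf2⟩ := T.branch n hn κ' hκ'
  refine ⟨(f : F ⧸ N), ?_⟩
  rw [Θ_mk]
  apply Wr.ext
  · exact hf1
  · funext y
    have h1 : ((κ' y : F) : F ⧸ T.M n) = ((T.Ψ n f).sec y : F) := QuotientGroup.eq.2 (hf2 y)
    change (((T.Ψ n f).sec y : F) : F ⧸ T.M n) = κ y
    rw [← h1]; exact he y

theorem KA_fin {n : ℕ} (hn : n ∈ T.I) : (⁅T.KA n, T.KA n⁆).FiniteIndex := by
  have h1 : T.D.map (QuotientGroup.mk' (T.M n)) = ⁅T.KA n, T.KA n⁆ := by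
    unfold D KA
    rw [Subgroup.map_sup, Subgroup.map_commutator]
    have : T.R.map (QuotientGroup.mk' (T.M n)) = ⊥ := by
      rw [Subgroup.map_eq_bot_iff, QuotientGroup.ker_mk']
      exact T.R_le n hn
    rw [this, sup_bot_eq]
  rw [← h1]
  constructor
  intro h0
  have h2 := Subgroup.index_map_dvd T.D (QuotientGroup.mk'_surjective (T.M n))
  rw [h0] at h2
  exact T.D_fin.index_ne_zero (Nat.eq_zero_of_zero_dvd h2)

/-- displacement hypothesis -/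
theorem displace {W : Set (F ⧸ N)} (hc : ∀ x ∈ W, ∀ g, g * x * g⁻¹ ∈ W) {h : F ⧸ N} (hh : h ∈ W)
    (h1 : h ≠ 1) : ∃ n₁, ∀ n, n₁ ≤ n → ∃ π : T.Y n → T.Y n₁,
      ∀ z : T.Y n₁, ∃ h ∈ W, ∀ y, π y = z → π ((T.Θ n h).perm y) ≠ z := by
  induction h using QuotientGroup.induction_on with
  | H f =>
    have hf : f ∉ N := fun hf => h1 ((QuotientGroup.eq_one_iff _).2 hf)
    obtain ⟨n₁, hn₁⟩ := T.faithful f hf
    obtain ⟨y₀, hy₀⟩ : ∃ y₀, (T.Ψ n₁ f).perm y₀ ≠ y₀ := by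
      by_contra hcon
      push Not at hcon
      exact hn₁ (Equiv.ext hcon)
    refine ⟨n₁, fun n hn => ?_⟩
    obtain ⟨π, hπ⟩ := T.proj_le n₁ n hn
    refine ⟨π, fun z => ?_⟩
    obtain ⟨g, hg⟩ := T.trans n₁ y₀ z
    refine ⟨((g * f * g⁻¹ : F) : F ⧸ N), ?_, ?_⟩
    · have := hc _ hh (g : F ⧸ N)
      simpa using this
    · intro y hy
      rw [Θ_mk]
      change π ((T.Ψ n (g * f * g⁻¹)).perm y) ≠ z
      rw [hπ, hy]
      simp only [map_mul, map_inv, Wr.mul_perm, Wr.inv_perm, Equiv.Perm.mul_apply]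
      have h3 : (T.Ψ n₁ g).perm⁻¹ z = y₀ := by
        rw [← hg]; simp
      rw [h3]
      intro h4
      apply hy₀
      have h5 : (T.Ψ n₁ g).perm ((T.Ψ n₁ f).perm y₀) = (T.Ψ n₁ g).perm y₀ := by rw [h4, hg]
      exact (T.Ψ n₁ g).perm.injective h5

/-- a subgroup containing the commutator base group has finite index -/
theorem finiteIndex_of {n : ℕ} (hn : n ∈ T.I) (H : Subgroup (F ⧸ N))
    (hH : ∀ g κ, T.Θ n g = base κ → (∀ y, κ y ∈ ⁅T.KA n, T.KA n⁆) → g ∈ H) :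
    H.FiniteIndex := by
  have := T.KA_fin hn
  have : (T.KA n).Normal := by
    unfold KA
    exact Subgroup.Normal.map inferInstance _ (QuotientGroup.mk'_surjective _)
  have : Finite ((F ⧸ T.M n) ⧸ ⁅T.KA n, T.KA n⁆) := Subgroup.finite_quotient_of_finiteIndex
  let φ : F ⧸ N →* Wr ((F ⧸ T.M n) ⧸ ⁅T.KA n, T.KA n⁆) (T.Y n) :=
    (Wr.map (QuotientGroup.mk' _)).comp (T.Θ n)
  have h1 : φ.ker ≤ H := by
    intro g hg
    have hg' : φ g = 1 := hg
    have hp : (T.Θ n g).perm = 1 := congrArg Wr.perm hg'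
    refine hH g _ (eq_base _ hp) fun y => ?_
    have := congrFun (congrArg Wr.sec hg') y
    exact (QuotientGroup.eq_one_iff _).1 this
  have : Finite φ.range := inferInstance
  have : φ.ker.FiniteIndex := Subgroup.finiteIndex_ker φ
  exact Subgroup.finiteIndex_of_le h1

include T in
theorem closure_finiteIndex {W : Set (F ⧸ N)} (hs : ∀ x ∈ W, x⁻¹ ∈ W)
    (hc : ∀ x ∈ W, ∀ g, g * x * g⁻¹ ∈ W) {h : F ⧸ N} (hh : h ∈ W) (h1 : h ≠ 1) :
    (Subgroup.closure W).FiniteIndex := by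
  classical
  obtain ⟨n₁, hn₁⟩ := T.displace hc hh h1
  obtain ⟨n, hn, hnI⟩ := T.I_inf n₁
  obtain ⟨π, hd⟩ := hn₁ n hn
  refine T.finiteIndex_of hnI _ ?_
  intro g κ hg hκ
  have h2 : ∀ y, ∃ c, CL (T.KA n) c (κ y) := fun y => CL.exists_of_mem (hκ y)
  choose c hc' using h2
  have := Fintype.ofFinite (T.Y n)
  have := Fintype.ofFinite (T.Y n₁)
  have h3 : ∀ y, CL (T.KA n) (Finset.univ.sup c) (κ y) := fun y =>
    (hc' y).mono (Finset.le_sup (Finset.mem_univ y))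
  exact (CL_len (T.Θ n) (T.Θ_inj n) (T.KA n) (T.hb hnI) π hs hc hd _ κ h3 g hg).mem_closure

include T in
/-- if the subgroup generated by `W` is abelian then the group is finite -/
theorem finite_of_abelian {W : Set (F ⧸ N)}
    (hc : ∀ x ∈ W, ∀ g, g * x * g⁻¹ ∈ W) {h : F ⧸ N} (hh : h ∈ W) (h1 : h ≠ 1)
    (hab : ∀ x ∈ Subgroup.closure W, ∀ y ∈ Subgroup.closure W, x * y = y * x) :
    Finite (F ⧸ N) := by
  classical
  obtain ⟨n₁, hn₁⟩ := T.displace hc hh h1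
  obtain ⟨n, hn, hnI⟩ := T.I_inf n₁
  obtain ⟨π, hd⟩ := hn₁ n hn
  obtain ⟨v⟩ := T.nonempty_Y n
  obtain ⟨w, hw, hdw⟩ := hd (π v)
  have key : ∀ α ∈ T.KA n, ∃ u ∈ Subgroup.closure W, (T.Θ n u).perm = 1 ∧ (T.Θ n u).sec v = α := by
    intro α hα
    obtain ⟨g, hg⟩ := T.hb hnI (fun y => if y = v then α else 1) (by
      intro y
      split_ifs
      · exact hα
      · exact (T.KA n).one_mem)
    refine ⟨g * w * g⁻¹ * w⁻¹, ?_, ?_⟩
    · exact (Subgroup.closure W).mul_mem (Subgroup.subset_closure (hc w hw g))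
        ((Subgroup.closure W).inv_mem (Subgroup.subset_closure hw))
    · obtain ⟨γ, hγ, hγ1⟩ := displaced (κ := fun y => ((if y = v then α else 1 : F ⧸ T.M n))⁻¹)
        (z := π v) π (fun y hy => by
          have : y ≠ v := fun h => hy (by rw [h])
          simp [this]) hdw
      have e : T.Θ n (g * w * g⁻¹ * w⁻¹)
          = base (fun y => (if y = v then α else 1) * γ y) := by
        rw [← base_mul, ← hγ, ← base_inv, ← hg]
        simp only [map_mul, map_inv]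
        group
      rw [e]
      refine ⟨rfl, ?_⟩
      simp [hγ1 v rfl]
  have hK : ∀ α ∈ T.KA n, ∀ β ∈ T.KA n, α * β = β * α := by
    intro α hα β hβ
    obtain ⟨u, hu, hu1, hu2⟩ := key α hα
    obtain ⟨u', hu', hu1', hu2'⟩ := key β hβ
    have h2 := congrArg (fun x => (T.Θ n x).sec v) (hab u hu u' hu')
    simp only [map_mul, Wr.mul_sec, hu1, hu1', Equiv.Perm.one_apply, hu2, hu2'] at h2
    exact h2
  have hbot : ⁅T.KA n, T.KA n⁆ = ⊥ := by
    rw [eq_bot_iff, Subgroup.commutator_le]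
    intro a ha b hb
    rw [Subgroup.mem_bot, commutatorElement_eq_one_iff_mul_comm]
    exact hK a ha b hb
  have hfin := T.KA_fin hnI
  rw [hbot] at hfin
  have : Finite (F ⧸ T.M n) := by
    have := hfin
    have : Finite ((F ⧸ T.M n) ⧸ (⊥ : Subgroup (F ⧸ T.M n))) :=
      Subgroup.finite_quotient_of_finiteIndex
    exact Finite.of_equiv _ (QuotientGroup.quotientBot (G := F ⧸ T.M n)).toEquiv
  exact Finite.of_injective _ (T.Θ_inj n)

end Tower

end Pool.Agent.VW
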